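import Pool.Agent.H36.MT.Df
import Pool.Agent.H76.PP.Te
import Pool.Agent.H38.T1.Ea

/-!
ROW Eq (project MP_78d38b_MT, about 120 lines): `RelTriv` does not depend on the choice of the field `L = K(θ)`.

PROOF. (1) There is a `K`-algebra isomorphism `φ : L ≃ₐ[K] L'` with `φ θ = θ'`: the `K`-linear map sending `x` to
`algebraMap (h.co 0 x) + algebraMap (h.co 1 x) * θ' + algebraMap (h.co 2 x) * θ'^2` is multiplicative by `Cub.co_mul` (E0) for `h` and
`θ'^3 = -a θ' - b` (`h'.root`); it is bijective: injective because it is a ring homomorphism of fields, surjective by `h'.sp`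
(or `AlgEquiv.ofBijective`). So `φ (ev θ d) = ev θ' d` for `d : Fin 3 → K`.
(2) Let `w'` be a prime of `L`; we need a prime `w` of `L'` with `w.valuation L' (φ x) = w'.valuation L x` for all `x : L` and `dn K w = dn K w'`. Let
`e : 𝓞 L ≃+* 𝓞 L'` (`NumberField.RingOfIntegers.mapRingEquiv`), `w.asIdeal = w'.asIdeal.comap e.symm` (or `.map e`). `dn K w = dn K w'`: `e (algebraMap x) = algebraMap x`. For `x : 𝓞 L`:
`x ∈ w'^n ↔ e x ∈ w^n` (`Ideal.map_pow`/`Ideal.comap` along an equivalence, `Ideal.map_comap_of_equiv`), so `w'.intValuation x ≤ exp (-n) ↔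
w.intValuation (e x) ≤ exp (-n)` (`intValuation_le_pow_iff_mem`) for all `n : ℕ`, hence the values agree (both are zero for `x = 0`, otherwise `exp` of an
integer `≤ 0`); fractions: `IsFractionRing.div_surjective`, `map_div₀`.
(3) Let `d` be as in the definition of `RelTriv` for `L'`. Then `ev θ d ≠ 0`; `Algebra.norm K (ev θ d) = Algebra.norm K (ev θ' d)` (`Algebra.norm_eq_of_algEquiv`, or
`Te_norm`); for a prime `w'` of `L` with `dn K w' ∉ P`: `eo w' (sc (ev θ d)) = (ord (w'.valuation L) (ev θ d) : ZMod 2)` (`H38T1.eo_sc`) `= eo w (sc (ev θ' d)) = 0`. So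
`ev θ d = y * y` and `ev θ' d = φ y * φ y`.
-/

set_option autoImplicit false
set_option linter.unusedSectionVars false
open scoped Classical

open WithZero NumberField IsDedekindDomain H38RT
open H38T1 (SC sc scu rep eo la si Pri OddP tp unif)
open H76PP

namespace H36MT

section iso

variable {K L L' : Type} [Field K] [Field L] [Algebra K L] [Field L'] [Algebra K L']

theorem Eq_hom {a b : K} {θ : L} {θ' : L'} (h : Cub K L a b θ) (h' : Cub K L' a b θ') :
    ∃ φ : L ≃ₐ[K] L', ∀ d : Fin 3 → K, φ (ev θ d) = ev θ' d := by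
  let f : L →ₗ[K] L' :=
    { toFun := fun x => algebraMap K L' (h.co 0 x) + algebraMap K L' (h.co 1 x) * θ' +
        algebraMap K L' (h.co 2 x) * θ' ^ 2
      map_add' := fun x y => by
        simp only [map_add]
        ring
      map_smul' := fun c x => by
        have hs : ∀ i, h.co i (c • x) = c * h.co i x := fun i => map_smul (h.co i) c x
        rw [hs, hs, hs, map_mul, map_mul, map_mul, RingHom.id_apply, Algebra.smul_def]
        ring }
  have hf : ∀ x, f x = algebraMap K L' (h.co 0 x) + algebraMap K L' (h.co 1 x) * θ' +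
        algebraMap K L' (h.co 2 x) * θ' ^ 2 := fun _ => rfl
  have hf1 : f 1 = 1 := by
    obtain ⟨e0, e1, e2⟩ := h.co_one
    rw [hf, e0, e1, e2, map_one, map_zero, zero_mul, zero_mul, add_zero, add_zero]
  have hfm : ∀ x y, f (x * y) = f x * f y := by
    intro x y
    obtain ⟨e0, e1, e2⟩ := h.co_mul x y
    rw [hf, hf, hf, e0, e1, e2]
    simp only [map_sub, map_add, map_mul]
    linear_combination (-((algebraMap K L' (h.co 1 x) * algebraMap K L' (h.co 2 y) +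
      algebraMap K L' (h.co 2 x) * algebraMap K L' (h.co 1 y)) +
      algebraMap K L' (h.co 2 x) * algebraMap K L' (h.co 2 y) * θ')) * h'.root
  let φ : L →ₐ[K] L' := AlgHom.ofLinearMap f hf1 hfm
  have hφ : ∀ d : Fin 3 → K, φ (ev θ d) = ev θ' d := by
    intro d
    change f (ev θ d) = ev θ' d
    unfold ev
    rw [hf, h.co_mk, h.co_mk, h.co_mk]
  have hbij : Function.Bijective φ := by
    refine ⟨φ.toRingHom.injective, fun y => ?_⟩
    obtain ⟨c0, c1, c2, hy⟩ := h'.sp y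
    refine ⟨ev θ ![c0, c1, c2], ?_⟩
    rw [hφ, hy]
    rfl
  exact ⟨AlgEquiv.ofBijective φ hbij, hφ⟩

end iso

section place

variable {K L L' : Type} [Field K] [NumberField K] [Field L] [NumberField L]
    [Algebra K L] [Field L'] [NumberField L'] [Algebra K L']

/-- The isomorphism of the rings of integers. -/
noncomputable def Eq_O (ψ : L' ≃ₐ[K] L) : 𝓞 L' ≃+* 𝓞 L := RingOfIntegers.mapRingEquiv ψ.toRingEquiv

theorem Eq_coe (ψ : L' ≃ₐ[K] L) (x : 𝓞 L') : ((Eq_O ψ x : 𝓞 L) : L) = ψ (x : L') := rfl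

/-- The corresponding place. -/
noncomputable def Eq_mv (ψ : L' ≃ₐ[K] L) (w : HeightOneSpectrum (𝓞 L)) : HeightOneSpectrum (𝓞 L') where
  asIdeal := w.asIdeal.comap (Eq_O ψ : 𝓞 L' →+* 𝓞 L)
  isPrime := Ideal.comap_isPrime _ _
  ne_bot := by
    intro h0
    apply w.ne_bot
    rw [eq_bot_iff]
    intro x hx
    have h1 : (Eq_O ψ).symm x ∈ w.asIdeal.comap (Eq_O ψ : 𝓞 L' →+* 𝓞 L) := by
      rw [Ideal.mem_comap]
      have h2 : (Eq_O ψ : 𝓞 L' →+* 𝓞 L) ((Eq_O ψ).symm x) = x := (Eq_O ψ).apply_symm_apply x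
      rw [h2]
      exact hx
    rw [h0, Ideal.mem_bot] at h1
    rw [Ideal.mem_bot]
    exact (map_eq_zero_iff _ (Eq_O ψ).symm.injective).1 h1

theorem Eq_mem {ψ : L' ≃ₐ[K] L} {w : HeightOneSpectrum (𝓞 L)} {x : 𝓞 L'} :
    x ∈ (Eq_mv ψ w).asIdeal ↔ Eq_O ψ x ∈ w.asIdeal := Iff.rfl

theorem Eq_dn (ψ : L' ≃ₐ[K] L) (w : HeightOneSpectrum (𝓞 L)) : dn K (Eq_mv ψ w) = dn K w := by
  apply HeightOneSpectrum.ext
  ext x
  change Eq_O ψ (algebraMap (𝓞 K) (𝓞 L') x) ∈ w.asIdeal ↔ algebraMap (𝓞 K) (𝓞 L) x ∈ w.asIdeal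
  have h1 : Eq_O ψ (algebraMap (𝓞 K) (𝓞 L') x) = algebraMap (𝓞 K) (𝓞 L) x := by
    apply RingOfIntegers.ext
    rw [Eq_coe]
    exact ψ.commutes (x : K)
  rw [h1]

theorem Eq_pow (ψ : L' ≃ₐ[K] L) (w : HeightOneSpectrum (𝓞 L)) (a : 𝓞 L') (n : ℕ) :
    a ∈ (Eq_mv ψ w).asIdeal ^ n ↔ Eq_O ψ a ∈ w.asIdeal ^ n := by
  constructor
  · intro ha
    have h1 : (Eq_mv ψ w).asIdeal ≤ w.asIdeal.comap (Eq_O ψ : 𝓞 L' →+* 𝓞 L) := le_rfl
    have h2 : (Eq_mv ψ w).asIdeal ^ n ≤ (w.asIdeal ^ n).comap (Eq_O ψ : 𝓞 L' →+* 𝓞 L) :=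
      (Ideal.pow_right_mono h1 n).trans (Ideal.le_comap_pow _ n)
    exact h2 ha
  · intro ha
    have h1 : w.asIdeal ≤ (Eq_mv ψ w).asIdeal.comap ((Eq_O ψ).symm : 𝓞 L →+* 𝓞 L') := by
      intro x hx
      rw [Ideal.mem_comap, Eq_mem]
      have h2 : Eq_O ψ (((Eq_O ψ).symm : 𝓞 L →+* 𝓞 L') x) = x := (Eq_O ψ).apply_symm_apply x
      rw [h2]
      exact hx
    have h2 : w.asIdeal ^ n ≤ ((Eq_mv ψ w).asIdeal ^ n).comap ((Eq_O ψ).symm : 𝓞 L →+* 𝓞 L') :=
      (Ideal.pow_right_mono h1 n).trans (Ideal.le_comap_pow _ n)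
    have h3 := h2 ha
    rw [Ideal.mem_comap] at h3
    have h4 : ((Eq_O ψ).symm : 𝓞 L →+* 𝓞 L') (Eq_O ψ a) = a := (Eq_O ψ).symm_apply_apply a
    rwa [h4] at h3

theorem Eq_int (ψ : L' ≃ₐ[K] L) (w : HeightOneSpectrum (𝓞 L)) (a : 𝓞 L') :
    (Eq_mv ψ w).intValuation a = w.intValuation (Eq_O ψ a) := by
  by_cases ha : a = 0
  · rw [ha, map_zero, map_zero, map_zero]
  · have hb : Eq_O ψ a ≠ 0 := fun h => ha ((map_eq_zero_iff _ (Eq_O ψ).injective).1 h)
    apply le_antisymm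
    · have h1 := w.intValuation_if_neg hb
      have h2 : Eq_O ψ a ∈ w.asIdeal ^ ((Associates.mk w.asIdeal).count
          (Associates.mk (Ideal.span {Eq_O ψ a} : Ideal (𝓞 L))).factors) := by
        rw [← w.intValuation_le_pow_iff_mem, h1]
      rw [h1, (Eq_mv ψ w).intValuation_le_pow_iff_mem, Eq_pow]
      exact h2
    · have h1 := (Eq_mv ψ w).intValuation_if_neg ha
      have h2 : a ∈ (Eq_mv ψ w).asIdeal ^ ((Associates.mk (Eq_mv ψ w).asIdeal).count
          (Associates.mk (Ideal.span {a} : Ideal (𝓞 L'))).factors) := by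
        rw [← (Eq_mv ψ w).intValuation_le_pow_iff_mem, h1]
      rw [h1, w.intValuation_le_pow_iff_mem, ← Eq_pow]
      exact h2

theorem Eq_val (ψ : L' ≃ₐ[K] L) (w : HeightOneSpectrum (𝓞 L)) (x : L') :
    (Eq_mv ψ w).valuation L' x = w.valuation L (ψ x) := by
  obtain ⟨a, b, hb, hab⟩ := IsFractionRing.div_surjective (A := 𝓞 L') x
  have h0 : ∀ c : 𝓞 L', (Eq_mv ψ w).valuation L' (c : L') = w.valuation L (ψ (c : L')) := by
    intro c
    have h3 : (Eq_mv ψ w).valuation L' (c : L') = (Eq_mv ψ w).intValuation c :=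
      (Eq_mv ψ w).valuation_of_algebraMap c
    have h4 : w.valuation L ((Eq_O ψ c : 𝓞 L) : L) = w.intValuation (Eq_O ψ c) :=
      w.valuation_of_algebraMap _
    rw [h3, Eq_int, ← h4, Eq_coe]
  rw [← hab, map_div₀, map_div₀, map_div₀]
  exact congrArg₂ (· / ·) (h0 a) (h0 b)

end place

theorem RelTriv.equiv {K L L' : Type} [Field K] [NumberField K] [Field L] [NumberField L]
    [Algebra K L] [Field L'] [NumberField L'] [Algebra K L']
    {P : Finset (HeightOneSpectrum (𝓞 K))} {a b : K} {θ : L} {θ' : L'} (h : Cub K L a b θ)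
    (h' : Cub K L' a b θ') (hR : RelTriv K L P a b θ) : RelTriv K L' P a b θ' := by
  obtain ⟨φ, hφ⟩ := Eq_hom h h'
  intro d hd hn he hl hs
  have hd' : ev θ d ≠ 0 := by
    intro h0
    apply hd
    rw [← hφ, h0, map_zero]
  have hnorm : Algebra.norm K (ev θ d) = Algebra.norm K (ev θ' d) := by
    rw [← hφ]
    exact (Algebra.norm_eq_of_algEquiv φ (ev θ d)).symm
  obtain ⟨y, hy⟩ := hR d hd' (by rw [hnorm]; exact hn) (fun w hw => by
    have h1 := he (Eq_mv φ.symm w) (by rw [Eq_dn]; exact hw)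
    rw [H38T1.eo_sc hd] at h1
    rw [H38T1.eo_sc hd']
    unfold ord at h1 ⊢
    rw [Eq_val, ← hφ, AlgEquiv.symm_apply_apply] at h1
    exact h1) hl hs
  refine ⟨φ y, ?_⟩
  rw [← hφ, hy, map_mul]

end H36MT
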