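import Pool.Agent.H36.MT.Df
import Pool.Agent.H38.T1.Ea

/-!
ROW Fs (project MP_78d38b_MT, about 140 lines): the square part of the ideal `(δ)`.

PROOF. `D := Ideal.span {δ} ≠ ⊥`. (1) There are ideals `I`, `J` with `D = I ^ 2 * J`, `J` squarefree (any nonzero ideal; induction
`UniqueFactorizationMonoid.induction_on_prime`: for a unit/`1` take `I = J = 1`; for `P * D'` with `P` prime, `D' = I^2 J`: if `P ∣ J`,
`J = P * J'`, take `(I P, J')`, else `(I, P J)`, squarefree since `P ∤ J` (`squarefree_mul_iff`, `IsRelPrime`)). `I, J ≠ ⊥`.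
(2) If a prime `w` divides `J` then the multiplicity of `w` in `D` is `2 * mult I + 1`, odd, so `eo w (sc δ) ≠ 0` (`H38T1.eo_sc`,
`w.intValuation_eq_exp_neg_multiplicity`, see `Fe_sq` in `Pool/Agent/H76/PP/Fe.lean` for this computation), so `w ∈ Q` and `r ∈ w`.
(3) `r ∈ J`: `J` is squarefree and every prime ideal containing `J` contains `r`, so `r` is in the radical of `J`
(`Ideal.radical_eq_sInf`; a prime ideal containing `J ≠ ⊥` is a `HeightOneSpectrum`), `r ^ n ∈ J`, `J ∣ span {r} ^ n`, so `J ∣ span {r}`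
(`UniqueFactorizationMonoid.dvd_pow_iff_dvd_of_squarefree` / `Squarefree.isRadical`).
(4) `Ideal.absNorm D = absNorm I ^ 2 * absNorm J ≥ absNorm I ^ 2` (`absNorm J ≠ 0`). For `x, y ∈ I`: `r * (x * y) ∈ J * I^2 = D`
(`Ideal.mul_mem_mul`), `Ideal.mem_span_singleton`.
-/

set_option autoImplicit false
set_option linter.unusedSectionVars false
open scoped Classical

open WithZero NumberField IsDedekindDomain H38RT
open H38T1 (SC sc scu rep eo la si Pri OddP tp unif)
open H76PP

namespace H36MT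

private lemma Fs_split {R : Type*} [CommRing R] [IsDedekindDomain R] (D : Ideal R) :
    D ≠ 0 → ∃ I J : Ideal R, D = I ^ 2 * J ∧ Squarefree J := by
  refine UniqueFactorizationMonoid.induction_on_prime
    (P := fun D : Ideal R => D ≠ 0 → ∃ I J : Ideal R, D = I ^ 2 * J ∧ Squarefree J) D
    (fun h => absurd rfl h) ?_ ?_
  · intro x hx _
    refine ⟨1, x, by rw [one_pow, one_mul], hx.squarefree⟩
  · intro a p ha hp ih _
    obtain ⟨I, J, h1, h2⟩ := ih ha
    by_cases hpJ : p ∣ J
    · obtain ⟨J', rfl⟩ := hpJ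
      refine ⟨I * p, J', ?_, h2.of_mul_right⟩
      rw [h1]
      ring
    · refine ⟨I, p * J, ?_, ?_⟩
      · rw [h1]
        ring
      · rw [squarefree_mul_iff]
        exact ⟨(hp.irreducible.isRelPrime_iff_not_dvd).2 hpJ, hp.irreducible.squarefree, h2⟩

theorem sq_ideal {L : Type} [Field L] [NumberField L] {δ : 𝓞 L} (hδ : δ ≠ 0)
    (Q : Set (HeightOneSpectrum (𝓞 L))) (hev : ∀ w, w ∉ Q → eo w (sc (δ : L)) = 0) {r : 𝓞 L}
    (hr : ∀ w ∈ Q, r ∈ w.asIdeal) :
    ∃ I : Ideal (𝓞 L), I ≠ ⊥ ∧ (Ideal.absNorm I) ^ 2 ≤ Ideal.absNorm (Ideal.span {δ}) ∧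
      ∀ x ∈ I, ∀ y ∈ I, ∃ z : 𝓞 L, r * (x * y) = δ * z := by
  have hD : Ideal.span {δ} ≠ 0 := by
    rw [Ideal.zero_eq_bot, Ne, Ideal.span_singleton_eq_bot]; exact hδ
  have hδL : (δ : L) ≠ 0 := RingOfIntegers.coe_ne_zero_iff.mpr hδ
  obtain ⟨I, J, hIJ, hJ⟩ := Fs_split (Ideal.span {δ}) hD
  have hJ0 : J ≠ 0 := by
    rintro rfl
    exact hD (by rw [hIJ, mul_zero])
  have hI0 : I ≠ 0 := by
    rintro rfl
    exact hD (by rw [hIJ, zero_pow two_ne_zero, zero_mul])
  have hnd : (UniqueFactorizationMonoid.normalizedFactors J).Nodup :=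
    (UniqueFactorizationMonoid.squarefree_iff_nodup_normalizedFactors hJ0).1 hJ
  have hmem : r ∈ J := by
    rcases eq_or_ne r 0 with rfl | hr0
    · exact J.zero_mem
    have hr1 : Ideal.span {r} ≠ 0 := by
      rw [Ideal.zero_eq_bot, Ne, Ideal.span_singleton_eq_bot]; exact hr0
    have hdvd : J ∣ Ideal.span {r} := by
      refine (UniqueFactorizationMonoid.dvd_iff_normalizedFactors_le_normalizedFactors hJ0 hr1).2
        ((Multiset.le_iff_subset hnd).2 ?_)
      intro P hP
      have hirr := UniqueFactorizationMonoid.irreducible_of_normalized_factor P hP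
      have hpr : Prime P := hirr.prime
      set w : HeightOneSpectrum (𝓞 L) := ⟨P, Ideal.isPrime_of_prime hpr, hpr.ne_zero⟩ with hw
      have hwQ : w ∈ Q := by
        by_contra hwQ
        have hev' := hev w hwQ
        rw [H38T1.eo_sc hδL] at hev'
        have h3 := w.intValuation_eq_exp_neg_multiplicity hδ
        rw [← w.valuation_of_algebraMap (K := L)] at h3
        unfold ord at hev'
        change ((-log (w.valuation L (algebraMap (𝓞 L) L δ)) : ℤ) : ZMod 2) = 0 at hev'
        rw [h3, log_exp, neg_neg] at hev'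
        have h4 : ((multiplicity w.asIdeal (Ideal.span {δ}) : ℕ) : ZMod 2) = 0 := by
          exact_mod_cast hev'
        have h5 : 2 ∣ multiplicity P (Ideal.span {δ}) := (ZMod.natCast_eq_zero_iff _ _).1 h4
        rw [UniqueFactorizationMonoid.multiplicity_eq_count_normalizedFactors hirr hD,
          normalize_eq, hIJ, UniqueFactorizationMonoid.normalizedFactors_mul
            (pow_ne_zero 2 hI0) hJ0, UniqueFactorizationMonoid.normalizedFactors_pow,
          Multiset.count_add, Multiset.count_nsmul, Multiset.count_eq_one_of_mem hnd hP] at h5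
        omega
      have hrw : r ∈ P := hr w hwQ
      refine (UniqueFactorizationMonoid.mem_normalizedFactors_iff' hr1).2
        ⟨hirr, normalize_eq _, ?_⟩
      rw [Ideal.dvd_span_singleton]
      exact hrw
    rwa [Ideal.dvd_span_singleton] at hdvd
  refine ⟨I, by rwa [← Ideal.zero_eq_bot], ?_, ?_⟩
  · rw [hIJ, map_mul, map_pow]
    have h1 : 0 < Ideal.absNorm J := by
      rw [Nat.pos_iff_ne_zero, Ne, Ideal.absNorm_eq_zero_iff]
      exact hJ0
    exact Nat.le_mul_of_pos_right _ h1
  · intro x hx y hy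
    have h1 : r * (x * y) ∈ Ideal.span {δ} := by
      rw [hIJ, mul_comm, sq]
      exact Ideal.mul_mem_mul hmem (Ideal.mul_mem_mul hx hy)
    obtain ⟨z, hz⟩ := Ideal.mem_span_singleton'.1 h1
    exact ⟨z, by rw [← hz, mul_comm]⟩

end H36MT
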