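import Pool.Agent.H36.MT.Df
import Pool.Agent.H76.PP.Ge

/-!
Three short independent vectors of an ideal `I` with `(N I)^2 ≤ |N δ|` (project MP_78d38b_MT, no row, proved by
modification of `Pool/Agent/H76/PP/Ge.lean`).
-/

set_option autoImplicit false
open scoped Classical

open NumberField IsDedekindDomain
open H76PP

namespace H36MT

lemma Ge_absNormS {L : Type} [Field L] [NumberField L] (δ : 𝓞 L) (I : Ideal (𝓞 L))
    (hI : (Ideal.absNorm I) ^ 2 ≤ Ideal.absNorm (Ideal.span {δ})) :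
    ((Ideal.absNorm I : ℕ) : ℝ) ^ 2 ≤ ∏ τ : L →+* ℂ, ‖τ (δ : L)‖ := by
  rw [Ideal.absNorm_span_singleton] at hI
  rw [Ge_norm, ← Algebra.coe_norm_int]
  have h2 : ((Ideal.absNorm I : ℕ) : ℝ) ^ 2 ≤ (((Algebra.norm ℤ δ).natAbs : ℕ) : ℝ) := by
    exact_mod_cast hI
  refine h2.trans (le_of_eq ?_)
  rw [Nat.cast_natAbs, Int.cast_abs]
  norm_cast

theorem reduceS (K : Type) [Field K] [NumberField K] : ∃ C₂ : ℝ, 1 ≤ C₂ ∧
    ∀ (L : Type) [Field L] [NumberField L] [Algebra K L] (A B : 𝓞 K) (θ : L),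
      Cub K L (A : K) (B : K) θ → (4 * (A : K) ^ 3 + 27 * (B : K) ^ 2) ≠ 0 →
      ∀ (δ : 𝓞 L) (I : Ideal (𝓞 L)), δ ≠ 0 → I ≠ ⊥ →
      (Ideal.absNorm I) ^ 2 ≤ Ideal.absNorm (Ideal.span {δ}) →
      ∃ e : Fin 3 → 𝓞 L, (∀ i, e i ∈ I) ∧ LinearIndependent K (fun i => (e i : L)) ∧
        ∃ l : Fin 3 → ℝ,
          (∀ i, l i = √(qw (wt (δ : L) (3 * θ ^ 2 + algebraMap K L (A : K))) (e i : L))) ∧
          l 0 ≤ l 1 ∧ l 1 ≤ l 2 ∧ l 0 * l 1 * l 2 ≤ C₂ := by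
  obtain ⟨C, hC1, hC⟩ := ideal_reduced (3 * Module.finrank ℚ K)
  refine ⟨max 1 (√(C * (((NumberField.discr K).natAbs : ℕ) : ℝ) ^ 3)), le_max_left _ _, ?_⟩
  intro L _ _ _ A B θ h hd δ I hδ hI0 hI
  obtain ⟨d, hdd⟩ : ∃ d : L, d = 3 * θ ^ 2 + algebraMap K L (A : K) := ⟨_, rfl⟩
  have hd0 : d ≠ 0 := by
    rw [hdd]
    exact h.der_ne hd
  have hδL : (δ : L) ≠ 0 := by
    intro h0
    exact hδ (RingOfIntegers.coe_injective (h0.trans (map_zero _).symm))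
  rw [← hdd]
  have hfin : Module.finrank ℚ L = 3 * Module.finrank ℚ K := by
    rw [← Module.finrank_mul_finrank ℚ K L, h.finrank, mul_comm]
  have hw := Ge_wt_pos hδL hd0
  have hwc : ∀ τ, wt (δ : L) d (ComplexEmbedding.conjugate τ) = wt (δ : L) d τ := by
    intro τ
    unfold wt
    rw [ComplexEmbedding.conjugate_coe_eq, ComplexEmbedding.conjugate_coe_eq, Complex.norm_conj,
      Complex.norm_conj]
  obtain ⟨b, hb, hli, hprod⟩ := hC L hfin I hI0 _ hw hwc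
  have hbd : (Ideal.absNorm I : ℝ) ^ 2 * (((NumberField.discr L).natAbs : ℕ) : ℝ) *
      ∏ τ, wt (δ : L) d τ ≤ (((NumberField.discr K).natAbs : ℕ) : ℝ) ^ 3 := by
    have h1 := disc_le h hd
    rw [← hdd] at h1
    have hIle := Ge_absNormS δ I hI
    unfold wt
    have h2 : ∏ τ : L →+* ℂ, 1 / (‖τ (δ : L)‖ * ‖τ d‖) =
        1 / ((∏ τ : L →+* ℂ, ‖τ (δ : L)‖) * ∏ τ : L →+* ℂ, ‖τ d‖) := by
      rw [Finset.prod_div_distrib, Finset.prod_const_one, Finset.prod_mul_distrib]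
    rw [h2]
    have p1 : 0 < ∏ τ : L →+* ℂ, ‖τ (δ : L)‖ :=
      Finset.prod_pos fun τ _ => norm_pos_iff.2 ((map_ne_zero τ).2 hδL)
    have p2 : 0 < ∏ τ : L →+* ℂ, ‖τ d‖ :=
      Finset.prod_pos fun τ _ => norm_pos_iff.2 ((map_ne_zero τ).2 hd0)
    rw [mul_one_div, div_le_iff₀ (by positivity)]
    calc (Ideal.absNorm I : ℝ) ^ 2 * (((NumberField.discr L).natAbs : ℕ) : ℝ)
        ≤ (∏ τ : L →+* ℂ, ‖τ (δ : L)‖) * (((NumberField.discr L).natAbs : ℕ) : ℝ) :=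
          mul_le_mul_of_nonneg_right hIle (Nat.cast_nonneg _)
      _ ≤ (∏ τ : L →+* ℂ, ‖τ (δ : L)‖) * ((((NumberField.discr K).natAbs : ℕ) : ℝ) ^ 3 *
          ∏ τ : L →+* ℂ, ‖τ d‖) := mul_le_mul_of_nonneg_left h1 p1.le
      _ = (((NumberField.discr K).natAbs : ℕ) : ℝ) ^ 3 * ((∏ τ : L →+* ℂ, ‖τ (δ : L)‖) *
          ∏ τ : L →+* ℂ, ‖τ d‖) := by ring
  have hprod2 : ∏ i, qw (wt (δ : L) d) (b i : L) ≤
      C * (((NumberField.discr K).natAbs : ℕ) : ℝ) ^ 3 :=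
    hprod.trans (mul_le_mul_of_nonneg_left hbd (by linarith))
  obtain ⟨e, he1, he2, he3, he4⟩ := select h.finrank rfl hli
    (fun i => √(qw (wt (δ : L) d) (b i : L))) (fun i => Real.sqrt_nonneg _)
  refine ⟨fun i => b (e i), fun i => hb _, he1, fun i => √(qw (wt (δ : L) d) (b (e i) : L)),
    fun i => rfl, he2, he3, ?_⟩
  refine Ge_pow Module.finrank_pos (he4.trans ?_)
  have hqn : ∀ i, 0 ≤ qw (wt (δ : L) d) (b i : L) := by
    intro i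
    unfold qw
    exact Finset.sum_nonneg fun τ _ => mul_nonneg (hw τ).le (by positivity)
  rw [← Real.sqrt_prod _ fun i _ => hqn i]
  exact Real.sqrt_le_sqrt hprod2

end H36MT
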