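import Pool.Agent.H36.MT.Fd
import Pool.Agent.H36.MT.Fs
import Pool.Agent.H36.MT.Ge
import Pool.Agent.H76.PP.Fe

/-!
The data attached to a bad pair (project MP_78d38b_MT, no row; modification of `Pool/Agent/H76/PP/Fe.lean`).
-/

set_option autoImplicit false
set_option linter.unusedSectionVars false
open scoped Classical

open WithZero NumberField IsDedekindDomain H38RT
open scoped Matrix
open H38T1 (SC sc scu rep eo la si Pri OddP tp unif)
open H76PP

namespace H36MT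

theorem FamS.no_root {K : Type} [Field K] [NumberField K] {S : Finset (HeightOneSpectrum (𝓞 K))}
    {e : ℕ} {q₀ : HeightOneSpectrum (𝓞 K)}
    {T : Finset (HeightOneSpectrum (𝓞 K))} {A B : 𝓞 K} (hF : FamS S e q₀ T A B) (x : K) :
    x ^ 3 + (A : K) * x + (B : K) ≠ 0 := by
  intro hx
  have hint : IsIntegral (𝓞 K) x := by
    refine ⟨Polynomial.X ^ 3 + (Polynomial.C A * Polynomial.X + Polynomial.C B), ?_, ?_⟩
    · refine Polynomial.monic_X_pow_add ?_
      exact lt_of_le_of_lt Polynomial.degree_linear_le (by norm_num)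
    · simp only [Polynomial.eval₂_add, Polynomial.eval₂_pow, Polynomial.eval₂_X,
        Polynomial.eval₂_mul, Polynomial.eval₂_C]
      rw [← hx]
      ring
  obtain ⟨t, ht⟩ := IsIntegrallyClosed.isIntegral_iff.1 hint
  refine hF.irr t ?_
  have h0 : t ^ 3 + A * t + B = 0 := by
    apply RingOfIntegers.coe_injective
    push_cast
    change (algebraMap (𝓞 K) K t) ^ 3 + (A : K) * (algebraMap (𝓞 K) K t) + (B : K) = 0
    rw [ht]
    exact hx
  rw [h0]
  exact Ideal.zero_mem _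

/-- There is a natural number divisible by given powers of the primes of `S`. -/
theorem exists_r {K : Type} [Field K] [NumberField K] (S : Finset (HeightOneSpectrum (𝓞 K)))
    (e : ℕ) : ∃ r : ℕ, 0 < r ∧ ∀ v ∈ S, (r : 𝓞 K) ∈ v.asIdeal ^ e := by
  refine ⟨Ideal.absNorm (∏ v ∈ S, v.asIdeal ^ e), ?_, fun v hv => ?_⟩
  · refine Nat.pos_of_ne_zero fun h0 => ?_
    rw [Ideal.absNorm_eq_zero_iff, ← Ideal.zero_eq_bot, Finset.prod_eq_zero_iff] at h0
    obtain ⟨v, _, hv⟩ := h0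
    exact v.ne_bot (eq_zero_of_pow_eq_zero hv)
  · have h1 := Ideal.absNorm_mem (∏ v ∈ S, v.asIdeal ^ e)
    exact Ideal.dvd_iff_le.1 (Finset.dvd_prod_of_mem (fun v : HeightOneSpectrum (𝓞 K) =>
      v.asIdeal ^ e) hv) h1

/-- The weighted norm of a multiple. -/
theorem sqrt_qw_mul {L : Type} [Field L] [NumberField L] (w : (L →+* ℂ) → ℝ) (r : ℕ) (x : L) :
    √(qw w ((r : L) * x)) = (r : ℝ) * √(qw w x) := by
  have h1 : qw w ((r : L) * x) = (r : ℝ) ^ 2 * qw w x := by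
    unfold qw
    rw [Finset.mul_sum]
    refine Finset.sum_congr rfl fun τ _ => ?_
    rw [map_mul, map_natCast, norm_mul, Complex.norm_natCast]
    ring
  rw [h1, Real.sqrt_mul (by positivity), Real.sqrt_sq (by positivity)]

theorem exists_datS (K : Type) [Field K] [NumberField K] (S : Finset (HeightOneSpectrum (𝓞 K)))
    (e₀ : ℕ) (he₀ : 1 ≤ e₀) : ∃ C₂ : ℝ, 1 ≤ C₂ ∧
    ∀ (q₀ : HeightOneSpectrum (𝓞 K)) (T : Finset (HeightOneSpectrum (𝓞 K))),
      (∀ v ∈ T, (6 : 𝓞 K) ∉ v.asIdeal ∧ v ∉ S) → ∀ (A B : 𝓞 K) (X : ℝ), 0 ≤ X → (A, B) ∈ Bx K X →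
      FamS S e₀ q₀ T A B → BadS S T A B →
      ∃ (l : Fin 3 → ℝ) (M N : Matrix (Fin 3) (Fin 3) (𝓞 K)), Dat X C₂ T A B l M N := by
  obtain ⟨C₂, hC₂, hred⟩ := reduceS K
  obtain ⟨r, hr0, hrS⟩ := exists_r S e₀
  have hrR : (1 : ℝ) ≤ (r : ℝ) := by exact_mod_cast hr0
  refine ⟨(r : ℝ) ^ 3 * C₂, one_le_mul_of_one_le_of_one_le (one_le_pow₀ hrR) hC₂, ?_⟩
  intro q₀ T hT A B X hX hAB hF hbad
  obtain ⟨L, _, _, _, θ, c, hcub, hc0, hcn, hce, hcl⟩ := hbad
  obtain ⟨δ, hδ, hδc⟩ := Fe_rep c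
  have hδL : (δ : L) ≠ 0 := RingOfIntegers.coe_ne_zero_iff.mpr hδ
  obtain ⟨I, hI0, hIn, hI⟩ := sq_ideal hδ {w | dn K w ∈ S} (fun w hw => by
    rw [hδc]
    exact hce w hw) (r := algebraMap (𝓞 K) (𝓞 L) (r : 𝓞 K)) (fun w hw => by
      have h1 : (r : 𝓞 K) ∈ (dn K w).asIdeal :=
        Ideal.pow_le_self (by omega) (hrS _ hw)
      exact h1)
  have hns : ¬ IsSquare (δ : L) := by
    rw [← H38T1.sc_eq_zero hδL, hδc]
    exact hc0
  have hNs : IsSquare (Algebra.norm K (δ : L)) := by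
    have h1 : scm (Algebra.norm K : L →* K) (sc (δ : L)) = 0 := by rw [hδc]; exact hcn
    rw [scm_sc _ hδL] at h1
    exact (H38T1.sc_eq_zero (scm_ne _ hδL)).1 h1
  have hd := hF.dsc_ne
  obtain ⟨e', heI, hli', l', hl', le01', le12', hprod'⟩ := hred L A B θ hcub hd δ I hδ hI0 hIn
  -- the vectors multiplied by `r`
  obtain ⟨e, he⟩ : ∃ e : Fin 3 → 𝓞 L, e = fun i => (r : 𝓞 L) * e' i := ⟨_, rfl⟩
  have heL : ∀ i, (e i : L) = (r : L) * (e' i : L) := by
    intro i
    rw [he]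
    change algebraMap (𝓞 L) L ((r : 𝓞 L) * e' i) = _
    rw [map_mul, map_natCast]
  have hrL : (r : L) ≠ 0 := Nat.cast_ne_zero.2 hr0.ne'
  have hli : LinearIndependent K (fun i => (e i : L)) := by
    have h1 : (fun i => (e i : L)) = fun i => (Units.mk0 (r : K) (Nat.cast_ne_zero.2 hr0.ne')) •
        (e' i : L) := by
      funext i
      rw [heL, Units.smul_def, Units.val_mk0, Algebra.smul_def, map_natCast]
    rw [h1]
    exact hli'.units_smul fun _ => Units.mk0 (r : K) (Nat.cast_ne_zero.2 hr0.ne')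
  obtain ⟨l, hldef⟩ : ∃ l : Fin 3 → ℝ, l = fun i => (r : ℝ) * l' i := ⟨_, rfl⟩
  have hl : ∀ i, l i = √(qw (wt (δ : L) (3 * θ ^ 2 + algebraMap K L (A : K))) (e i : L)) := by
    intro i
    rw [heL, sqrt_qw_mul, ← hl', hldef]
  have le01 : l 0 ≤ l 1 := by
    rw [hldef]
    exact mul_le_mul_of_nonneg_left le01' (by positivity)
  have le12 : l 1 ≤ l 2 := by
    rw [hldef]
    exact mul_le_mul_of_nonneg_left le12' (by positivity)
  have hprod : l 0 * l 1 * l 2 ≤ (r : ℝ) ^ 3 * C₂ := by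
    rw [hldef]
    calc (r : ℝ) * l' 0 * ((r : ℝ) * l' 1) * ((r : ℝ) * l' 2)
        = (r : ℝ) ^ 3 * (l' 0 * l' 1 * l' 2) := by ring
      _ ≤ _ := mul_le_mul_of_nonneg_left hprod' (by positivity)
  have hPrs : Prs hcub δ e := by
    intro i j
    obtain ⟨z, hz⟩ := hI (e' i) (heI i) (e' j) (heI j)
    obtain ⟨cc, hcc⟩ := int_mul hcub hF.sqf hF.bdd hrS z
    refine ⟨(r : 𝓞 L) * z, cc, ?_, fun k => ?_⟩
    · rw [he]
      have h1 : algebraMap (𝓞 K) (𝓞 L) (r : 𝓞 K) = (r : 𝓞 L) := map_natCast _ r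
      rw [h1] at hz
      calc (r : 𝓞 L) * e' i * ((r : 𝓞 L) * e' j) = (r : 𝓞 L) * ((r : 𝓞 L) * (e' i * e' j)) := by
            ring
        _ = δ * ((r : 𝓞 L) * z) := by rw [hz]; ring
    · have h1 : (((r : 𝓞 L) * z : 𝓞 L) : L) = (r : K) • (z : L) := by
        change algebraMap (𝓞 L) L ((r : 𝓞 L) * z) = _
        rw [map_mul, map_natCast, Algebra.smul_def, map_natCast]
      rw [h1, map_smul, smul_eq_mul, ← hcc k]
      congr 1
  have hM' : ∀ i j, ∃ m : 𝓞 K, (m : K) = Mx hcub (fun i => (e i : L)) (δ : L)⁻¹ i j := by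
    intro i j
    obtain ⟨y, cc, hy, hcc⟩ := hPrs i j
    refine ⟨cc 2, ?_⟩
    have h2 : (e i : L) * (e j : L) * (δ : L)⁻¹ = (y : L) := by
      have h3 := congrArg (algebraMap (𝓞 L) L) hy
      rw [map_mul, map_mul] at h3
      rw [h3]
      field_simp
    rw [← hcc 2, ← h2]
    rfl
  have hN' : ∀ i j, ∃ m : 𝓞 K, (m : K) = Nx hcub (fun i => (e i : L)) (δ : L)⁻¹ i j := by
    intro i j
    obtain ⟨y, cc, hy, hcc⟩ := hPrs i j
    have h2 : (e i : L) * (e j : L) * (δ : L)⁻¹ = (y : L) := by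
      have h3 := congrArg (algebraMap (𝓞 L) L) hy
      rw [map_mul, map_mul] at h3
      rw [h3]
      field_simp
    refine ⟨cc 1, ?_⟩
    have h4 : hcub.co 2 (θ * ((e i : L) * (e j : L) * (δ : L)⁻¹)) = hcub.co 1 (y : L) := by
      rw [h2]
      exact Ec_theta hcub (y : L)
    rw [← hcc 1, ← h4]
    rfl
  choose M₀ hM₀ using hM'
  choose N₀ hN₀ using hN'
  set M : Matrix (Fin 3) (Fin 3) (𝓞 K) := Matrix.of M₀ with hMdef
  set N : Matrix (Fin 3) (Fin 3) (𝓞 K) := Matrix.of N₀ with hNdef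
  have hM : ∀ i j, (M i j : K) = Mx hcub (fun i => (e i : L)) (δ : L)⁻¹ i j := hM₀
  have hN : ∀ i j, (N i j : K) = Nx hcub (fun i => (e i : L)) (δ : L)⁻¹ i j := hN₀
  have hinj : Function.Injective (algebraMap (𝓞 K) K) := RingOfIntegers.coe_injective
  have hMm : M.map (algebraMap (𝓞 K) K) = Mx hcub (fun i => (e i : L)) (δ : L)⁻¹ := by
    ext i j
    exact hM i j
  have hNm : N.map (algebraMap (𝓞 K) K) = Nx hcub (fun i => (e i : L)) (δ : L)⁻¹ := by
    ext i j
    exact hN i j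
  have hdetM : algebraMap (𝓞 K) K M.det = (Mx hcub (fun i => (e i : L)) (δ : L)⁻¹).det := by
    rw [← hMm, RingHom.map_det]
    rfl
  have hMne := Mx_det hcub hli (inv_ne_zero hδL)
  have hchar : ∀ x : 𝓞 K, (x • M - N).det = M.det * (x ^ 3 + A * x + B) := by
    intro x
    apply hinj
    rw [RingHom.map_det, map_mul, hdetM]
    have h4 : (algebraMap (𝓞 K) K).mapMatrix (x • M - N) =
        algebraMap (𝓞 K) K x • Mx hcub (fun i => (e i : L)) (δ : L)⁻¹ -
          Nx hcub (fun i => (e i : L)) (δ : L)⁻¹ := by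
      rw [← hMm, ← hNm]
      ext i j
      change algebraMap (𝓞 K) K (x * M i j - N i j) =
        algebraMap (𝓞 K) K x * algebraMap (𝓞 K) K (M i j) - algebraMap (𝓞 K) K (N i j)
      rw [map_sub, map_mul]
    rw [h4, Mx_char]
    simp only [map_add, map_mul, map_pow]
  refine ⟨l, M, N, ?_⟩
  refine ⟨?_, le01, le12, hprod, ?_, ?_, ?_, ?_, ?_, hchar, ?_, ?_, ?_⟩
  · -- pos
    rw [hl 0, Real.sqrt_pos]
    unfold qw
    refine Finset.sum_pos (fun τ _ => ?_) Finset.univ_nonempty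
    have h5 : (e 0 : L) ≠ 0 := hli.ne_zero 0
    have h6 : τ (e 0 : L) ≠ 0 := (map_ne_zero τ).2 h5
    have h7 : τ (δ : L) ≠ 0 := (map_ne_zero τ).2 hδL
    have h8 : τ (3 * θ ^ 2 + algebraMap K L (A : K)) ≠ 0 := (map_ne_zero τ).2 (hcub.der_ne hd)
    unfold wt
    have h6' : 0 < ‖τ (e 0 : L)‖ := norm_pos_iff.2 h6
    have h7' : 0 < ‖τ (δ : L)‖ := norm_pos_iff.2 h7
    have h8' : 0 < ‖τ (3 * θ ^ 2 + algebraMap K L (A : K))‖ := norm_pos_iff.2 h8
    positivity
  · -- symM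
    ext i j
    have h9 := congrFun (congrFun (Mx_symm hcub (fun i => (e i : L)) (δ : L)⁻¹) i) j
    rw [Matrix.transpose_apply] at h9 ⊢
    rw [hM j i, hM i j]
    exact h9
  · -- symN
    ext i j
    have h9 := congrFun (congrFun (Nx_symm hcub (fun i => (e i : L)) (δ : L)⁻¹) i) j
    rw [Matrix.transpose_apply] at h9 ⊢
    rw [hN j i, hN i j]
    exact h9
  · -- detM
    intro h0
    apply hMne
    rw [← hdetM, h0, map_zero]
  · -- bdM
    intro s i j
    rw [hM i j, hl i, hl j]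
    exact mx_bound hcub hd hδL s (e i : L) (e j : L)
  · -- bdN
    intro s i j
    rw [hN i j, hl i, hl j]
    exact nx_bound hcub hd hX hAB.1 hAB.2 hδL s (e i : L) (e j : L)
  · -- red
    intro h00 hN0
    have h10 : hcub.co 2 ((e 0 : L) * (e 0 : L) * (δ : L)⁻¹) = 0 := by
      have := hM 0 0
      rw [h00] at this
      exact this.symm.trans (map_zero (algebraMap (𝓞 K) K))
    refine hcub.red hδL (hli.ne_zero 0) hNs hns h10 ?_
    have := hN 0 0
    rw [hN0] at this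
    exact this.symm.trans (map_zero (algebraMap (𝓞 K) K))
  · -- fix
    rintro Q hQM hQN ⟨v, hv, hQv⟩
    have hinf : Infinite K := Infinite.of_injective ((↑) : ℕ → K) Nat.cast_injective
    set Q' := (algebraMap (𝓞 K) K).mapMatrix Q with hQ'
    have hMm' : (algebraMap (𝓞 K) K).mapMatrix M = Mx hcub (fun i => (e i : L)) (δ : L)⁻¹ := hMm
    have hNm' : (algebraMap (𝓞 K) K).mapMatrix N = Nx hcub (fun i => (e i : L)) (δ : L)⁻¹ := hNm
    have hQT : Q'ᵀ = (algebraMap (𝓞 K) K).mapMatrix Qᵀ := rfl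
    have hfix := fix_one (F := K) (M := Mx hcub (fun i => (e i : L)) (δ : L)⁻¹)
      (N := Nx hcub (fun i => (e i : L)) (δ : L)⁻¹) (Q := Q') (a := (A : K)) (b := (B : K))
      (e := fun i => (v i : K)) hMne (fun x => Mx_char _ _ _ x) (hF.no_root)
      (by rw [← hMm', hQT, hQ', ← map_mul, ← map_mul, hQM])
      (by rw [← hNm', hQT, hQ', ← map_mul, ← map_mul, hQN])
      (by
        intro h0
        apply hv
        refine funext (fun i => ?_)
        have := congrFun h0 i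
        have h15 : algebraMap (𝓞 K) K (v i) = algebraMap (𝓞 K) K 0 := by
          rw [map_zero]; exact this
        exact hinj h15)
      (by
        ext i
        have h11 := congrFun hQv i
        have h12 := congrArg (algebraMap (𝓞 K) K) h11
        change (Q'.mulVec fun i => (v i : K)) i = algebraMap (𝓞 K) K (v i)
        rw [← h12]
        simp [hQ', Matrix.mulVec, dotProduct, Matrix.map_apply])
    have h13 : (algebraMap (𝓞 K) K).mapMatrix Q = (algebraMap (𝓞 K) K).mapMatrix 1 := by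
      rw [map_one]; exact hfix
    exact Matrix.map_injective hinj h13
  · -- res
    intro v hv hdet
    exact res_condS hcub hδ hPrs hli hM hN hchar (hF.sqf v (hT v hv).2) (hT v hv).1 (hF.typ v hv)
      (fun w hw => by rw [hδc]; exact hcl w (by rw [hw]; exact hv)) hdet

end H36MT
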