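import Pool.Agent.H36.MT.Df
import Pool.Agent.H73.P2.Df

/-!
ROW Ni (project MP_78d38b_MT, about 90 lines): the interface with `Pool/Agent/H73/P2` (read `Pool/Agent/H73/P2/Df.lean`).

PROOF of nice_tw. `k = ord_v D` is even, `k = 2 j` (`hD.even`). `v.valuation K D = exp (-k)`. Let `π = H38T1.unif v` (`H38T1.unif_spec v : v.valuation K π = exp (-1)`),
`c = π ^ j` (zpow), `u = D / c ^ 2`, so `v u = 1`. `D ^ 2 * A = c ^ 4 * (u ^ 2 * A)`, `D ^ 3 * B = c ^ 6 * (u ^ 3 * B)`, `v (u^2 A) ≤ 1` (`v.valuation_le_one`),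
`4 (u^2 A)^3 + 27 (u^3 B)^2 = u^6 (4 A^3 + 27 B^2) = u ^ 6 * (dsc A B : K)`, and `exp (-1) ≤ v (dsc A B)` because `dsc A B ∉ v^2` (`hF.sqf`, `intValuation_le_pow_iff_mem`: `dsc ∈ v^2 ↔
intValuation dsc ≤ exp (-2)`; `dsc ≠ 0` by `FamS.dsc_ne`, values are `exp` of integers).

PROOF of toRelT: unfold. `dn K (dn K w) = dn K w` (`HeightOneSpectrum.ext`; `(dn K w).asIdeal.comap (algebraMap (𝓞 K) (𝓞 K))`, `Algebra.algebraMap_self`/`algebraMap (𝓞 K) (𝓞 K) = RingHom.id _`). `LCv K v a b d` with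
`j = algebraMap K (v.adicCompletion K)` (`k = K`, `algebraMap K K = id`) gives the local condition at `v ∈ P`; real places: `algebraMap K K a = a`.
-/

set_option autoImplicit false
set_option linter.unusedSectionVars false
open scoped Classical

open WithZero NumberField IsDedekindDomain H38RT
open H38T1 (SC sc scu rep eo la si Pri OddP tp unif)
open H76PP

namespace H36MT

variable {K : Type} [Field K] [NumberField K]

theorem Ni_dsc_le {A B : 𝓞 K} {v : HeightOneSpectrum (𝓞 K)} (h : dsc A B ∉ v.asIdeal ^ 2) :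
    exp (-1 : ℤ) ≤ v.valuation K ((dsc A B : 𝓞 K) : K) := by
  have h0 : dsc A B ≠ 0 := by
    intro h0
    rw [h0] at h
    exact h (Submodule.zero_mem _)
  by_contra hlt
  rw [not_le] at hlt
  apply h
  have h1 : v.valuation K ((dsc A B : 𝓞 K) : K) = v.intValuation (dsc A B) :=
    v.valuation_of_algebraMap (dsc A B)
  rw [h1] at hlt
  rw [← v.intValuation_le_pow_iff_mem]
  have h2 : v.intValuation (dsc A B) ≠ 0 := v.intValuation_ne_zero _ h0
  rw [← exp_log h2] at hlt ⊢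
  rw [exp_lt_exp] at hlt
  rw [exp_le_exp]
  push_cast
  omega

theorem nice_tw {S : Finset (HeightOneSpectrum (𝓞 K))} {e : ℕ} {q₀ : HeightOneSpectrum (𝓞 K)}
    {T J : Finset (HeightOneSpectrum (𝓞 K))} {A B : 𝓞 K} (hF : FamS S e q₀ T A B) {D : K}
    (hD : TwS S q₀ J D) {v : HeightOneSpectrum (𝓞 K)} (hS : v ∉ S) (hJ : v ∉ J) (hq : v ≠ q₀) :
    H73P2.NiceAt v (D ^ 2 * A) (D ^ 3 * B) := by
  have hDne := hD.ne
  obtain ⟨j, hj⟩ := hD.even v hS hJ hq
  have hvD : v.valuation K D = exp (-(j + j)) := by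
    rw [Ta_V_eq (V := v.valuation K) hDne, hj]
  have hπ := H38T1.unif_spec (K := K) v
  have hπ0 : unif (K := K) v ≠ 0 := by
    intro h
    rw [h, map_zero] at hπ
    exact exp_ne_zero hπ.symm
  have hc0 : (unif (K := K) v) ^ j ≠ 0 := zpow_ne_zero _ hπ0
  have hvc : v.valuation K ((unif (K := K) v) ^ j) = exp (-j) := by
    rw [map_zpow₀, hπ, ← exp_zsmul]
    congr 1
    simp
  obtain ⟨c, hc⟩ : ∃ c : K, c = (unif (K := K) v) ^ j := ⟨_, rfl⟩
  rw [← hc] at hc0 hvc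
  obtain ⟨u, hu⟩ : ∃ u : K, u = D / c ^ 2 := ⟨_, rfl⟩
  have hDu : D = c ^ 2 * u := by
    rw [hu]
    field_simp
  have hvu : v.valuation K u = 1 := by
    rw [hu, map_div₀, map_pow, hvD, hvc, ← exp_nsmul, ← exp_sub, ← exp_zero]
    congr 1
    simp
    ring
  have hA : v.valuation K (A : K) ≤ 1 := v.valuation_le_one A
  have hB : v.valuation K (B : K) ≤ 1 := v.valuation_le_one B
  refine ⟨c, u ^ 2 * A, u ^ 3 * B, hc0, ?_, ?_, ?_, ?_, ?_⟩
  · rw [hDu]; ring
  · rw [hDu]; ring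
  · rw [map_mul, map_pow, hvu, one_pow, one_mul]; exact hA
  · rw [map_mul, map_pow, hvu, one_pow, one_mul]; exact hB
  · have h1 : 4 * (u ^ 2 * (A : K)) ^ 3 + 27 * (u ^ 3 * (B : K)) ^ 2 =
        u ^ 6 * ((dsc A B : 𝓞 K) : K) := by
      unfold dsc
      simp only [map_add, map_mul, map_pow, map_ofNat]
      ring
    rw [h1, map_mul, map_pow, hvu, one_pow, one_mul]
    exact Ni_dsc_le (hF.sqf v hS)

theorem Ni_dn (w : HeightOneSpectrum (𝓞 K)) : dn K w = w := by
  apply HeightOneSpectrum.ext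
  change w.asIdeal.comap (algebraMap (𝓞 K) (𝓞 K)) = w.asIdeal
  ext x
  rw [Ideal.mem_comap]
  rfl

theorem RelTriv.toRelT {L : Type} [Field L] [NumberField L] [Algebra K L]
    {P : Finset (HeightOneSpectrum (𝓞 K))} {a b : K} {θ : L} (hR : RelTriv K L P a b θ) :
    H73P2.RelT K K L P a b θ := by
  intro d hd
  refine hR d hd.ne hd.sq ?_ ?_ ?_
  · intro w hw
    apply hd.even w
    rw [Ni_dn]
    exact hw
  · intro v hv
    exact hd.loc v hv (algebraMap K (v.adicCompletion K)) (fun x => rfl)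
  · intro s
    exact hd.real s

end H36MT
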