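import Pool.Agent.H36.MT.Df
import Pool.Agent.H36.PP.Df

/-!
Definitions, part 2, for the project MP_78d38b_MT (no row).
-/

set_option autoImplicit false
set_option linter.unusedSectionVars false
open scoped Classical

open WithZero NumberField IsDedekindDomain H38RT
open H76PP

namespace H36MT

variable {K : Type} [Field K] [NumberField K]

/-- `D` generates `p / q₀`, is congruent to one modulo `m` and positive at the real places. -/
structure AuxR (m : Ideal (𝓞 K)) (q₀ p : HeightOneSpectrum (𝓞 K)) (D : K) : Prop where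
  ne : D ≠ 0
  at_p : p.valuation K D = exp (-1)
  at_q : q₀.valuation K D = exp 1
  oth : ∀ v : HeightOneSpectrum (𝓞 K), v ≠ p → v ≠ q₀ → v.valuation K D = 1
  cong : ∀ (v : HeightOneSpectrum (𝓞 K)) (k : ℕ), 0 < k → m ≤ v.asIdeal ^ k →
    v.valuation K (D - 1) ≤ exp (-(k : ℤ))
  pos : ∀ s : K →+* ℝ, 0 < s D

/-- The pairs `(a, b)` of residues such that `x^3 + a x + b` has a root. -/
def RtS (k : Type*) [Field k] : Set (k × k) := {p | ∃ t : k, t ^ 3 + p.1 * t + p.2 = 0}

end H36MT
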