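import Pool.Agent.H36.MT.Tj
import Pool.Agent.H36.MT.Fe
import Pool.Agent.H36.MT.Eq
import Pool.Agent.H36.MT.Ni
import Pool.Agent.H73.P2.Gd
import Pool.Agent.H76.PP.Ze

/-!
Assembly, part 1 (project MP_78d38b_MT, no row): the curves attached to the members of the family.
-/

set_option autoImplicit false
set_option linter.unusedSectionVars false
open scoped Classical

open WithZero NumberField IsDedekindDomain H38RT
open H38T1 (SC sc scu rep eo la si Pri OddP tp unif)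
open H76PP

namespace H36MT

theorem ordSub : H73P2.OrdSub := by
  intro k L _ _ _ _ _ a b θ h v ha hb hd x hx hfx
  exact ord_sub_loc h ha hb hd hx hfx

theorem dsc_coe {K : Type} [Field K] [NumberField K] (A B : 𝓞 K) :
    (algebraMap (𝓞 K) K) (4 * A ^ 3 + 27 * B ^ 2) = 4 * (A : K) ^ 3 + 27 * (B : K) ^ 2 := by
  simp only [map_add, map_mul, map_pow, map_ofNat]

theorem not_ram {K : Type} [Field K] [NumberField K] (V : HeightOneSpectrum (𝓞 K)) :
    ¬ H73P2.Ram K V := by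
  intro h
  unfold H73P2.Ram at h
  have h1 : V.asIdeal ≤ V.asIdeal ^ 2 := by
    intro x hx
    have h2 : x ∈ (dn K V).asIdeal := hx
    exact h (Ideal.mem_map_of_mem _ h2)
  have h3 : V.asIdeal ^ 2 < V.asIdeal ^ 1 :=
    Ideal.pow_right_strictAnti V.asIdeal V.ne_bot V.isPrime.ne_top (by norm_num)
  rw [pow_one] at h3
  exact absurd h1 (not_le_of_gt h3)

/-- The hypotheses of the relative theorem. -/
structure RelG (K : Type) [Field K] [NumberField K] (Sg : Finset (HeightOneSpectrum (𝓞 K)))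
    (A B : 𝓞 K) : Prop where
  two : ∀ v : HeightOneSpectrum (𝓞 K), v.valuation K 2 < 1 → v ∈ Sg
  ne : 4 * A ^ 3 + 27 * B ^ 2 ≠ 0
  irr : ∀ t : K, t ^ 3 + (A : K) * t + (B : K) ≠ 0
  nice : ∀ v : HeightOneSpectrum (𝓞 K), v ∉ Sg → H73P2.NiceAt v (A : K) (B : K)
  rel : ∀ (L : Type) [Field L] [NumberField L] [Algebra K L] (θ : L),
    Cub K L (A : K) (B : K) θ → H73P2.RelT K K L Sg (A : K) (B : K) θ

/-- The curve `y^2 = x^3 + A x + B` is elliptic, has finitely many points over `K` and its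
Tate-Shafarevich group over `K` has no nontrivial element of two-power order; the same holds over all
fields between `K` and an admissible extension of `K`, and there is an infinite multiquadratic
extension of `K` with this property. -/
structure GoodT (K : Type) [Field K] [NumberField K] (Sg : Finset (HeightOneSpectrum (𝓞 K)))
    (p : 𝓞 K × 𝓞 K) : Prop where
  ne : 4 * p.1 ^ 3 + 27 * p.2 ^ 2 ≠ 0
  fin : Finite (⟨0, 0, 0, (p.1 : K), (p.2 : K)⟩ : WeierstrassCurve K).toAffine.Point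
  sha : Pool.Agent.H10.Sha2Trivial K (⟨0, 0, 0, (p.1 : K), (p.2 : K)⟩ : WeierstrassCurve K)
  adm : ∀ (N : Type) [Field N] [NumberField N] [Algebra K N], H73P2.Admi Sg p.1 p.2 N →
    ∀ (M : IntermediateField K N) [NumberField M], H73P2.Triv2 K p.1 p.2 M
  tow : ∃ F : IntermediateField K (AlgebraicClosure K), ¬ FiniteDimensional K F ∧
    (∃ I : Set K, F = IntermediateField.adjoin K
      {x | ∃ D ∈ I, x ^ 2 = algebraMap K (AlgebraicClosure K) D}) ∧
    Finite (⟨0, 0, 0, algebraMap K F p.1, algebraMap K F p.2⟩ :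
      WeierstrassCurve F).toAffine.Point ∧
    ∀ (M : IntermediateField K (AlgebraicClosure K)) [NumberField M], M ≤ F →
      H73P2.Triv2 K p.1 p.2 M

theorem RelG.good {K : Type} [Field K] [NumberField K] {Sg : Finset (HeightOneSpectrum (𝓞 K))}
    {A B : 𝓞 K} (h : RelG K Sg A B) : GoodT K Sg (A, B) := by
  obtain ⟨h2, hd, hirr, hnice, hT⟩ := h
  have hd' : 4 * (A : K) ^ 3 + 27 * (B : K) ^ 2 ≠ 0 := by
    intro h
    apply hd
    apply RingOfIntegers.coe_injective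
    simpa only [map_add, map_mul, map_pow, map_ofNat, map_zero] using h
  have hbase : Finite (⟨0, 0, 0, (A : K), (B : K)⟩ : WeierstrassCurve K).toAffine.Point ∧
      Pool.Agent.H10.Sha2Trivial K (⟨0, 0, 0, (A : K), (B : K)⟩ : WeierstrassCurve K) := by
    obtain ⟨L, _, _, _, θ, hL⟩ := H24PD.exists_cub hirr
    exact H24PD.descent hL (H73P2.sel_mid (K := K) (N := K) ordSub (r := 0)
      (by rw [pow_zero, Module.finrank_self]) (S := Sg) h2 hd' hnice
      (fun v _ => ⟨algebraMap K _, fun _ => rfl⟩) (fun s => Or.inr ⟨s, fun _ => rfl⟩)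
      (fun V _ hV => absurd hV (not_ram V)) hT K L θ hL)
  refine ⟨hd, hbase.1, hbase.2, ?_, ?_⟩
  · intro N _ _ _ hN M _
    exact H73P2.all_of_rel ordSub h2 hd hirr hnice hT N hN M
  · exact H73P2.tower_of_rel ordSub h2 hd hirr hnice hT

theorem good_S {K : Type} [Field K] [NumberField K] {S : Finset (HeightOneSpectrum (𝓞 K))}
    (hS6 : ∀ v : HeightOneSpectrum (𝓞 K), (6 : 𝓞 K) ∈ v.asIdeal → v ∈ S) {e₀ : ℕ}
    {q₀ : HeightOneSpectrum (𝓞 K)}
    {T : Finset (HeightOneSpectrum (𝓞 K))} (hT : ∀ v ∈ T, v ≠ q₀ ∧ v ∉ S)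
    {A B : 𝓞 K} (hF : FamS S e₀ q₀ T A B) (hB : ¬ BadS S T A B) :
    ∃ J ⊆ T, ∀ D : 𝓞 K, TwS S q₀ J (D : K) → ∀ Sg : Finset (HeightOneSpectrum (𝓞 K)),
      S ⊆ Sg → T ⊆ Sg → q₀ ∈ Sg → RelG K Sg (D ^ 2 * A) (D ^ 3 * B) := by
  obtain ⟨L, _, _, _, θ, hL⟩ := H24PD.exists_cub (fun t => hF.no_root t)
  obtain ⟨J, hJ, hrel⟩ := rel_S hS6 hT hF hB hL (hr2 hL hF.dsc_ne)
  refine ⟨J, hJ, fun D hD Sg hSSg hTSg hq => ?_⟩
  have hD0 : (D : K) ≠ 0 := hD.ne
  have e1 : ((D ^ 2 * A : 𝓞 K) : K) = (D : K) ^ 2 * (A : K) := by push_cast; rfl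
  have e2 : ((D ^ 3 * B : 𝓞 K) : K) = (D : K) ^ 3 * (B : K) := by push_cast; rfl
  refine ⟨?_, ?_, ?_, ?_, ?_⟩
  · intro v hv
    refine hSSg (hS6 v ?_)
    have h3 : (2 : 𝓞 K) ∈ v.asIdeal := by
      by_contra h
      have h4 := (v.valuation_eq_one_iff_notMem (K := K) (r := (2 : 𝓞 K))).2 h
      have h5 : v.valuation K (2 : K) = 1 := by
        rw [← h4]
        congr 1
      exact absurd h5 hv.ne
    have : (6 : 𝓞 K) = 3 * 2 := by norm_num
    rw [this]
    exact v.asIdeal.mul_mem_left _ h3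
  · intro h4
    have h5 : (4 * ((D : K) ^ 2 * (A : K)) ^ 3 + 27 * ((D : K) ^ 3 * (B : K)) ^ 2) = 0 := by
      rw [← e1, ← e2, ← dsc_coe, h4, map_zero]
    have h6 : (D : K) ^ 6 * (4 * (A : K) ^ 3 + 27 * (B : K) ^ 2) = 0 := by
      linear_combination h5
    exact (mul_ne_zero (pow_ne_zero 6 hD0) hF.dsc_ne) h6
  · rw [e1, e2]
    intro t ht
    apply hF.no_root (t / (D : K))
    have h7 : (D : K) ^ 3 * ((t / (D : K)) ^ 3 + (A : K) * (t / (D : K)) + (B : K)) = 0 := by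
      field_simp
      linear_combination ht
    exact (mul_eq_zero.1 h7).resolve_left (pow_ne_zero 3 hD0)
  · rw [e1, e2]
    intro v hv
    exact nice_tw hF hD (fun h => hv (hSSg h)) (fun h => hv (hTSg (hJ h)))
      (fun h => hv (h ▸ hq))
  · rw [e1, e2]
    intro L' _ _ _ θ' hL'
    exact (RelTriv.equiv (hL.twist hD0) hL'
      (hrel (D : K) hD Sg hSSg (hJ.trans hTSg))).toRelT

end H36MT
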