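import Pool.Agent.H36.MT.Fa
import Pool.Agent.H76.PP.Tc
import Pool.Agent.H76.PP.Za

/-!
ROW Tc (project MP_78d38b_MT, about 170 lines): the orders of `x - θ` at the places above one `v` at which `4 A^3 + 27 B^2` has order
at most one. MODIFICATION of `Tc_s`, `Tc_inertia`, `Tc_uniq`, `Tc_int`, `ord_sub` in `Pool/Agent/H76/PP/Tc.lean` (read them first; the lemmas
`Tc_ord_one`, `Tc_small`, `ord_sub_big` there are used as they are).

PROOF of ord_subL: `hl : LB h v := lb_of h hd`. The only change is `Tc_s`: for `y : 𝓞 L` there is `s : 𝓞 K` such that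
`y - algebraMap s ∈ w.asIdeal` for EVERY `w` with `dn K w = v` and `algebraMap a - t ∈ w.asIdeal`. Proof: `LB.den hl y` gives `m ∉ v`, `c`;
`m y - (c 0 + c 1 a + c 2 a^2)` is a multiple of `a - t` (as in `Tc_s`, with `algebraMap m * y` in place of `y`). `v` is maximal, so there
is `m'` with `m m' - 1 ∈ v`. `s = m' (c 0 + c 1 a + c 2 a^2)`:
`y - s = -(m m' - 1) y + m' (m y - (c 0 + c 1 a + c 2 a^2)) ∈ w`. Then `Tc_inertia` (for `dn K w = v`), `Tc_uniq`, `Tc_int` and `ord_sub` go through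
verbatim for this `v`.

PROOF of ord_sub_loc (a, b : K integral at `v`): there is `s : 𝓞 K`, `s ∉ v`, with `s a`, `s b ∈ 𝓞 K`
(`exists_primeCompl_mul_eq_of_integer`, product of two denominators). Put `A : 𝓞 K` with `(A : K) = s^2 a`, `B : 𝓞 K` with `(B : K) = s^3 b`,
`θ' = s θ`: `Cub K L A B θ'` (`Cub.twist` of `Pool/Agent/H76/PP/Za.lean` or `Tg_twist`/`Tf_twist`, with `D = s`). `4A^3 + 27B^2 = s^6 (4a^3+27b^2)` has
`v`-valuation `≥ exp (-1)`, so `dsc A B ∉ v^2` (`intValuation_le_pow_iff_mem`). Apply ord_subL to `s x`: `s x - θ' = s (x - θ)`,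
`(s x)^3 + A (s x) + B = s^3 (x^3 + a x + b)`, and `s` has valuation 1 at `v` and at all `w` above `v` (`val_one`, Ta).
-/

set_option autoImplicit false
set_option linter.unusedSectionVars false
open scoped Classical

open WithZero NumberField IsDedekindDomain H38RT
open H76PP

namespace H36MT

variable {K L : Type} [Field K] [NumberField K] [Field L] [NumberField L] [Algebra K L]

theorem Tc_sL {A B : 𝓞 K} {θ : L} (h : Cub K L (A : K) (B : K) θ)
    {v : HeightOneSpectrum (𝓞 K)} (hd : dsc A B ∉ v.asIdeal ^ 2) {t : 𝓞 L} (ht : (t : L) = θ)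
    (a : 𝓞 K) (y : 𝓞 L) : ∃ s : 𝓞 K, ∀ w : HeightOneSpectrum (𝓞 L), dn K w = v →
      algebraMap (𝓞 K) (𝓞 L) a - t ∈ w.asIdeal → y - algebraMap (𝓞 K) (𝓞 L) s ∈ w.asIdeal := by
  have hl : LB h v := lb_of h hd
  obtain ⟨m, hm, c, hc⟩ := hl.den y
  obtain ⟨m', i, hi, hmi⟩ := v.isMaximal.exists_inv hm
  refine ⟨m' * (c 0 + c 1 * a + c 2 * a ^ 2), fun w hw hmem => ?_⟩
  have h1 : algebraMap (𝓞 K) (𝓞 L) m * y - algebraMap (𝓞 K) (𝓞 L) (c 0 + c 1 * a + c 2 * a ^ 2) ∈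
      w.asIdeal := by
    have e : algebraMap (𝓞 K) (𝓞 L) m * y -
        algebraMap (𝓞 K) (𝓞 L) (c 0 + c 1 * a + c 2 * a ^ 2) =
        (algebraMap (𝓞 K) (𝓞 L) a - t) * -(algebraMap (𝓞 K) (𝓞 L) (c 1) +
          algebraMap (𝓞 K) (𝓞 L) (c 2) * (t + algebraMap (𝓞 K) (𝓞 L) a)) := by
      apply RingOfIntegers.ext
      have e := h.eq_co (y : L)
      have e0 : algebraMap K L (m : K) * (y : L) = algebraMap K L (c 0 : K) +
          algebraMap K L (c 1 : K) * θ + algebraMap K L (c 2 : K) * θ ^ 2 := by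
        rw [← hc, ← hc, ← hc, map_mul, map_mul, map_mul]
        linear_combination (algebraMap K L (m : K)) * e
      change algebraMap K L (m : K) * (y : L) -
          algebraMap K L ((c 0 : K) + (c 1 : K) * (a : K) + (c 2 : K) * (a : K) ^ 2) =
        (algebraMap K L (a : K) - (t : L)) * -(algebraMap K L (c 1 : K) +
          algebraMap K L (c 2 : K) * ((t : L) + algebraMap K L (a : K)))
      rw [e0, ht]
      simp only [map_add, map_mul, map_pow]
      ring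
    rw [e]
    exact Ideal.mul_mem_right _ _ hmem
  have h2 : algebraMap (𝓞 K) (𝓞 L) i ∈ w.asIdeal := by
    rw [← hw] at hi
    exact hi
  have e2 : y - algebraMap (𝓞 K) (𝓞 L) (m' * (c 0 + c 1 * a + c 2 * a ^ 2)) =
      y * algebraMap (𝓞 K) (𝓞 L) i + algebraMap (𝓞 K) (𝓞 L) m' *
        (algebraMap (𝓞 K) (𝓞 L) m * y -
          algebraMap (𝓞 K) (𝓞 L) (c 0 + c 1 * a + c 2 * a ^ 2)) := by
    have e3 : algebraMap (𝓞 K) (𝓞 L) i = 1 - algebraMap (𝓞 K) (𝓞 L) m' *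
        algebraMap (𝓞 K) (𝓞 L) m := by
      rw [← map_mul, ← map_one (algebraMap (𝓞 K) (𝓞 L)), ← map_sub, ← hmi]
      congr 1
      ring
    rw [e3, map_mul (algebraMap (𝓞 K) (𝓞 L)) m']
    ring
  rw [e2]
  exact Ideal.add_mem _ (Ideal.mul_mem_left _ _ h2) (Ideal.mul_mem_left _ _ h1)

theorem Tc_inertiaL {A B : 𝓞 K} {θ : L} (h : Cub K L (A : K) (B : K) θ)
    {v : HeightOneSpectrum (𝓞 K)} (hd : dsc A B ∉ v.asIdeal ^ 2) {t : 𝓞 L} (ht : (t : L) = θ)
    (a : 𝓞 K) {w : HeightOneSpectrum (𝓞 L)} (hv : dn K w = v)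
    (hw : algebraMap (𝓞 K) (𝓞 L) a - t ∈ w.asIdeal) :
    w.asIdeal.inertiaDeg (𝓞 K) = 1 := by
  have hm1 := w.isMaximal
  have hm2 := (dn K w).isMaximal
  have hl : w.asIdeal.LiesOver (dn K w).asIdeal := ⟨rfl⟩
  rw [Ideal.inertiaDeg_eq_of_isMaximal (dn K w).asIdeal w.asIdeal]
  refine finrank_eq_one (1 : 𝓞 L ⧸ w.asIdeal) one_ne_zero fun z => ?_
  obtain ⟨y, rfl⟩ := Ideal.Quotient.mk_surjective z
  obtain ⟨s, hs⟩ := Tc_sL h hd ht a y
  refine ⟨Ideal.Quotient.mk _ s, ?_⟩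
  have h1 : y - algebraMap (𝓞 K) (𝓞 L) s ∈ w.asIdeal := hs w hv hw
  have h2 : Ideal.Quotient.mk w.asIdeal y = Ideal.Quotient.mk w.asIdeal (algebraMap (𝓞 K) (𝓞 L) s) :=
    Ideal.Quotient.eq.2 h1
  rw [h2, Algebra.smul_def, mul_one]
  rfl

theorem Tc_uniqL {A B : 𝓞 K} {θ : L} (h : Cub K L (A : K) (B : K) θ)
    {v : HeightOneSpectrum (𝓞 K)} (hd : dsc A B ∉ v.asIdeal ^ 2) {t : 𝓞 L} (ht : (t : L) = θ)
    (a : 𝓞 K) {w w' : HeightOneSpectrum (𝓞 L)} (hv : dn K w = v) (hv' : dn K w' = v)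
    (hw : algebraMap (𝓞 K) (𝓞 L) a - t ∈ w.asIdeal)
    (hw' : algebraMap (𝓞 K) (𝓞 L) a - t ∈ w'.asIdeal) : w = w' := by
  by_contra hne
  have hle : ¬ (w.asIdeal ≤ w'.asIdeal) := fun hle =>
    hne (HeightOneSpectrum.ext (w.isMaximal.eq_of_le w'.isPrime.ne_top hle))
  obtain ⟨y, hy, hy'⟩ := SetLike.not_le_iff_exists.1 hle
  obtain ⟨s, hs⟩ := Tc_sL h hd ht a y
  have hs1 : y - algebraMap (𝓞 K) (𝓞 L) s ∈ w.asIdeal := hs w hv hw
  have hs2 : y - algebraMap (𝓞 K) (𝓞 L) s ∈ w'.asIdeal := hs w' hv' hw'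
  have hsw : algebraMap (𝓞 K) (𝓞 L) s ∈ w.asIdeal := by
    have h3 := Ideal.sub_mem _ hy hs1
    rwa [sub_sub_cancel] at h3
  have hsv : s ∈ (dn K w).asIdeal := hsw
  rw [hv, ← hv'] at hsv
  have hsw' : algebraMap (𝓞 K) (𝓞 L) s ∈ w'.asIdeal := hsv
  apply hy'
  have h3 := Ideal.add_mem _ hs2 hsw'
  rwa [sub_add_cancel] at h3

theorem Tc_intL {A B : 𝓞 K} {θ : L} (h : Cub K L (A : K) (B : K) θ)
    {v : HeightOneSpectrum (𝓞 K)} (hd : dsc A B ∉ v.asIdeal ^ 2)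
    (a : 𝓞 K) (hfx : (a : K) ^ 3 + (A : K) * (a : K) + (B : K) ≠ 0) :
    ∃ w₁ : HeightOneSpectrum (𝓞 L), dn K w₁ = v ∧
      ord (w₁.valuation L) (algebraMap K L (a : K) - θ) =
        ord (v.valuation K) ((a : K) ^ 3 + (A : K) * (a : K) + (B : K)) ∧
      ∀ w : HeightOneSpectrum (𝓞 L), dn K w = v → w ≠ w₁ →
        w.valuation L (algebraMap K L (a : K) - θ) = 1 := by
  obtain ⟨t, ht⟩ := theta_int h
  have hn := h.norm_sub (a : K)
  have hu : algebraMap K L (a : K) - θ ≠ 0 := by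
    intro h0
    rw [h0, Algebra.norm_zero] at hn
    exact hfx hn.symm
  have hval : ∀ w : HeightOneSpectrum (𝓞 L), algebraMap (𝓞 K) (𝓞 L) a - t ∉ w.asIdeal →
      w.valuation L (algebraMap K L (a : K) - θ) = 1 := by
    intro w hw
    have h1 := (HeightOneSpectrum.valuation_eq_one_iff_notMem (K := L) (v := w)).2 hw
    rw [← ht]
    exact h1
  have hsum := ord_norm (K := K) v hu
  rw [hn] at hsum
  by_cases hex : ∃ w : HeightOneSpectrum (𝓞 L), dn K w = v ∧ algebraMap (𝓞 K) (𝓞 L) a - t ∈ w.asIdeal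
  · obtain ⟨w₁, hw1, hw2⟩ := hex
    have hother : ∀ w : HeightOneSpectrum (𝓞 L), dn K w = v → w ≠ w₁ →
        w.valuation L (algebraMap K L (a : K) - θ) = 1 := by
      intro w hw hne
      refine hval w fun hmem => hne ?_
      exact Tc_uniqL h hd ht a hw hw1 hmem hw2
    refine ⟨w₁, hw1, ?_, hother⟩
    rw [hsum, finsum_eq_single _ (⟨w₁, hw1⟩ : {w : HeightOneSpectrum (𝓞 L) // dn K w = v})]
    · change _ = (w₁.asIdeal.inertiaDeg (𝓞 K) : ℤ) * ord (w₁.valuation L) (algebraMap K L (a : K) - θ)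
      rw [Tc_inertiaL h hd ht a hw1 hw2, Nat.cast_one, one_mul]
    · rintro ⟨w, hw⟩ hne
      have hne' : w ≠ w₁ := fun h0 => hne (Subtype.ext h0)
      change (w.asIdeal.inertiaDeg (𝓞 K) : ℤ) * ord (w.valuation L) (algebraMap K L (a : K) - θ) = 0
      rw [Tc_ord_one (hother w hw hne'), mul_zero]
  · have hall : ∀ w : HeightOneSpectrum (𝓞 L), dn K w = v → w.valuation L (algebraMap K L (a : K) - θ) = 1 :=
      fun w hw => hval w fun hmem => hex ⟨w, hw, hmem⟩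
    obtain ⟨w₁, hw1⟩ := exists_above (L := L) v
    refine ⟨w₁, hw1, ?_, fun w hw _ => hall w hw⟩
    rw [Tc_ord_one (hall w₁ hw1), hsum, finsum_eq_zero_of_forall_eq_zero]
    rintro ⟨w, hw⟩
    change (w.asIdeal.inertiaDeg (𝓞 K) : ℤ) * ord (w.valuation L) (algebraMap K L (a : K) - θ) = 0
    rw [Tc_ord_one (hall w hw), mul_zero]

theorem ord_subL {A B : 𝓞 K} {θ : L} (h : Cub K L (A : K) (B : K) θ)
    {v : HeightOneSpectrum (𝓞 K)} (hd : dsc A B ∉ v.asIdeal ^ 2)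
    {x : K} (hx : v.valuation K x ≤ 1) (hfx : x ^ 3 + (A : K) * x + (B : K) ≠ 0) :
    ∃ w₁ : HeightOneSpectrum (𝓞 L), dn K w₁ = v ∧
      ord (w₁.valuation L) (algebraMap K L x - θ) =
        ord (v.valuation K) (x ^ 3 + (A : K) * x + (B : K)) ∧
      ∀ w : HeightOneSpectrum (𝓞 L), dn K w = v → w ≠ w₁ →
        w.valuation L (algebraMap K L x - θ) = 1 := by
  have hn := h.norm_sub x
  have hu : algebraMap K L x - θ ≠ 0 := by
    intro h0
    rw [h0, Algebra.norm_zero] at hn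
    exact hfx hn.symm
  obtain ⟨N1, hN1, hN1'⟩ := Tc_small (fin_above (K := K) (L := L) v).toFinset
    (fun w => w.valuation L (algebraMap K L x - θ)) (fun w _ => (Valuation.ne_zero_iff _).2 hu)
  obtain ⟨N2, hN2, hN2'⟩ := Tc_small ({0} : Finset ℕ)
    (fun _ => v.valuation K (x ^ 3 + (A : K) * x + (B : K))) (fun w _ => (Valuation.ne_zero_iff _).2 hfx)
  have hN2'' := hN2' 0 (Finset.mem_singleton_self _)
  obtain ⟨N, hN⟩ : ∃ N, N = N1 + N2 := ⟨_, rfl⟩
  have hN0 : 0 ≤ N := by omega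
  have hNN1 : exp (-N) ≤ (exp (-N1) : ℤᵐ⁰) := by rw [exp_le_exp]; omega
  have hNN2 : exp (-N) ≤ (exp (-N2) : ℤᵐ⁰) := by rw [exp_le_exp]; omega
  obtain ⟨a, ha⟩ := v.exists_valuation_sub_lt_of_integer hx (Units.mk0 (exp (-N)) exp_ne_zero)
  rw [Units.val_mk0] at ha
  have ha' : v.valuation K ((a : K) - x) < exp (-N) := ha
  -- the value of f
  have hvA : v.valuation K (A : K) ≤ 1 := v.valuation_le_one A
  have hva : v.valuation K (a : K) ≤ 1 := v.valuation_le_one a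
  have hfd : v.valuation K (((a : K) ^ 3 + (A : K) * (a : K) + (B : K)) - (x ^ 3 + (A : K) * x + (B : K))) <
      v.valuation K (x ^ 3 + (A : K) * x + (B : K)) := by
    have e1 : ((a : K) ^ 3 + (A : K) * (a : K) + (B : K)) - (x ^ 3 + (A : K) * x + (B : K)) =
        ((a : K) - x) * ((a : K) ^ 2 + (a : K) * x + x ^ 2 + (A : K)) := by ring
    have e2 : v.valuation K ((a : K) ^ 2 + (a : K) * x + x ^ 2 + (A : K)) ≤ 1 := by
      refine (v.valuation K).map_add_le ((v.valuation K).map_add_le ((v.valuation K).map_add_le ?_ ?_) ?_) hvA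
      · rw [map_pow]; exact pow_le_one' hva 2
      · rw [map_mul]; exact mul_le_one' hva hx
      · rw [map_pow]; exact pow_le_one' hx 2
    rw [e1, map_mul]
    calc _ ≤ v.valuation K ((a : K) - x) * 1 := mul_le_mul_right e2 _
      _ < _ := by rw [mul_one]; exact ha'.trans_le (hNN2.trans hN2''.le)
  have hfa : v.valuation K ((a : K) ^ 3 + (A : K) * (a : K) + (B : K)) =
      v.valuation K (x ^ 3 + (A : K) * x + (B : K)) := Valuation.map_eq_of_sub_lt _ hfd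
  have hfa0 : (a : K) ^ 3 + (A : K) * (a : K) + (B : K) ≠ 0 := by
    rw [← Valuation.ne_zero_iff (v.valuation K), hfa]
    exact (Valuation.ne_zero_iff _).2 hfx
  have hwa : ∀ w : HeightOneSpectrum (𝓞 L), dn K w = v →
      w.valuation L (algebraMap K L (a : K) - θ) = w.valuation L (algebraMap K L x - θ) := by
    intro w hw
    refine Valuation.map_eq_of_sub_lt _ ?_
    have e1 : (algebraMap K L (a : K) - θ) - (algebraMap K L x - θ) = algebraMap K L ((a : K) - x) := by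
      rw [map_sub]; ring
    rw [e1]
    have e2 : w.valuation L (algebraMap K L ((a : K) - x)) ≤ exp (-N) := by
      refine val_exp_le hN0 ?_
      rw [hw]
      exact ha'.le
    refine lt_of_le_of_lt (e2.trans hNN1) (hN1' w ?_)
    rw [Set.Finite.mem_toFinset]
    exact hw
  obtain ⟨w₁, hw1, hw2, hw3⟩ := Tc_intL h hd a hfa0
  refine ⟨w₁, hw1, ?_, fun w hw hne => ?_⟩
  · unfold ord at hw2 ⊢
    rw [← hwa w₁ hw1, ← hfa]
    exact hw2
  · rw [← hwa w hw]
    exact hw3 w hw hne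

theorem ord_sub_loc {a b : K} {θ : L} (h : Cub K L a b θ) {v : HeightOneSpectrum (𝓞 K)}
    (ha : v.valuation K a ≤ 1) (hb : v.valuation K b ≤ 1)
    (hd : exp (-1 : ℤ) ≤ v.valuation K (4 * a ^ 3 + 27 * b ^ 2))
    {x : K} (hx : v.valuation K x ≤ 1) (hfx : x ^ 3 + a * x + b ≠ 0) :
    ∃ w₁ : HeightOneSpectrum (𝓞 L), dn K w₁ = v ∧
      ord (w₁.valuation L) (algebraMap K L x - θ) = ord (v.valuation K) (x ^ 3 + a * x + b) ∧
      ∀ w : HeightOneSpectrum (𝓞 L), dn K w = v → w ≠ w₁ →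
        w.valuation L (algebraMap K L x - θ) = 1 := by
  obtain ⟨na, ⟨da, hda⟩, ea⟩ := v.exists_primeCompl_mul_eq_of_integer a ha
  obtain ⟨nb, ⟨db, hdb⟩, eb⟩ := v.exists_primeCompl_mul_eq_of_integer b hb
  have ea' : a * (da : K) = (na : K) := ea
  have eb' : b * (db : K) = (nb : K) := eb
  have hda' : da ∉ v.asIdeal := hda
  have hdb' : db ∉ v.asIdeal := hdb
  obtain ⟨s, hs⟩ : ∃ s : 𝓞 K, s = da * db := ⟨_, rfl⟩
  have hsv : s ∉ v.asIdeal := by
    rw [hs]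
    intro h0
    rcases v.isPrime.mem_or_mem h0 with h1 | h1
    · exact hda' h1
    · exact hdb' h1
  have hsK : (s : K) = (da : K) * (db : K) := by
    rw [hs]
    rfl
  have hvs : v.valuation K (s : K) = 1 :=
    (HeightOneSpectrum.valuation_eq_one_iff_notMem (K := K) (v := v)).2 hsv
  have hs0 : (s : K) ≠ 0 := by
    rw [← Valuation.ne_zero_iff (v.valuation K), hvs]
    exact one_ne_zero
  obtain ⟨A, hA⟩ : ∃ A : 𝓞 K, (A : K) = (s : K) ^ 2 * a := by
    refine ⟨s * db * na, ?_⟩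
    change (s : K) * (db : K) * (na : K) = (s : K) ^ 2 * a
    rw [← ea', hsK]
    ring
  obtain ⟨B, hB⟩ : ∃ B : 𝓞 K, (B : K) = (s : K) ^ 3 * b := by
    refine ⟨s ^ 2 * da * nb, ?_⟩
    change (s : K) ^ 2 * (da : K) * (nb : K) = (s : K) ^ 3 * b
    rw [← eb', hsK]
    ring
  have hC : Cub K L (A : K) (B : K) (algebraMap K L (s : K) * θ) := by
    rw [hA, hB]
    exact h.twist hs0
  have hdsc : dsc A B ∉ v.asIdeal ^ 2 := by
    rw [← v.intValuation_le_pow_iff_mem]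
    have e1 : ((dsc A B : 𝓞 K) : K) = (s : K) ^ 6 * (4 * a ^ 3 + 27 * b ^ 2) := by
      change algebraMap (𝓞 K) K (dsc A B) = _
      unfold dsc
      rw [map_add, map_mul, map_mul, map_pow, map_pow]
      change algebraMap (𝓞 K) K 4 * (A : K) ^ 3 + algebraMap (𝓞 K) K 27 * (B : K) ^ 2 = _
      rw [hA, hB, map_ofNat, map_ofNat]
      ring
    have e2 : v.intValuation (dsc A B) = v.valuation K ((s : K) ^ 6 * (4 * a ^ 3 + 27 * b ^ 2)) := by
      rw [← e1]
      exact (v.valuation_of_algebraMap (dsc A B)).symm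
    rw [e2, map_mul, map_pow, hvs, one_pow, one_mul, not_le]
    refine lt_of_lt_of_le ?_ hd
    rw [exp_lt_exp]
    norm_num
  have hx' : v.valuation K ((s : K) * x) ≤ 1 := by
    rw [map_mul, hvs, one_mul]
    exact hx
  have e3 : ((s : K) * x) ^ 3 + (A : K) * ((s : K) * x) + (B : K) =
      (s : K) ^ 3 * (x ^ 3 + a * x + b) := by
    rw [hA, hB]
    ring
  have hfx' : ((s : K) * x) ^ 3 + (A : K) * ((s : K) * x) + (B : K) ≠ 0 := by
    rw [e3]
    exact mul_ne_zero (pow_ne_zero 3 hs0) hfx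
  have e4 : algebraMap K L ((s : K) * x) - algebraMap K L (s : K) * θ =
      algebraMap K L (s : K) * (algebraMap K L x - θ) := by
    rw [map_mul]
    ring
  have hws : ∀ w : HeightOneSpectrum (𝓞 L), dn K w = v →
      w.valuation L (algebraMap K L (s : K)) = 1 := by
    intro w hw
    exact val_one (by rw [hw]; exact hvs)
  obtain ⟨w₁, hw1, hw2, hw3⟩ := ord_subL hC hdsc hx' hfx'
  refine ⟨w₁, hw1, ?_, fun w hw hne => ?_⟩
  · rw [e3, e4] at hw2
    unfold ord at hw2 ⊢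
    rw [map_mul, map_mul, map_pow, hws w₁ hw1, hvs, one_pow, one_mul, one_mul] at hw2
    exact hw2
  · have h5 := hw3 w hw hne
    rw [e4, map_mul, hws w hw, one_mul] at h5
    exact h5

end H36MT
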