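import Pool.Agent.H36.MT.Fa
import Pool.Agent.H76.PP.Td

/-!
ROW Td (project MP_78d38b_MT, about 200 lines): the places above a prime `v` of type T. MODIFICATION of `Pool/Agent/H76/PP/Td.lean` (read it
first): there every `y : 𝓞 L` is `c 0 + c 1 θ + c 2 θ^2` with `c i : 𝓞 K` (`hspan`), here only `m y = c 0 + c 1 θ + c 2 θ^2` with
`m ∉ v` (`LB.den`, row Fa; `hl : LB h v := lb_of h hd`).

CHANGES (abstract part, `a : R →+* S`, `P` maximal): `hden : ∀ y : S, ∃ m, m ∉ P ∧ ∃ c0 c1 c2, a m * y = a c0 + a c1 * θ + a c2 * θ ^ 2`.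
Td_V: `y ∈ P.map a → ∃ m, m ∉ P ∧ ∃ c0 ∈ P, ∃ c1 ∈ P, ∃ c2 ∈ P, a m * y = ...`: the set of such `y` is an ideal (sum: multiply by the two
denominators, `P` is prime; product with `z`: `m_z m_y`). In `Td_J`: `θ - a t ∈ P.map a` gives `m ∉ P` with
`a m * (θ - a t) = c0 + c1 θ + c2 θ^2`, so `hli` gives `m = c1 ∈ P`, contradiction. Maximality: let `x ∉ J`; `a m * x = c0 + c1 θ + c2 θ^2 =: x'` and
`x' ∉ J` (with `m m' - 1 ∈ P`: `x = -(m m' - 1) x + m' x'`, and `P.map a ≤ J`); do the old argument for `x'` (`x' ∈ I` if `x ∈ I`).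
In `exists_two`: hw1: `y ∈ w₁`: `m y = c0 + c1 θ' + c2 θ'^2`, `χ (m y) = 0` so `m y = α + β τ` with `α ∈ v 𝓞 L`; with `m m' - 1 ∈ v`:
`y = -(m m' - 1) y + m' α + (m' β) τ`. Everything else is unchanged (`exists_placeL` instead of `exists_place`; `Td_ord` is private in the old
file: copy it).
-/

set_option autoImplicit false
set_option linter.unusedSectionVars false
open scoped Classical

open WithZero NumberField IsDedekindDomain H38RT
open H76PP

namespace H36MT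

variable {K L : Type} [Field K] [NumberField K] [Field L] [NumberField L] [Algebra K L]

section Abstract

variable {R S : Type*} [CommRing R] [CommRing S] {a : R →+* S} {θ : S} {A B : R}

/-- the coordinates of an element of the extended ideal -/
private theorem TdL_V (hroot : θ ^ 3 + a A * θ + a B = 0) (P : Ideal R) (hP : P.IsPrime)
    (hden : ∀ y : S, ∃ m : R, m ∉ P ∧ ∃ c0 c1 c2 : R, a m * y = a c0 + a c1 * θ + a c2 * θ ^ 2)
    {y : S} (hy : y ∈ P.map a) : ∃ m : R, m ∉ P ∧ ∃ c0 ∈ P, ∃ c1 ∈ P, ∃ c2 ∈ P,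
      a m * y = a c0 + a c1 * θ + a c2 * θ ^ 2 := by
  have h1P : (1 : R) ∉ P := fun h => hP.ne_top ((Ideal.eq_top_iff_one P).2 h)
  have hmul : ∀ x y : R, x ∉ P → y ∉ P → x * y ∉ P := fun x y hx hy hxy =>
    (hP.mem_or_mem hxy).elim hx hy
  let V : Ideal S :=
    { carrier := {y | ∃ m : R, m ∉ P ∧ ∃ c0 ∈ P, ∃ c1 ∈ P, ∃ c2 ∈ P,
        a m * y = a c0 + a c1 * θ + a c2 * θ ^ 2}
      add_mem' := by
        rintro x y ⟨m, hm, c0, h0, c1, h1, c2, h2, e⟩ ⟨n, hn, d0, k0, d1, k1, d2, k2, e'⟩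
        refine ⟨m * n, hmul m n hm hn, n * c0 + m * d0,
          P.add_mem (P.mul_mem_left _ h0) (P.mul_mem_left _ k0), n * c1 + m * d1,
          P.add_mem (P.mul_mem_left _ h1) (P.mul_mem_left _ k1), n * c2 + m * d2,
          P.add_mem (P.mul_mem_left _ h2) (P.mul_mem_left _ k2), ?_⟩
        simp only [map_add, map_mul]
        linear_combination a n * e + a m * e'
      zero_mem' := ⟨1, h1P, 0, P.zero_mem, 0, P.zero_mem, 0, P.zero_mem, by simp⟩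
      smul_mem' := by
        rintro z y ⟨m, hm, c0, h0, c1, h1, c2, h2, e⟩
        obtain ⟨n, hn, d0, d1, d2, e'⟩ := hden z
        refine ⟨n * m, hmul n m hn hm, d0 * c0 - B * (d1 * c2 + d2 * c1), ?_,
          d0 * c1 + d1 * c0 - A * (d1 * c2 + d2 * c1) - B * (d2 * c2), ?_,
          d0 * c2 + d1 * c1 + d2 * c0 - A * (d2 * c2), ?_, ?_⟩
        · exact P.sub_mem (P.mul_mem_left _ h0) (P.mul_mem_left _
            (P.add_mem (P.mul_mem_left _ h2) (P.mul_mem_left _ h1)))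
        · exact P.sub_mem (P.sub_mem (P.add_mem (P.mul_mem_left _ h1) (P.mul_mem_left _ h0))
            (P.mul_mem_left _ (P.add_mem (P.mul_mem_left _ h2) (P.mul_mem_left _ h1))))
            (P.mul_mem_left _ (P.mul_mem_left _ h2))
        · exact P.sub_mem (P.add_mem (P.add_mem (P.mul_mem_left _ h2) (P.mul_mem_left _ h1))
            (P.mul_mem_left _ h0)) (P.mul_mem_left _ (P.mul_mem_left _ h2))
        · simp only [smul_eq_mul, map_add, map_sub, map_mul]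
          have e2 : a n * a m * (z * y) = (a n * z) * (a m * y) := by ring
          rw [e2, e, e']
          linear_combination (a d1 * a c2 + a d2 * a c1 + a d2 * a c2 * θ) * hroot }
  have h1 : P.map a ≤ V := by
    rw [Ideal.map_le_iff_le_comap]
    intro p hp
    exact ⟨1, h1P, p, hp, 0, P.zero_mem, 0, P.zero_mem, by simp⟩
  exact h1 hy

/-- the second place: `J = P + (g)` -/
private theorem TdL_J (hroot : θ ^ 3 + a A * θ + a B = 0)
    (hli : ∀ c0 c1 c2 : R, a c0 + a c1 * θ + a c2 * θ ^ 2 = 0 → c0 = 0 ∧ c1 = 0 ∧ c2 = 0)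
    {P : Ideal R} (hP : P.IsMaximal)
    (hden : ∀ y : S, ∃ m : R, m ∉ P ∧ ∃ c0 c1 c2 : R, a m * y = a c0 + a c1 * θ + a c2 * θ ^ 2) {t : R} (ht : t ^ 3 + A * t + B ∈ P)
    (hs : ∀ s : R, -3 * t ^ 2 - 4 * A - s ^ 2 ∉ P) {J : Ideal S}
    (hJ : J = P.map a ⊔ Ideal.span {θ ^ 2 + a t * θ + a t ^ 2 + a A}) :
    (θ - a t) * (θ ^ 2 + a t * θ + a t ^ 2 + a A) ∈ P.map a ∧ J.IsMaximal ∧
      (∀ x : R, a x ∈ J ↔ x ∈ P) ∧ ∀ b : R, θ - a b ∉ J := by
  obtain ⟨g, hg⟩ : ∃ g, g = θ ^ 2 + a t * θ + a t ^ 2 + a A := ⟨_, rfl⟩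
  rw [← hg] at hJ ⊢
  have hVJ : P.map a ≤ J := by
    rw [hJ]
    exact le_sup_left
  have hgJ : g ∈ J := by
    rw [hJ]
    exact Ideal.mem_sup_right (Ideal.mem_span_singleton_self g)
  have hτg : (θ - a t) * g ∈ P.map a := by
    have h1 : (θ - a t) * g = a (-(t ^ 3 + A * t + B)) := by
      rw [hg]
      simp only [map_neg, map_add, map_mul, map_pow]
      linear_combination hroot
    rw [h1]
    exact Ideal.mem_map_of_mem a (P.neg_mem ht)
  have h1P : (1 : R) ∉ P := fun h => hP.ne_top ((Ideal.eq_top_iff_one P).2 h)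
  have h1J : (1 : S) ∉ J := by
    intro h
    rw [hJ] at h
    obtain ⟨α, hα, γ, hγ, he⟩ := Submodule.mem_sup.1 h
    obtain ⟨β, hβ⟩ := Ideal.mem_span_singleton'.1 hγ
    have h2 : θ - a t ∈ P.map a := by
      have h3 : θ - a t = (θ - a t) * α + β * ((θ - a t) * g) := by
        have h4 : θ - a t = (θ - a t) * (α + γ) := by rw [he, mul_one]
        rw [← hβ] at h4
        linear_combination h4
      rw [h3]
      exact Ideal.add_mem _ (Ideal.mul_mem_left _ _ hα) (Ideal.mul_mem_left _ _ hτg)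
    obtain ⟨m, hm, c0, h0, c1, h1, c2, h2', he2⟩ := TdL_V hroot P hP.isPrime hden h2
    obtain ⟨-, e1, -⟩ := hli (c0 + m * t) (c1 - m) c2 (by
      rw [map_add, map_sub, map_mul]
      linear_combination -he2)
    apply hm
    rw [← sub_eq_zero.1 e1]
    exact h1
  have hcomap : ∀ x : R, a x ∈ J ↔ x ∈ P := by
    have h2 : P = J.comap a := by
      refine hP.eq_of_le ?_ ?_
      · rw [Ne, Ideal.eq_top_iff_one, Ideal.mem_comap, map_one]
        exact h1J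
      · rw [← Ideal.map_le_iff_le_comap]
        exact hVJ
    intro x
    rw [h2, Ideal.mem_comap]
  have hb : ∀ b : R, θ - a b ∉ J := by
    intro b hb
    have h2 : a (b ^ 2 + t * b + t ^ 2 + A) ∈ J := by
      have h3 : a (b ^ 2 + t * b + t ^ 2 + A) = g - (θ + a b + a t) * (θ - a b) := by
        rw [hg]
        simp only [map_add, map_mul, map_pow]
        ring
      rw [h3]
      exact J.sub_mem hgJ (J.mul_mem_left _ hb)
    rw [hcomap] at h2
    apply hs (2 * b + t)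
    have h3 : -3 * t ^ 2 - 4 * A - (2 * b + t) ^ 2 = (-4) * (b ^ 2 + t * b + t ^ 2 + A) := by ring
    rw [h3]
    exact P.mul_mem_left _ h2
  refine ⟨hτg, ?_, hcomap, hb⟩
  rw [Ideal.isMaximal_iff]
  refine ⟨h1J, fun I x₀ hJI hx₀ hxI₀ => ?_⟩
  have hinv : ∀ x : R, x ∉ P → ∃ y, x * y - 1 ∈ P := by
    intro x hx
    obtain ⟨y, i, hi, he⟩ := hP.exists_inv hx
    refine ⟨y, ?_⟩
    have h2 : x * y - 1 = -i := by linear_combination he
    rw [h2]
    exact P.neg_mem hi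
  obtain ⟨m, hm, c0, c1, c2, hx₁⟩ := hden x₀
  have hx : a c0 + a c1 * θ + a c2 * θ ^ 2 ∉ J := by
    intro hcon
    apply hx₀
    obtain ⟨m', hm'⟩ := hinv m hm
    have e0 : x₀ = a m' * (a c0 + a c1 * θ + a c2 * θ ^ 2) - x₀ * a (m * m' - 1) := by
      rw [← hx₁]
      simp only [map_sub, map_mul, map_one]
      ring
    rw [e0]
    exact J.sub_mem (J.mul_mem_left _ hcon)
      (J.mul_mem_left _ (hVJ (Ideal.mem_map_of_mem a hm')))
  have hxI : a c0 + a c1 * θ + a c2 * θ ^ 2 ∈ I := by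
    rw [← hx₁]
    exact I.mul_mem_left _ hxI₀
  obtain ⟨p, hp⟩ : ∃ p, p = c0 - c2 * (t ^ 2 + A) := ⟨_, rfl⟩
  obtain ⟨q, hq⟩ : ∃ q, q = c1 - c2 * t := ⟨_, rfl⟩
  have e1 : a c0 + a c1 * θ + a c2 * θ ^ 2 = a p + a q * θ + a c2 * g := by
    rw [hp, hq, hg]
    simp only [map_add, map_mul, map_pow, map_sub]
    ring
  have hpq : p ∈ P → q ∉ P := by
    intro h1 h2
    apply hx
    rw [e1]
    exact J.add_mem (J.add_mem ((hcomap p).2 h1) (J.mul_mem_right _ ((hcomap q).2 h2)))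
      (J.mul_mem_left _ hgJ)
  obtain ⟨n, hn⟩ : ∃ n, n = p ^ 2 - p * q * t + q ^ 2 * (t ^ 2 + A) := ⟨_, rfl⟩
  have hnP : n ∉ P := by
    intro hnP
    by_cases hqP : q ∈ P
    · have h2 : p ^ 2 ∈ P := by
        have h3 : p ^ 2 = n + (p * t - q * (t ^ 2 + A)) * q := by
          rw [hn]
          ring
        rw [h3]
        exact P.add_mem hnP (P.mul_mem_left _ hqP)
      exact hpq (hP.isPrime.mem_of_pow_mem 2 h2) hqP
    · obtain ⟨q', hq'⟩ := hinv q hqP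
      apply hs ((2 * p - q * t) * q')
      have h3 : -3 * t ^ 2 - 4 * A - ((2 * p - q * t) * q') ^ 2 =
          (-4 * q' ^ 2) * n + ((3 * t ^ 2 + 4 * A) * (q * q' + 1)) * (q * q' - 1) := by
        rw [hn]
        ring
      rw [h3]
      exact P.add_mem (P.mul_mem_left _ hnP) (P.mul_mem_left _ hq')
  obtain ⟨n', hn'⟩ := hinv n hnP
  have h5 : (a c0 + a c1 * θ + a c2 * θ ^ 2) * ((a p - a q * a t - a q * θ) * a n') ∈ I :=
    I.mul_mem_right _ hxI
  have h6 : (a c0 + a c1 * θ + a c2 * θ ^ 2) * ((a p - a q * a t - a q * θ) * a n') - 1 ∈ J := by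
    have h7 : (a c0 + a c1 * θ + a c2 * θ ^ 2) * ((a p - a q * a t - a q * θ) * a n') - 1 =
        a (n * n' - 1) + ((a c2 * (a p - a q * a t - a q * θ) - a q ^ 2) * a n') * g := by
      rw [e1, hn, hg]
      simp only [map_add, map_mul, map_pow, map_sub, map_one]
      ring
    rw [h7]
    exact J.add_mem ((hcomap _).2 hn') (J.mul_mem_left _ hgJ)
  have h8 := I.sub_mem h5 (hJI h6)
  rwa [sub_sub_cancel] at h8

end Abstract

private theorem TdL_ord {w w' : HeightOneSpectrum (𝓞 L)} {v : HeightOneSpectrum (𝓞 K)}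
    (hne : w ≠ w') (hdn : dn K w = v)
    (hle : w.asIdeal * w'.asIdeal ≤ v.asIdeal.map (algebraMap (𝓞 K) (𝓞 L))) (x : K)
    (hx : x ≠ 0) : ord (w.valuation L) (algebraMap K L x) = ord (v.valuation K) x := by
  obtain ⟨e, he, hord⟩ := ord_dn (K := K) w
  have he1 : e = 1 := by
    by_contra hne1
    have he2 : (2 : ℤ) ≤ e := by
      have : 2 ≤ e := by omega
      exact_mod_cast this
    have hV : v.asIdeal.map (algebraMap (𝓞 K) (𝓞 L)) ≤ w.asIdeal ^ 2 := by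
      rw [Ideal.map_le_iff_le_comap]
      intro p hp
      rw [Ideal.mem_comap]
      rcases eq_or_ne p 0 with rfl | hp0
      · rw [map_zero]
        exact zero_mem _
      have hpK : (p : K) ≠ 0 := RingOfIntegers.coe_ne_zero_iff.mpr hp0
      have h1 : v.valuation K (p : K) < 1 := (v.valuation_lt_one_iff_mem (K := K) p).2 hp
      have h2 : 1 ≤ ord (v.valuation K) (p : K) := by
        unfold ord
        have h3 : v.valuation K (p : K) ≠ 0 := (Valuation.ne_zero_iff _).2 hpK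
        rw [← exp_zero, ← log_lt_iff_lt_exp h3] at h1
        omega
      have h4 := hord (p : K) hpK
      rw [hdn] at h4
      rw [← w.intValuation_le_pow_iff_mem, ← w.valuation_of_algebraMap (K := L)]
      have h5 : algebraMap (𝓞 L) L (algebraMap (𝓞 K) (𝓞 L) p) = algebraMap K L (p : K) := rfl
      change w.valuation L (algebraMap (𝓞 L) L (algebraMap (𝓞 K) (𝓞 L) p)) ≤ _
      rw [h5]
      have h6 : w.valuation L (algebraMap K L (p : K)) ≠ 0 :=
        (Valuation.ne_zero_iff _).2 ((map_ne_zero _).2 hpK)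
      rw [← exp_log h6, exp_le_exp]
      unfold ord at h4 h2
      push_cast
      nlinarith
    have h1 : w.asIdeal ^ 2 ∣ w.asIdeal * w'.asIdeal := Ideal.dvd_iff_le.2 (hle.trans hV)
    rw [sq] at h1
    have h2 : w.asIdeal ∣ w'.asIdeal := (mul_dvd_mul_iff_left (show w.asIdeal ≠ 0 from w.ne_bot)).1 h1
    have h3 := Ideal.dvd_iff_le.1 h2
    exact hne (HeightOneSpectrum.ext (w'.isMaximal.eq_of_le w.isPrime.ne_top h3).symm)
  have h1 := hord x hx
  rw [he1, hdn] at h1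
  rw [h1]
  push_cast
  rw [one_mul]

theorem exists_twoL {A B : 𝓞 K} {θ : L} (h : Cub K L (A : K) (B : K) θ)
    {v : HeightOneSpectrum (𝓞 K)} (hd : dsc A B ∉ v.asIdeal ^ 2) (h6 : (6 : 𝓞 K) ∉ v.asIdeal)
    (ht : ∃ t : 𝓞 K, t ^ 3 + A * t + B ∈ v.asIdeal ∧
      ∀ s : 𝓞 K, -3 * t ^ 2 - 4 * A - s ^ 2 ∉ v.asIdeal) :
    ∃ w₁ w₂ : HeightOneSpectrum (𝓞 L), Two K θ v w₁ w₂ := by
  obtain ⟨t, ht, hs⟩ := ht
  have hl : LB h v := lb_of h hd
  obtain ⟨θ', hθ'⟩ := theta_int h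
  obtain ⟨w₁, χ, hd1, hχ, hχa, hχc⟩ := exists_placeL h hl ht
  have hinjL := FaithfulSMul.algebraMap_injective (𝓞 L) L
  have hsc : ∀ r : 𝓞 K, algebraMap (𝓞 L) L (algebraMap (𝓞 K) (𝓞 L) r) = algebraMap K L (r : K) :=
    fun _ => rfl
  have hθL : algebraMap (𝓞 L) L θ' = θ := hθ'
  have hden : ∀ y : 𝓞 L, ∃ m : 𝓞 K, m ∉ v.asIdeal ∧ ∃ c0 c1 c2 : 𝓞 K,
      algebraMap (𝓞 K) (𝓞 L) m * y = algebraMap (𝓞 K) (𝓞 L) c0 +
      algebraMap (𝓞 K) (𝓞 L) c1 * θ' + algebraMap (𝓞 K) (𝓞 L) c2 * θ' ^ 2 := by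
    intro y
    obtain ⟨m, hm, c, hc⟩ := hl.den y
    refine ⟨m, hm, c 0, c 1, c 2, hinjL ?_⟩
    rw [map_add, map_add, map_mul, map_mul, map_mul, map_pow, hsc, hsc, hsc, hsc, hθL, ← hc, ← hc,
      ← hc, map_mul, map_mul, map_mul]
    have e1 := h.eq_co (y : L)
    have e2 : algebraMap (𝓞 L) L y = (y : L) := rfl
    rw [e2]
    linear_combination (algebraMap K L (m : K)) * e1
  have hli : ∀ c0 c1 c2 : 𝓞 K, algebraMap (𝓞 K) (𝓞 L) c0 + algebraMap (𝓞 K) (𝓞 L) c1 * θ' +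
      algebraMap (𝓞 K) (𝓞 L) c2 * θ' ^ 2 = 0 → c0 = 0 ∧ c1 = 0 ∧ c2 = 0 := by
    intro c0 c1 c2 h0
    have h1 := congrArg (algebraMap (𝓞 L) L) h0
    rw [map_add, map_add, map_mul, map_mul, map_pow, hsc, hsc, hsc, hθL, map_zero] at h1
    obtain ⟨e0, e1, e2⟩ := h.li _ _ _ h1
    exact ⟨RingOfIntegers.ext e0, RingOfIntegers.ext e1, RingOfIntegers.ext e2⟩
  have hroot : θ' ^ 3 + algebraMap (𝓞 K) (𝓞 L) A * θ' + algebraMap (𝓞 K) (𝓞 L) B = 0 := by
    apply hinjL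
    rw [map_add, map_add, map_mul, map_pow, hsc, hsc, hθL, map_zero]
    exact h.root
  have hχθ : χ θ' = Ideal.Quotient.mk v.asIdeal t := by
    have h1 := hχc θ' ![0, 1, 0] (by
      intro i
      have e0 : ((0 : 𝓞 K) : K) = 0 := rfl
      have e1 : ((1 : 𝓞 K) : K) = 1 := rfl
      rw [hθ']
      fin_cases i
      · exact h.co_theta.1.trans e0.symm
      · exact h.co_theta.2.1.trans e1.symm
      · exact h.co_theta.2.2.trans e0.symm)
    rw [h1]
    congr 1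
    simp
  obtain ⟨J, hJ⟩ : ∃ J, J = v.asIdeal.map (algebraMap (𝓞 K) (𝓞 L)) ⊔ Ideal.span
    {θ' ^ 2 + algebraMap (𝓞 K) (𝓞 L) t * θ' + algebraMap (𝓞 K) (𝓞 L) t ^ 2 +
      algebraMap (𝓞 K) (𝓞 L) A} := ⟨_, rfl⟩
  obtain ⟨hτg, hJm, hJc, hJb⟩ := TdL_J hroot hli v.isMaximal hden ht hs hJ
  obtain ⟨g, hg⟩ : ∃ g, g = θ' ^ 2 + algebraMap (𝓞 K) (𝓞 L) t * θ' +
    algebraMap (𝓞 K) (𝓞 L) t ^ 2 + algebraMap (𝓞 K) (𝓞 L) A := ⟨_, rfl⟩
  obtain ⟨τ, hτ⟩ : ∃ τ, τ = θ' - algebraMap (𝓞 K) (𝓞 L) t := ⟨_, rfl⟩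
  rw [← hg] at hJ hτg
  rw [← hτ] at hτg
  have hVJ : v.asIdeal.map (algebraMap (𝓞 K) (𝓞 L)) ≤ J := by
    rw [hJ]
    exact le_sup_left
  have hJ0 : J ≠ ⊥ := by
    rintro rfl
    obtain ⟨p, hp, hp0⟩ := Submodule.exists_mem_ne_zero_of_ne_bot v.ne_bot
    have h1 := hVJ (Ideal.mem_map_of_mem (algebraMap (𝓞 K) (𝓞 L)) hp)
    rw [Ideal.mem_bot] at h1
    exact hp0 ((map_eq_zero_iff _ (FaithfulSMul.algebraMap_injective (𝓞 K) (𝓞 L))).1 h1)
  obtain ⟨w₂, hw2⟩ : ∃ w₂ : HeightOneSpectrum (𝓞 L), w₂.asIdeal = J := ⟨⟨J, hJm.isPrime, hJ0⟩, rfl⟩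
  have hτ1 : τ ∈ w₁.asIdeal := by
    rw [← hχ, hτ, map_sub, hχθ, hχa, sub_self]
  have hτ2 : τ ∉ w₂.asIdeal := by
    rw [hw2, hτ]
    exact hJb t
  have hd2 : dn K w₂ = v := by
    apply HeightOneSpectrum.ext
    ext r
    show algebraMap (𝓞 K) (𝓞 L) r ∈ w₂.asIdeal ↔ r ∈ v.asIdeal
    rw [hw2]
    exact hJc r
  have hdV : ∀ w : HeightOneSpectrum (𝓞 L), dn K w = v →
      v.asIdeal.map (algebraMap (𝓞 K) (𝓞 L)) ≤ w.asIdeal := by
    intro w hw
    rw [Ideal.map_le_iff_le_comap, ← hw]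
    exact le_rfl
  have hw1 : ∀ y ∈ w₁.asIdeal, ∃ α ∈ v.asIdeal.map (algebraMap (𝓞 K) (𝓞 L)), ∃ β : 𝓞 L,
      y = α + β * τ := by
    intro y hy
    obtain ⟨m, hm, c0, c1, c2, e1⟩ := hden y
    obtain ⟨m', i, hi, hmi⟩ := v.isMaximal.exists_inv hm
    have hy' : algebraMap (𝓞 K) (𝓞 L) m * y ∈ w₁.asIdeal := Ideal.mul_mem_left _ _ hy
    rw [e1, ← hχ] at hy'
    rw [map_add, map_add, map_mul, map_mul, map_pow, hχa, hχa, hχa, hχθ, ← map_pow, ← map_mul,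
      ← map_mul, ← map_add, ← map_add, Ideal.Quotient.eq_zero_iff_mem] at hy'
    refine ⟨y * algebraMap (𝓞 K) (𝓞 L) i + algebraMap (𝓞 K) (𝓞 L) m' *
      algebraMap (𝓞 K) (𝓞 L) (c0 + c1 * t + c2 * t ^ 2),
      Ideal.add_mem _ (Ideal.mul_mem_left _ _ (Ideal.mem_map_of_mem (algebraMap (𝓞 K) (𝓞 L)) hi))
        (Ideal.mul_mem_left _ _ (Ideal.mem_map_of_mem (algebraMap (𝓞 K) (𝓞 L)) hy')),
      algebraMap (𝓞 K) (𝓞 L) m' * (algebraMap (𝓞 K) (𝓞 L) c1 +
        algebraMap (𝓞 K) (𝓞 L) c2 * (θ' + algebraMap (𝓞 K) (𝓞 L) t)), ?_⟩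
    have e3 : algebraMap (𝓞 K) (𝓞 L) m' * algebraMap (𝓞 K) (𝓞 L) m +
        algebraMap (𝓞 K) (𝓞 L) i = 1 := by
      rw [← map_mul, ← map_add, hmi, map_one]
    rw [hτ]
    simp only [map_add, map_mul, map_pow]
    linear_combination (-y) * e3 + algebraMap (𝓞 K) (𝓞 L) m' * e1
  have hw2' : ∀ y ∈ w₂.asIdeal, ∃ α ∈ v.asIdeal.map (algebraMap (𝓞 K) (𝓞 L)), ∃ β : 𝓞 L,
      y = α + β * g := by
    intro y hy
    rw [hw2, hJ] at hy
    obtain ⟨α, hα, γ, hγ, he⟩ := Submodule.mem_sup.1 hy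
    obtain ⟨β, hβ⟩ := Ideal.mem_span_singleton'.1 hγ
    exact ⟨α, hα, β, by rw [hβ, he]⟩
  have hne : w₁ ≠ w₂ := by
    intro h'
    rw [h'] at hτ1
    exact hτ2 hτ1
  have hle : w₁.asIdeal * w₂.asIdeal ≤ v.asIdeal.map (algebraMap (𝓞 K) (𝓞 L)) := by
    rw [Ideal.mul_le]
    intro r hr s hs
    obtain ⟨α, hα, β, rfl⟩ := hw1 r hr
    obtain ⟨α', hα', β', rfl⟩ := hw2' s hs
    have h1 : (α + β * τ) * (α' + β' * g) = (α' + β' * g) * α + (β * τ) * α' +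
        (β * β') * (τ * g) := by ring
    rw [h1]
    exact Ideal.add_mem _ (Ideal.add_mem _ (Ideal.mul_mem_left _ _ hα) (Ideal.mul_mem_left _ _ hα'))
      (Ideal.mul_mem_left _ _ hτg)
  refine ⟨w₁, w₂, ⟨hne, hd1, hd2, ?_, fun x hx => TdL_ord hne hd1 hle x hx, fun x hx =>
    TdL_ord hne.symm hd2 (by rw [mul_comm]; exact hle) x hx, ?_⟩⟩
  · intro w hw
    have hV := hdV w hw
    rcases w.isPrime.mem_or_mem (hV hτg) with h1 | h1
    · left
      have h2 : w₁.asIdeal ≤ w.asIdeal := by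
        intro y hy
        obtain ⟨α, hα, β, rfl⟩ := hw1 y hy
        exact Ideal.add_mem _ (hV hα) (Ideal.mul_mem_left _ _ h1)
      exact HeightOneSpectrum.ext (w₁.isMaximal.eq_of_le w.isPrime.ne_top h2).symm
    · right
      have h2 : w₂.asIdeal ≤ w.asIdeal := by
        intro y hy
        obtain ⟨α, hα, β, rfl⟩ := hw2' y hy
        exact Ideal.add_mem _ (hV hα) (Ideal.mul_mem_left _ _ h1)
      exact HeightOneSpectrum.ext (w₂.isMaximal.eq_of_le w.isPrime.ne_top h2).symm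
  · intro x hx
    have h1 : w₂.valuation L (algebraMap K L x) ≤ 1 := val_le (by rw [hd2]; exact hx)
    have h2 : w₂.valuation L θ ≤ 1 := by
      rw [← hθL]
      exact w₂.valuation_le_one θ'
    have h3 : w₂.valuation L (algebraMap K L x - θ) ≤ 1 :=
      (Valuation.map_sub _ _ _).trans (max_le h1 h2)
    refine le_antisymm h3 (not_lt.1 fun h4 => ?_)
    obtain ⟨b, hb⟩ := v.exists_valuation_sub_lt_of_integer hx
      (Units.mk0 (1 : WithZero (Multiplicative ℤ)) one_ne_zero)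
    have hb' : v.valuation K ((b : K) - x) < 1 := hb
    have h5 : w₂.valuation L (algebraMap K L ((b : K) - x)) < 1 := val_lt (by rw [hd2]; exact hb')
    apply hJb b
    rw [← hw2, ← w₂.valuation_lt_one_iff_mem (K := L)]
    have h6 : algebraMap (𝓞 L) L (θ' - algebraMap (𝓞 K) (𝓞 L) b) =
        -((algebraMap K L x - θ) + algebraMap K L ((b : K) - x)) := by
      rw [map_sub (algebraMap (𝓞 L) L), hsc, hθL, map_sub]
      ring
    change w₂.valuation L (algebraMap (𝓞 L) L (θ' - algebraMap (𝓞 K) (𝓞 L) b)) < 1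
    rw [h6, Valuation.map_neg]
    exact (Valuation.map_add _ _ _).trans_lt (max_lt h4 h5)

end H36MT
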