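import Pool.Agent.H36.MT.Dg
import Pool.Agent.H36.PP.Pr
import Pool.Agent.H36.PP.Pk

/-!
ROW Ax (project MP_78d38b_MT, about 150 lines): infinitely many auxiliary primes, any two of them related. MODIFICATION of
`Pool/Agent/H36/PP/Ax.lean` and of `quot_two` in `Pool/Agent/H36/PP/Pr.lean` (read them first). Use the STATEMENTS of Pr (`inf_primes`, `quot_val`,
`Pr_exists_notMem`, ...) and `nv_finite` (Pk).

PROOF of quot_cong: `a - b = y` with `y ∈ m * I`. Let `0 < k`, `m ≤ v^k`; `v ≠ q` since `q` does not contain `m`. Choose `z ∈ q`, `z ∉ v`: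
`z y ∈ q (m I) = m (q I) = m * span {b} ≤ v^k * span {b}`, so `z y = x b` with `x ∈ v^k` (`Ideal.mem_mul_span_singleton`), so
`v y = v (z y) = v x * v b ≤ exp (-k) * v b` (`intValuation_le_pow_iff_mem`), and `v (a/b - 1) = v y / v b ≤ exp (-k)`.

PROOF of aux_set: choose for every ideal class an integral ideal `I c` in the inverse class, `N = ∏ c, absNorm (I c)`, so `(N : 𝓞 K) ∈ I c`. For a prime
`v` choose a generator `g v` of `v.asIdeal * I (class of v)`. The set of primes with `6 ∉ v` and `¬ m ≤ v` is infinite (`inf_primes`; only finitely many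
primes contain `m ≠ ⊥`: `Ideal.finite_factors` or `Nv v ≤ absNorm m`, `nv_finite`). By the pigeonhole principle (`Finite.exists_infinite_fiber`, exactly as in
Ax.lean) there is an infinite subset `Z` on which the class, the residue of `g v` modulo `m * span {N}` (a nonzero ideal, finite
quotient) and the set of positive real embeddings of `g v` are constant. For `p ≠ q` in `Z`: `D = g p / g q`; `g p - g q ∈ m * span {N} ≤ m * I c`, so
`quot_val` and `quot_cong` give everything; the signs agree, so `D > 0`.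
-/

set_option autoImplicit false
set_option linter.unusedSectionVars false
open scoped Classical

open WithZero NumberField IsDedekindDomain
open H76PP H36PP

namespace H36MT

variable (K : Type) [Field K] [NumberField K]

theorem quot_cong {K : Type} [Field K] [NumberField K] {m : Ideal (𝓞 K)}
    {q : HeightOneSpectrum (𝓞 K)} (hq : ¬ m ≤ q.asIdeal) {I : Ideal (𝓞 K)} (hI : I ≠ ⊥)
    {a b : 𝓞 K} (hb : q.asIdeal * I = Ideal.span {b}) (hab : a - b ∈ m * I)
    {v : HeightOneSpectrum (𝓞 K)} {k : ℕ} (hk : 0 < k) (hv : m ≤ v.asIdeal ^ k) :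
    v.valuation K ((a : K) / (b : K) - 1) ≤ exp (-(k : ℤ)) := by
  have hb0 : b ≠ 0 := Pr_ne_zero hI hb
  have hbK : (b : K) ≠ 0 := by simpa using hb0
  have hvb : v.valuation K (b : K) ≠ 0 := (Valuation.ne_zero_iff _).2 hbK
  have hvq : v ≠ q := by
    rintro rfl
    exact hq (hv.trans (Ideal.pow_le_self hk.ne'))
  obtain ⟨z, hz, hzv⟩ := Pr_exists_notMem hvq
  have h3 : z * (a - b) ∈ m * Ideal.span {b} := by
    have h4 : z * (a - b) ∈ q.asIdeal * (m * I) := Ideal.mul_mem_mul hz hab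
    have h5 : q.asIdeal * (m * I) = m * Ideal.span {b} := by
      rw [← hb]
      ring
    rwa [h5] at h4
  rw [Ideal.mem_mul_span_singleton] at h3
  obtain ⟨x, hx, hxe⟩ := h3
  have hvx : v.valuation K (x : K) ≤ exp (-(k : ℤ)) := by
    have h2 : v.valuation K (x : K) = v.intValuation x := v.valuation_of_algebraMap x
    rw [h2]
    exact (v.intValuation_le_pow_iff_mem x k).2 (hv hx)
  have h4 : v.valuation K ((a : K) - (b : K)) = v.valuation K (x : K) * v.valuation K (b : K) := by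
    have h1 : v.valuation K ((z : K) * ((a : K) - (b : K))) =
        v.valuation K ((x : K) * (b : K)) := by
      congr 1
      have h8 := congrArg (algebraMap (𝓞 K) K) hxe
      rw [map_mul, map_mul, map_sub] at h8
      exact h8.symm
    rw [map_mul, map_mul, Pr_val_one hzv, one_mul] at h1
    exact h1
  have h5 : (a : K) / (b : K) - 1 = ((a : K) - (b : K)) / (b : K) := by
    rw [sub_div, div_self hbK]
  rw [h5, map_div₀, h4, mul_div_assoc, div_self hvb, mul_one]
  exact hvx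

theorem aux_set {m : Ideal (𝓞 K)} (hm : m ≠ ⊥) : ∃ Z : Set (HeightOneSpectrum (𝓞 K)),
    Z.Infinite ∧ (∀ v ∈ Z, ¬ m ≤ v.asIdeal ∧ (6 : 𝓞 K) ∉ v.asIdeal) ∧
      ∀ q ∈ Z, ∀ p ∈ Z, p ≠ q → ∃ D : K, AuxR m q p D := by
  have hI : ∀ c : ClassGroup (𝓞 K), ∃ I : (nonZeroDivisors (Ideal (𝓞 K))),
      ClassGroup.mk0 I = c⁻¹ := fun c => ClassGroup.mk0_surjective c⁻¹
  choose I hI using hI
  have hI0 : ∀ c, (I c : Ideal (𝓞 K)) ≠ ⊥ := fun c => by
    have := nonZeroDivisors.ne_zero (I c).2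
    simpa using this
  obtain ⟨N, hN0, hNI⟩ : ∃ N : ℕ, N ≠ 0 ∧ ∀ c, (N : 𝓞 K) ∈ (I c : Ideal (𝓞 K)) := by
    refine ⟨∏ c, Ideal.absNorm (I c : Ideal (𝓞 K)), ?_, ?_⟩
    · refine Finset.prod_ne_zero_iff.2 fun c _ => ?_
      rw [Ne, Ideal.absNorm_eq_zero_iff]
      exact hI0 c
    · intro c
      obtain ⟨k, hk⟩ : Ideal.absNorm (I c : Ideal (𝓞 K)) ∣
          ∏ c, Ideal.absNorm (I c : Ideal (𝓞 K)) := Finset.dvd_prod_of_mem _ (Finset.mem_univ c)
      rw [hk]
      push_cast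
      exact Ideal.mul_mem_right _ _ (Ideal.absNorm_mem _)
  let cl : HeightOneSpectrum (𝓞 K) → ClassGroup (𝓞 K) := fun v =>
    ClassGroup.mk0 ⟨v.asIdeal, mem_nonZeroDivisors_iff_ne_zero.2 v.ne_bot⟩
  have hg : ∀ v : HeightOneSpectrum (𝓞 K), ∃ g : 𝓞 K,
      v.asIdeal * (I (cl v) : Ideal (𝓞 K)) = Ideal.span {g} := by
    intro v
    have h1 : ClassGroup.mk0 (⟨v.asIdeal, mem_nonZeroDivisors_iff_ne_zero.2 v.ne_bot⟩ *
        I (cl v)) = 1 := by
      rw [map_mul, hI]
      exact mul_inv_cancel _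
    rw [ClassGroup.mk0_eq_one_iff] at h1
    obtain ⟨g, hg⟩ := h1.principal
    exact ⟨g, hg⟩
  choose g hg using hg
  have : Finite (K →+* ℝ) := by
    refine Finite.of_injective (fun s : K →+* ℝ => (Complex.ofRealHom.comp s : K →+* ℂ)) ?_
    intro s t hst
    ext x
    have := congrArg (fun f : K →+* ℂ => f x) hst
    simpa using this
  have hNK : (N : 𝓞 K) ≠ 0 := by exact_mod_cast hN0
  have hmN : m * Ideal.span {(N : 𝓞 K)} ≠ ⊥ := by
    rw [Ne, Ideal.mul_eq_bot, not_or]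
    exact ⟨hm, by simpa using hNK⟩
  have : Finite (𝓞 K ⧸ (m * Ideal.span {(N : 𝓞 K)})) :=
    Ideal.finiteQuotientOfFreeOfNeBot _ hmN
  have hfin : {v : HeightOneSpectrum (𝓞 K) | m ≤ v.asIdeal}.Finite := by
    refine (Ideal.finite_factors hm).subset ?_
    intro v hv
    exact Ideal.dvd_iff_le.2 hv
  have hinf0 : {v : HeightOneSpectrum (𝓞 K) |
      ¬ m ≤ v.asIdeal ∧ (6 : 𝓞 K) ∉ v.asIdeal}.Infinite := by
    refine ((inf_primes K).sdiff hfin).mono ?_
    rintro v ⟨h1, h2⟩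
    exact ⟨h2, h1⟩
  have : Infinite {v : HeightOneSpectrum (𝓞 K) |
      ¬ m ≤ v.asIdeal ∧ (6 : 𝓞 K) ∉ v.asIdeal} := hinf0.to_subtype
  let f : {v : HeightOneSpectrum (𝓞 K) | ¬ m ≤ v.asIdeal ∧ (6 : 𝓞 K) ∉ v.asIdeal} →
      ClassGroup (𝓞 K) × (𝓞 K ⧸ (m * Ideal.span {(N : 𝓞 K)})) × Set (K →+* ℝ) := fun v =>
    (cl v.1, Ideal.Quotient.mk _ (g v.1), {s | 0 < s (g v.1 : K)})
  obtain ⟨y, hy⟩ := Finite.exists_infinite_fiber f
  have := hy
  refine ⟨Set.range (fun p : f ⁻¹' {y} => p.1.1), ?_, ?_, ?_⟩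
  · refine Set.infinite_range_of_injective ?_
    intro a b hab
    exact Subtype.ext (Subtype.ext hab)
  · rintro _ ⟨p, rfl⟩
    exact p.1.2
  · rintro _ ⟨q, rfl⟩ _ ⟨p, rfl⟩ hpq
    have hpq' : p.1.1 ≠ q.1.1 := hpq
    have hfe : f p.1 = f q.1 := by
      have h1 : f p.1 = y := p.2
      have h2 : f q.1 = y := q.2
      rw [h1, h2]
    have e1 : cl p.1.1 = cl q.1.1 := congrArg Prod.fst hfe
    have e2 : Ideal.Quotient.mk (m * Ideal.span {(N : 𝓞 K)}) (g p.1.1) =
        Ideal.Quotient.mk _ (g q.1.1) := congrArg (fun z => z.2.1) hfe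
    have e3 : {s : K →+* ℝ | 0 < s (g p.1.1 : K)} = {s | 0 < s (g q.1.1 : K)} :=
      congrArg (fun z => z.2.2) hfe
    have ha := hg p.1.1
    have hb := hg q.1.1
    rw [e1] at ha
    obtain ⟨ha0, hb0, hv1, hv2, hv3⟩ := quot_val hpq' (hI0 _) ha hb
    have ha0' : (g p.1.1 : K) ≠ 0 := by
      intro h
      exact ha0 (by exact_mod_cast h)
    have hb0' : (g q.1.1 : K) ≠ 0 := by
      intro h
      exact hb0 (by exact_mod_cast h)
    refine ⟨(g p.1.1 : K) / (g q.1.1 : K), div_ne_zero ha0' hb0', hv1, hv2, hv3, ?_, ?_⟩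
    · intro v k hk hv
      refine quot_cong q.1.2.1 (hI0 _) hb ?_ hk hv
      have h1 := Ideal.Quotient.eq.1 e2
      have hle : m * Ideal.span {(N : 𝓞 K)} ≤ m * (I (cl q.1.1) : Ideal (𝓞 K)) := by
        refine Ideal.mul_mono_right ?_
        rw [Ideal.span_le, Set.singleton_subset_iff]
        exact hNI _
      exact hle h1
    · intro s
      rw [map_div₀]
      have hsa : s (g p.1.1 : K) ≠ 0 := by
        rw [Ne, map_eq_zero]
        exact ha0'
      have hsb : s (g q.1.1 : K) ≠ 0 := by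
        rw [Ne, map_eq_zero]
        exact hb0'
      have hiff : 0 < s (g p.1.1 : K) ↔ 0 < s (g q.1.1 : K) := by
        have := Set.ext_iff.1 e3 s
        simpa using this
      rcases lt_or_gt_of_ne hsa with h | h
      · have hb' : s (g q.1.1 : K) < 0 := by
          rcases lt_or_gt_of_ne hsb with h' | h'
          · exact h'
          · exact absurd (hiff.2 h') (not_lt.2 h.le)
        exact div_pos_of_neg_of_neg h hb'
      · exact div_pos h (hiff.1 h)

end H36MT
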