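import Pool.Agent.H36.MT.Dg
import Pool.Agent.H76.PP.Lb
import Pool.Agent.H76.PP.Lc
import Pool.Agent.H36.PP.Nb

/-!
ROW Pw (project MP_78d38b_MT, about 170 lines): few pairs have a discriminant divisible by a high power of a given prime. Use only
the STATEMENTS `coset_upper` (H76/PP/Lc), `bx_upper`, `bx_finite` (H76/PP/Lb), `Bx_finite` (H36/PP/Nb). `n = finrank ℚ K`, `q = Nv v ≥ 2`.

PROOF of two_cl: let `c` be such that `27 ∉ v^(c+1)` (`27 ≠ 0`; e.g. from `intValuation 27 = exp (-c)`). Let `e ≥ c + 2 g`. If no `B` has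
`dsc A B ∈ v^e` take `B₀ = 0`. Otherwise fix such a `B₀`; for another `B`: `27 (B - B₀)(B + B₀) = dsc A B - dsc A B₀ ∈ v^e`. With the valuation
`V = v.intValuation` (`intValuation_le_pow_iff_mem`): `V 27 * V (B - B₀) * V (B + B₀) ≤ exp (-e)`, `V 27 ≥ exp (-c)`, so
`V (B - B₀) * V (B + B₀) ≤ exp (-2 g)`, so one of the two factors is `≤ exp (-g)`.

PROOF of pow_count for one `v`: with `C` of `coset_upper`, `C'` of `bx_upper`: choose `g` with `4 C C' / q^g ≤ ε / 2`... and `e = c + 2 g`. For each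
`A ∈ bx K (X^2)` (at most `C' X^(2n)` of them, `X ≥ 1`) the set of `B ∈ bx K (X^3)` with `dsc A B ∈ v^e` is contained in the union of two
classes modulo `v^g`: at most `2 C (X^(3n) / q^g + 1)` elements (`absNorm (v^g) = q^g`). Total `≤ 2 C C' (X^(5n)/q^g + X^(2n)) ≤ ε X^(5n)` for `X` large
(`X^(2n) ≤ X^(5n) / X^(3n)`, `X^(3n) ≥ X`). Monotone: `v^e' ≤ v^e` for `e' ≥ e`, so the bound holds for all exponents `≥ e`.
For a finite set `S`: take `ε / (S.card + 1)` for each `v ∈ S`, the maximum of the exponents and of the `X₀`, and the union bound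
(`Finset.set_ncard_biUnion_le`).
-/

set_option autoImplicit false
set_option linter.unusedSectionVars false
open scoped Classical

open WithZero NumberField IsDedekindDomain
open H76PP H36PP

namespace H36MT

variable (K : Type) [Field K] [NumberField K]

theorem two_cl {K : Type} [Field K] [NumberField K] (v : HeightOneSpectrum (𝓞 K)) :
    ∃ c : ℕ, ∀ g : ℕ, ∀ A : 𝓞 K, ∃ B₀ : 𝓞 K, ∀ B : 𝓞 K, dsc A B ∈ v.asIdeal ^ (c + 2 * g) →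
      B - B₀ ∈ v.asIdeal ^ g ∨ B - (-B₀) ∈ v.asIdeal ^ g := by
  have h27 : (27 : 𝓞 K) ≠ 0 := by norm_num
  have hV : v.intValuation (27 : 𝓞 K) ≠ 0 := v.intValuation_ne_zero _ h27
  obtain ⟨n, hn⟩ : ∃ n : ℤ, v.intValuation (27 : 𝓞 K) = exp n := ⟨log _, (exp_log hV).symm⟩
  refine ⟨(-n).toNat, fun g A => ?_⟩
  by_cases h : ∃ B : 𝓞 K, dsc A B ∈ v.asIdeal ^ ((-n).toNat + 2 * g)
  · obtain ⟨B₀, hB₀⟩ := h
    refine ⟨B₀, fun B hB => ?_⟩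
    by_contra hcon
    rw [not_or] at hcon
    obtain ⟨h1, h2⟩ := hcon
    have h3 : 27 * ((B - B₀) * (B - (-B₀))) ∈ v.asIdeal ^ ((-n).toNat + 2 * g) := by
      have h4 : 27 * ((B - B₀) * (B - (-B₀))) = dsc A B - dsc A B₀ := by
        unfold dsc
        ring
      rw [h4]
      exact Ideal.sub_mem _ hB hB₀
    rw [← v.intValuation_le_pow_iff_mem, not_le] at h1 h2
    rw [← v.intValuation_le_pow_iff_mem, map_mul, map_mul, hn] at h3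
    obtain ⟨n1, hn1⟩ : ∃ m : ℤ, v.intValuation (B - B₀) = exp m :=
      ⟨log _, (exp_log (ne_zero_of_lt h1)).symm⟩
    obtain ⟨n2, hn2⟩ : ∃ m : ℤ, v.intValuation (B - (-B₀)) = exp m :=
      ⟨log _, (exp_log (ne_zero_of_lt h2)).symm⟩
    rw [hn1, exp_lt_exp] at h1
    rw [hn2, exp_lt_exp] at h2
    rw [hn1, hn2, ← exp_add, ← exp_add, exp_le_exp] at h3
    have h5 := Int.self_le_toNat (-n)
    push_cast at h3
    omega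
  · exact ⟨0, fun B hB => absurd ⟨B, hB⟩ h⟩

private theorem Pw_pow {X : ℝ} (hX : 1 ≤ X) (n : ℕ) (hn : 0 < n) : X ≤ X ^ n :=
  le_self_pow₀ hX hn.ne'

private theorem pow_one' (v : HeightOneSpectrum (𝓞 K)) {ε : ℝ} (hε : 0 < ε) :
    ∃ (e : ℕ) (X₀ : ℝ), 1 ≤ X₀ ∧ ∀ e' : ℕ, e ≤ e' → ∀ X : ℝ, X₀ ≤ X →
      ({p : 𝓞 K × 𝓞 K | p ∈ Bx K X ∧ dsc p.1 p.2 ∈ v.asIdeal ^ e'}.ncard : ℝ) ≤
        ε * X ^ (5 * Module.finrank ℚ K) := by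
  obtain ⟨c, hc⟩ := two_cl v
  obtain ⟨C, hC1, hC⟩ := coset_upper K
  obtain ⟨C', hC1', hC'⟩ := bx_upper K
  obtain ⟨n, hn⟩ : ∃ n, n = Module.finrank ℚ K := ⟨_, rfl⟩
  have hn0 : 0 < n := by rw [hn]; exact Module.finrank_pos
  rw [← hn] at hC hC' ⊢
  obtain ⟨q, hq⟩ : ∃ q : ℕ, q = Ideal.absNorm v.asIdeal := ⟨_, rfl⟩
  have hq2 : 2 ≤ q := by
    have h0 : q ≠ 0 := by
      rw [hq]
      exact Ideal.absNorm_ne_zero_iff_mem_nonZeroDivisors.2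
        (mem_nonZeroDivisors_iff_ne_zero.2 v.ne_bot)
    have h1 : q ≠ 1 := by
      rw [hq]
      intro h
      exact v.isPrime.ne_top (Ideal.absNorm_eq_one_iff.1 h)
    omega
  have hq2' : (2 : ℝ) ≤ q := by exact_mod_cast hq2
  obtain ⟨D, hD⟩ : ∃ D : ℝ, D = 2 * C * C' := ⟨_, rfl⟩
  have hD0 : 0 < D := by rw [hD]; positivity
  obtain ⟨g, hg⟩ := pow_unbounded_of_one_lt (D / (ε / 2)) (show (1 : ℝ) < q by linarith)
  have hqg : (0 : ℝ) < (q : ℝ) ^ g := by positivity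
  have hg' : D / (q : ℝ) ^ g ≤ ε / 2 := by
    rw [div_le_iff₀ hqg]
    rw [div_lt_iff₀ (by positivity)] at hg
    linarith
  refine ⟨c + 2 * g, max 1 (D / (ε / 2)), le_max_left _ _, fun e' he' X hX => ?_⟩
  have hX1 : 1 ≤ X := (le_max_left _ _).trans hX
  have hX2 : D / (ε / 2) ≤ X := (le_max_right _ _).trans hX
  have hX0 : 0 < X := by linarith
  obtain ⟨b, hb⟩ : ∃ b : ℝ, b = 2 * (C * ((X ^ 3) ^ n / (q : ℝ) ^ g + 1)) := ⟨_, rfl⟩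
  have hb0 : 0 ≤ b := by rw [hb]; positivity
  obtain ⟨F, hF⟩ : ∃ F, F = (H76PP.bx_finite K (X ^ 2)).toFinset := ⟨_, rfl⟩
  have hfin3 := H76PP.bx_finite K (X ^ 3)
  have hT : ∀ A : 𝓞 K, ({B : 𝓞 K | B ∈ bx K (X ^ 3) ∧ dsc A B ∈ v.asIdeal ^ e'}.ncard : ℝ) ≤ b := by
    intro A
    obtain ⟨B₀, hB₀⟩ := hc g A
    have hcos : ∀ B₁ : 𝓞 K, ({B : 𝓞 K | B ∈ bx K (X ^ 3) ∧ B - B₁ ∈ v.asIdeal ^ g}.ncard : ℝ) ≤
        C * ((X ^ 3) ^ n / (q : ℝ) ^ g + 1) := by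
      intro B₁
      have h1 := hC (v.asIdeal ^ g) (pow_ne_zero g v.ne_bot) B₁ (X ^ 3) (by positivity)
      rw [map_pow, ← hq] at h1
      push_cast at h1
      exact h1
    have hsub : {B : 𝓞 K | B ∈ bx K (X ^ 3) ∧ dsc A B ∈ v.asIdeal ^ e'} ⊆
        {B : 𝓞 K | B ∈ bx K (X ^ 3) ∧ B - B₀ ∈ v.asIdeal ^ g} ∪
          {B : 𝓞 K | B ∈ bx K (X ^ 3) ∧ B - (-B₀) ∈ v.asIdeal ^ g} := by
      rintro B ⟨h1, h2⟩
      rcases hB₀ B (Ideal.pow_le_pow_right he' h2) with h | h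
      · exact Or.inl ⟨h1, h⟩
      · exact Or.inr ⟨h1, h⟩
    have h1 := Set.ncard_le_ncard hsub ((hfin3.subset fun _ h => h.1).union
      (hfin3.subset fun _ h => h.1))
    have h2 := Set.ncard_union_le {B : 𝓞 K | B ∈ bx K (X ^ 3) ∧ B - B₀ ∈ v.asIdeal ^ g}
          {B : 𝓞 K | B ∈ bx K (X ^ 3) ∧ B - (-B₀) ∈ v.asIdeal ^ g}
    have h3 : ({B : 𝓞 K | B ∈ bx K (X ^ 3) ∧ dsc A B ∈ v.asIdeal ^ e'}.ncard : ℝ) ≤
        ({B : 𝓞 K | B ∈ bx K (X ^ 3) ∧ B - B₀ ∈ v.asIdeal ^ g}.ncard : ℝ) +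
          ({B : 𝓞 K | B ∈ bx K (X ^ 3) ∧ B - (-B₀) ∈ v.asIdeal ^ g}.ncard : ℝ) := by
      exact_mod_cast h1.trans h2
    have h4 := hcos B₀
    have h5 := hcos (-B₀)
    rw [hb]
    linarith
  have hsub : {p : 𝓞 K × 𝓞 K | p ∈ Bx K X ∧ dsc p.1 p.2 ∈ v.asIdeal ^ e'} ⊆
      ⋃ A ∈ F, (fun B : 𝓞 K => (A, B)) ''
        {B : 𝓞 K | B ∈ bx K (X ^ 3) ∧ dsc A B ∈ v.asIdeal ^ e'} := by
    rintro ⟨A, B⟩ ⟨h1, h2⟩
    rw [Set.mem_iUnion₂]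
    refine ⟨A, ?_, B, ⟨h1.2, h2⟩, rfl⟩
    rw [hF, Set.Finite.mem_toFinset]
    exact h1.1
  have hfinU : (⋃ A ∈ F, (fun B : 𝓞 K => (A, B)) ''
        {B : 𝓞 K | B ∈ bx K (X ^ 3) ∧ dsc A B ∈ v.asIdeal ^ e'}).Finite :=
    Set.Finite.biUnion F.finite_toSet fun A _ => (hfin3.subset fun _ h => h.1).image _
  have h1 := Set.ncard_le_ncard hsub hfinU
  have h2 := Finset.set_ncard_biUnion_le F (fun A => (fun B : 𝓞 K => (A, B)) ''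
        {B : 𝓞 K | B ∈ bx K (X ^ 3) ∧ dsc A B ∈ v.asIdeal ^ e'})
  have h3 : ((∑ A ∈ F, ((fun B : 𝓞 K => (A, B)) ''
        {B : 𝓞 K | B ∈ bx K (X ^ 3) ∧ dsc A B ∈ v.asIdeal ^ e'}).ncard : ℕ) : ℝ) ≤
      (F.card : ℝ) * b := by
    push_cast
    rw [← nsmul_eq_mul]
    refine Finset.sum_le_card_nsmul _ _ _ fun A _ => ?_
    have h4 : (((fun B : 𝓞 K => (A, B)) ''
        {B : 𝓞 K | B ∈ bx K (X ^ 3) ∧ dsc A B ∈ v.asIdeal ^ e'}).ncard : ℝ) ≤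
        ({B : 𝓞 K | B ∈ bx K (X ^ 3) ∧ dsc A B ∈ v.asIdeal ^ e'}.ncard : ℝ) := by
      have h6 : {B : 𝓞 K | B ∈ bx K (X ^ 3) ∧ dsc A B ∈ v.asIdeal ^ e'}.Finite :=
        hfin3.subset fun _ h => h.1
      exact_mod_cast Set.ncard_image_le h6
    exact h4.trans (hT A)
  have h4 : (F.card : ℝ) ≤ C' * (X ^ 2) ^ n := by
    have h5 := hC' (X ^ 2) (one_le_pow₀ hX1)
    rw [Set.ncard_eq_toFinset_card _ (H76PP.bx_finite K (X ^ 2)), ← hF] at h5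
    exact h5
  have h5 : ({p : 𝓞 K × 𝓞 K | p ∈ Bx K X ∧ dsc p.1 p.2 ∈ v.asIdeal ^ e'}.ncard : ℝ) ≤
      (F.card : ℝ) * b := le_trans (by exact_mod_cast h1.trans h2) h3
  refine h5.trans ((mul_le_mul_of_nonneg_right h4 hb0).trans ?_)
  have e1 : C' * (X ^ 2) ^ n * b = D / (q : ℝ) ^ g * X ^ (5 * n) + D * X ^ (2 * n) := by
    rw [hb, hD, ← pow_mul, ← pow_mul, show 5 * n = 2 * n + 3 * n by ring, pow_add]
    field_simp
  have e2 : D * X ^ (2 * n) ≤ ε / 2 * X ^ (5 * n) := by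
    have h6 : D ≤ ε / 2 * X ^ (3 * n) := by
      have h7 : X ≤ X ^ (3 * n) := Pw_pow hX1 _ (by omega)
      rw [div_le_iff₀ (by positivity)] at hX2
      have h8 : X * (ε / 2) ≤ X ^ (3 * n) * (ε / 2) := mul_le_mul_of_nonneg_right h7 (by positivity)
      linarith
    have h7 : (0 : ℝ) < X ^ (2 * n) := by positivity
    have h8 := mul_le_mul_of_nonneg_right h6 h7.le
    refine h8.trans (le_of_eq ?_)
    rw [show 5 * n = 3 * n + 2 * n by ring, pow_add]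
    ring
  have e3 : D / (q : ℝ) ^ g * X ^ (5 * n) ≤ ε / 2 * X ^ (5 * n) :=
    mul_le_mul_of_nonneg_right hg' (by positivity)
  rw [e1]
  linarith

private theorem pow_all (S : Finset (HeightOneSpectrum (𝓞 K))) : ∀ ε : ℝ, 0 < ε →
    ∃ (e : ℕ) (X₀ : ℝ), 1 ≤ X₀ ∧ ∀ e' : ℕ, e ≤ e' → ∀ X : ℝ, X₀ ≤ X →
      ({p : 𝓞 K × 𝓞 K | p ∈ Bx K X ∧ ∃ v ∈ S, dsc p.1 p.2 ∈ v.asIdeal ^ e'}.ncard : ℝ) ≤
        ε * X ^ (5 * Module.finrank ℚ K) := by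
  induction S using Finset.induction_on with
  | empty =>
    intro ε hε
    refine ⟨0, 1, le_rfl, fun e' _ X hX => ?_⟩
    have h1 : {p : 𝓞 K × 𝓞 K | p ∈ Bx K X ∧
        ∃ v ∈ (∅ : Finset (HeightOneSpectrum (𝓞 K))), dsc p.1 p.2 ∈ v.asIdeal ^ e'} = ∅ := by
      ext p
      simp
    rw [h1, Set.ncard_empty]
    have : 0 < X := by linarith
    push_cast
    positivity
  | insert v S hv ih =>
    intro ε hε
    obtain ⟨e₁, X₁, hX₁, h1⟩ := pow_one' K v (half_pos hε)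
    obtain ⟨e₂, X₂, hX₂, h2⟩ := ih (ε / 2) (half_pos hε)
    refine ⟨max e₁ e₂, max X₁ X₂, hX₁.trans (le_max_left _ _), fun e' he' X hX => ?_⟩
    have h3 := h1 e' ((le_max_left _ _).trans he') X ((le_max_left _ _).trans hX)
    have h4 := h2 e' ((le_max_right _ _).trans he') X ((le_max_right _ _).trans hX)
    have hsub : {p : 𝓞 K × 𝓞 K | p ∈ Bx K X ∧ ∃ w ∈ insert v S, dsc p.1 p.2 ∈ w.asIdeal ^ e'} ⊆
        {p : 𝓞 K × 𝓞 K | p ∈ Bx K X ∧ dsc p.1 p.2 ∈ v.asIdeal ^ e'} ∪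
          {p : 𝓞 K × 𝓞 K | p ∈ Bx K X ∧ ∃ w ∈ S, dsc p.1 p.2 ∈ w.asIdeal ^ e'} := by
      rintro p ⟨hp, w, hw, hd⟩
      rw [Finset.mem_insert] at hw
      rcases hw with rfl | hw
      · exact Or.inl ⟨hp, hd⟩
      · exact Or.inr ⟨hp, w, hw, hd⟩
    have h5 := Set.ncard_le_ncard hsub (((H36PP.Bx_finite K X).subset fun _ h => h.1).union
      ((H36PP.Bx_finite K X).subset fun _ h => h.1))
    have h6 := Set.ncard_union_le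
      {p : 𝓞 K × 𝓞 K | p ∈ Bx K X ∧ dsc p.1 p.2 ∈ v.asIdeal ^ e'}
      {p : 𝓞 K × 𝓞 K | p ∈ Bx K X ∧ ∃ w ∈ S, dsc p.1 p.2 ∈ w.asIdeal ^ e'}
    have h7 : ({p : 𝓞 K × 𝓞 K | p ∈ Bx K X ∧ ∃ w ∈ insert v S,
        dsc p.1 p.2 ∈ w.asIdeal ^ e'}.ncard : ℝ) ≤
        ({p : 𝓞 K × 𝓞 K | p ∈ Bx K X ∧ dsc p.1 p.2 ∈ v.asIdeal ^ e'}.ncard : ℝ) +
          ({p : 𝓞 K × 𝓞 K | p ∈ Bx K X ∧ ∃ w ∈ S, dsc p.1 p.2 ∈ w.asIdeal ^ e'}.ncard : ℝ) := by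
      exact_mod_cast h5.trans h6
    linarith

theorem pow_count (S : Finset (HeightOneSpectrum (𝓞 K))) {ε : ℝ} (hε : 0 < ε) :
    ∃ (e : ℕ) (X₀ : ℝ), 1 ≤ X₀ ∧ ∀ X : ℝ, X₀ ≤ X →
      ({p : 𝓞 K × 𝓞 K | p ∈ Bx K X ∧ ∃ v ∈ S, dsc p.1 p.2 ∈ v.asIdeal ^ e}.ncard : ℝ) ≤
        ε * X ^ (5 * Module.finrank ℚ K) := by
  obtain ⟨e, X₀, h1, h2⟩ := pow_all K S ε hε
  exact ⟨e, X₀, h1, h2 e le_rfl⟩

theorem zero_count {ε : ℝ} (hε : 0 < ε) : ∃ X₀ : ℝ, 1 ≤ X₀ ∧ ∀ X : ℝ, X₀ ≤ X →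
      ({p : 𝓞 K × 𝓞 K | p ∈ Bx K X ∧ p.1 = 0}.ncard : ℝ) ≤
        ε * X ^ (5 * Module.finrank ℚ K) := by
  obtain ⟨C', hC1', hC'⟩ := bx_upper K
  obtain ⟨n, hn⟩ : ∃ n, n = Module.finrank ℚ K := ⟨_, rfl⟩
  have hn0 : 0 < n := by rw [hn]; exact Module.finrank_pos
  rw [← hn] at hC' ⊢
  refine ⟨max 1 (C' / ε), le_max_left _ _, fun X hX => ?_⟩
  have hX1 : 1 ≤ X := (le_max_left _ _).trans hX
  have hX2 : C' / ε ≤ X := (le_max_right _ _).trans hX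
  have hX0 : 0 < X := by linarith
  have hsub : {p : 𝓞 K × 𝓞 K | p ∈ Bx K X ∧ p.1 = 0} ⊆
      (fun B : 𝓞 K => ((0 : 𝓞 K), B)) '' (bx K (X ^ 3)) := by
    rintro ⟨A, B⟩ ⟨h1, h2⟩
    refine ⟨B, h1.2, ?_⟩
    have h2' : A = 0 := h2
    rw [h2']
  have hfin3 := H76PP.bx_finite K (X ^ 3)
  have h1 := (Set.ncard_le_ncard hsub (hfin3.image _)).trans (Set.ncard_image_le hfin3)
  have h2 := hC' (X ^ 3) (one_le_pow₀ hX1)
  have h3 : ({p : 𝓞 K × 𝓞 K | p ∈ Bx K X ∧ p.1 = 0}.ncard : ℝ) ≤ C' * (X ^ 3) ^ n :=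
    le_trans (by exact_mod_cast h1) h2
  refine h3.trans ?_
  have h6 : C' ≤ ε * X ^ (2 * n) := by
    have h7 : X ≤ X ^ (2 * n) := Pw_pow hX1 _ (by omega)
    rw [div_le_iff₀ hε] at hX2
    have h8 : X * ε ≤ X ^ (2 * n) * ε := mul_le_mul_of_nonneg_right h7 hε.le
    linarith
  have h7 : (0 : ℝ) < X ^ (3 * n) := by positivity
  have h8 := mul_le_mul_of_nonneg_right h6 h7.le
  rw [← pow_mul]
  refine h8.trans (le_of_eq ?_)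
  rw [show 5 * n = 2 * n + 3 * n by ring, pow_add]
  ring

end H36MT
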