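import Mathlib

/-!
ROW Cf (project MP_78d38b_MT, about 120 lines, Mathlib only): at most about five sixths of the cubic polynomials `x^3 + a x + b` over a
finite field have a root.

PROOF. `q = Nat.card k`. `R` = the set of `(a, b)` with a root, `R₂` = the set of `(a, b)` with two different roots, `R₂ ⊆ R`.
(1) `#R + #R₂ ≤ q^2`: for `r = (a, b) ∈ R` choose a root `f r`, for `r ∈ R₂` choose a root `g r ≠ f r`. The map
`R ⊕ R₂ → k × k`, `inl r ↦ (r.1, f r)`, `inr r ↦ (r.1, g r)` is injective: `b = - t^3 - a t` is determined by `(a, t)`, so `r` is determined by the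
value, and `f r ≠ g r`.
(2) `q (q - 1) ≤ 6 #R₂`: the map `(s, t) ↦ (-(s^2 + s t + t^2), s t (s + t))` from the pairs with `s ≠ t` (there are `q^2 - q` of them,
`Finset.offDiag_card`) to `R₂` (`(x - s)(x - t)(x + s + t) = x^3 - (s^2 + s t + t^2) x + s t (s + t)`) has fibres with at most 6
elements: if `(s', t')` has the same image then `s'` is a root of `(x - s)(x - t)(x + s + t)`, so `s' ∈ {s, t, -s-t}`, and `t'` as well, `s' ≠ t'`:
at most `3 * 2` pairs (the fibre is contained in the off-diagonal of the finset `{s, t, -s-t}` of at most 3 elements).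
`Finset.card_le_mul_card_image_of_maps_to`.
(3) `6 #R + q (q - 1) ≤ 6 #R + 6 #R₂ ≤ 6 q^2`.
-/

set_option autoImplicit false

namespace H36MT

/-- the cubic of a pair -/
def Cf_rt {k : Type} [Field k] (p : k × k) (t : k) : Prop := t ^ 3 + p.1 * t + p.2 = 0

theorem Cf_det {k : Type} [Field k] {p p' : k × k} {t : k} (h : Cf_rt p t) (h' : Cf_rt p' t)
    (h1 : p.1 = p'.1) : p = p' := by
  refine Prod.ext h1 ?_
  unfold Cf_rt at h h'
  rw [← h1] at h'
  linear_combination h - h'

theorem card_root (k : Type) [Field k] [Finite k] :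
    6 * {p : k × k | ∃ t : k, t ^ 3 + p.1 * t + p.2 = 0}.ncard + Nat.card k * (Nat.card k - 1) ≤
      6 * Nat.card k ^ 2 := by
  classical
  have hft : Fintype k := Fintype.ofFinite k
  obtain ⟨R, hR⟩ : ∃ R : Finset (k × k), R = Finset.univ.filter (fun p => ∃ t : k, Cf_rt p t) := ⟨_, rfl⟩
  obtain ⟨R2, hR2⟩ : ∃ R2 : Finset (k × k), R2 = Finset.univ.filter
    (fun p => ∃ s t : k, s ≠ t ∧ Cf_rt p s ∧ Cf_rt p t) := ⟨_, rfl⟩
  have hRc : {p : k × k | ∃ t : k, t ^ 3 + p.1 * t + p.2 = 0}.ncard = R.card := by
    rw [← Set.ncard_coe_finset R]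
    congr 1
    ext p
    rw [hR]
    simp only [Set.mem_setOf_eq, Finset.coe_filter, Finset.mem_univ, true_and, Cf_rt]
  have hq : Nat.card k = Fintype.card k := Nat.card_eq_fintype_card
  -- step 1
  have h1 : R.card + R2.card ≤ Fintype.card k ^ 2 := by
    have hf : ∀ p : k × k, ∃ t : k, p ∈ R → Cf_rt p t := by
      intro p
      by_cases hp : p ∈ R
      · have h2 := hp
        rw [hR, Finset.mem_filter] at h2
        obtain ⟨t, ht⟩ := h2.2
        exact ⟨t, fun _ => ht⟩
      · exact ⟨0, fun h => absurd h hp⟩
    choose f hf using hf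
    have hg : ∀ p : k × k, ∃ t : k, p ∈ R2 → Cf_rt p t ∧ t ≠ f p := by
      intro p
      by_cases hp : p ∈ R2
      · have h2 := hp
        rw [hR2, Finset.mem_filter] at h2
        obtain ⟨s, t, hst, hs, ht⟩ := h2.2
        by_cases hsf : s = f p
        · exact ⟨t, fun _ => ⟨ht, fun h => hst (hsf.trans h.symm)⟩⟩
        · exact ⟨s, fun _ => ⟨hs, hsf⟩⟩
      · exact ⟨0, fun h => absurd h hp⟩
    choose g hg using hg
    have hRR : R2 ⊆ R := by
      intro p hp
      rw [hR2, Finset.mem_filter] at hp
      rw [hR, Finset.mem_filter]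
      obtain ⟨s, t, hst, hs, ht⟩ := hp.2
      exact ⟨Finset.mem_univ _, s, hs⟩
    have i1 : (R.image (fun p => (p.1, f p))).card = R.card := by
      refine Finset.card_image_of_injOn fun p hp p' hp' h => ?_
      have e1 := congrArg Prod.fst h
      have e2 := congrArg Prod.snd h
      simp only at e1 e2
      have h3 := hf p' hp'
      rw [← e2] at h3
      exact Cf_det (hf p hp) h3 e1
    have i2 : (R2.image (fun p => (p.1, g p))).card = R2.card := by
      refine Finset.card_image_of_injOn fun p hp p' hp' h => ?_
      have e1 := congrArg Prod.fst h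
      have e2 := congrArg Prod.snd h
      simp only at e1 e2
      have h3 := (hg p' hp').1
      rw [← e2] at h3
      exact Cf_det (hg p hp).1 h3 e1
    have hd : Disjoint (R.image (fun p => (p.1, f p))) (R2.image (fun p => (p.1, g p))) := by
      rw [Finset.disjoint_left]
      intro x hx hx'
      rw [Finset.mem_image] at hx hx'
      obtain ⟨p, hp, rfl⟩ := hx
      obtain ⟨p', hp', h⟩ := hx'
      have e1 := congrArg Prod.fst h
      have e2 := congrArg Prod.snd h
      simp only at e1 e2
      have h3 := (hg p' hp').1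
      rw [e2] at h3
      have h4 : p = p' := Cf_det (hf p hp) h3 e1.symm
      subst h4
      exact (hg p hp').2 e2
    rw [← i1, ← i2, ← Finset.card_union_of_disjoint hd]
    refine (Finset.card_le_univ _).trans ?_
    rw [Fintype.card_prod, pow_two]
  -- step 2
  have h2 : Fintype.card k * (Fintype.card k - 1) ≤ 6 * R2.card := by
    have hmaps : ∀ x ∈ (Finset.univ : Finset k).offDiag,
        (-(x.1 ^ 2 + x.1 * x.2 + x.2 ^ 2), x.1 * x.2 * (x.1 + x.2)) ∈ R2 := by
      intro x hx
      rw [Finset.mem_offDiag] at hx
      rw [hR2, Finset.mem_filter]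
      refine ⟨Finset.mem_univ _, x.1, x.2, hx.2.2, ?_, ?_⟩
      · unfold Cf_rt
        simp only
        ring
      · unfold Cf_rt
        simp only
        ring
    have h3 := Finset.card_le_mul_card_image_of_maps_to (f := fun x : k × k =>
      (-(x.1 ^ 2 + x.1 * x.2 + x.2 ^ 2), x.1 * x.2 * (x.1 + x.2))) hmaps 6 (fun b _ => ?_)
    · rw [Finset.offDiag_card, Finset.card_univ] at h3
      rw [Nat.mul_sub_one]
      exact h3
    · rcases (Finset.filter (fun x : k × k => (-(x.1 ^ 2 + x.1 * x.2 + x.2 ^ 2), x.1 * x.2 * (x.1 + x.2)) = b)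
        (Finset.univ : Finset k).offDiag).eq_empty_or_nonempty with he | ⟨y, hy⟩
      · rw [he]
        simp
      · rw [Finset.mem_filter] at hy
        have hsub : Finset.filter (fun x : k × k => (-(x.1 ^ 2 + x.1 * x.2 + x.2 ^ 2), x.1 * x.2 * (x.1 + x.2)) = b)
            (Finset.univ : Finset k).offDiag ⊆ ({y.1, y.2, -y.1 - y.2} : Finset k).offDiag := by
          intro x hx
          rw [Finset.mem_filter, Finset.mem_offDiag] at hx
          have e := hx.2.trans hy.2.symm
          have e1 := congrArg Prod.fst e
          have e2 := congrArg Prod.snd e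
          simp only at e1 e2
          have hz : ∀ z : k, (z - x.1) * (z - x.2) * (z + x.1 + x.2) = 0 → z ∈ ({y.1, y.2, -y.1 - y.2} : Finset k) := by
            intro z hz
            have h5 : (z - y.1) * (z - y.2) * (z + y.1 + y.2) = 0 := by
              linear_combination hz - z * e1 - e2
            rw [Finset.mem_insert, Finset.mem_insert, Finset.mem_singleton]
            rcases mul_eq_zero.1 h5 with h6 | h6
            · rcases mul_eq_zero.1 h6 with h7 | h7
              · left
                linear_combination h7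
              · right; left
                linear_combination h7
            · right; right
              linear_combination h6
          rw [Finset.mem_offDiag]
          refine ⟨hz _ (by ring), hz _ (by ring), hx.1.2.2⟩
        refine (Finset.card_le_card hsub).trans ?_
        rw [Finset.offDiag_card]
        have h8 : ({y.1, y.2, -y.1 - y.2} : Finset k).card ≤ 3 := Finset.card_le_three
        have h9 : ∀ n : ℕ, n ≤ 3 → n * n - n ≤ 6 := by
          intro n hn
          interval_cases n <;> norm_num
        exact h9 _ h8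
  rw [hRc, hq]
  omega

end H36MT
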