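import Pool.Agent.H36.MT.Cu
import Pool.Agent.H36.MT.Cf
import Pool.Agent.H36.PP.Dv
import Pool.Agent.H36.PP.Sm

/-!
ROW Rt (project MP_78d38b_MT, about 110 lines): few polynomials have a root modulo all primes of a large set. Use only the STATEMENTS
`count_prod` (Cu), `card_root` (Cf), `five_le` (`H36PP`, Sm).

PROOF. (1) `rt_iff`: `(∃ t : 𝓞 K, t^3 + p.1 t + p.2 ∈ v.asIdeal) ↔ rs v.asIdeal p ∈ RtS (𝓞 K ⧸ v.asIdeal)`: `Ideal.Quotient.mk_surjective`,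
`Ideal.Quotient.eq_zero_iff_mem`, `map_add`, `map_mul`, `map_pow` (compare `Dv_Pq` in `Pool/Agent/H36/PP/Dv.lean`).
(2) `rt_dens`: for `6 ∉ v`: `((RtS (𝓞 K ⧸ v)).ncard : ℝ) / (Nv v)^2 ≤ 13/15`: `q = Nv v = Nat.card (𝓞 K ⧸ v)` (`Dv_card`), `q ≥ 5`,
`6 #RtS + q (q - 1) ≤ 6 q^2`, so `#RtS ≤ q^2 (1 - (q-1)/(6q)) ≤ (13/15) q^2` (`(q - 1)/(6 q) ≥ 4/30` as `q ≥ 5`).
(3) `C` from `count_prod`; choose `r₁` with `C * (13/15)^r₁ ≤ ε`. For `Z` with `r₁ ≤ Z.card` the number is at most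
`C * ∏ v ∈ Z, (13/15) * X^(5n) = C (13/15)^(Z.card) X^(5n) ≤ ε X^(5n)` (`Finset.prod_le_prod`, `pow_le_pow_of_le_one`).
-/

set_option autoImplicit false
set_option linter.unusedSectionVars false
open scoped Classical

open NumberField IsDedekindDomain
open H76PP H36PP

namespace H36MT

variable (K : Type) [Field K] [NumberField K]

theorem rt_iff {K : Type} [Field K] [NumberField K] (v : HeightOneSpectrum (𝓞 K))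
    (p : 𝓞 K × 𝓞 K) : (∃ t : 𝓞 K, t ^ 3 + p.1 * t + p.2 ∈ v.asIdeal) ↔
      rs v.asIdeal p ∈ RtS (𝓞 K ⧸ v.asIdeal) := by
  constructor
  · rintro ⟨t, ht⟩
    refine ⟨Ideal.Quotient.mk v.asIdeal t, ?_⟩
    have h := Ideal.Quotient.eq_zero_iff_mem.2 ht
    rw [map_add, map_add, map_mul, map_pow] at h
    exact h
  · rintro ⟨t, ht⟩
    obtain ⟨t', rfl⟩ := Ideal.Quotient.mk_surjective t
    refine ⟨t', ?_⟩
    rw [← Ideal.Quotient.eq_zero_iff_mem, map_add, map_add, map_mul, map_pow]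
    exact ht

theorem rt_dens {K : Type} [Field K] [NumberField K] {v : HeightOneSpectrum (𝓞 K)}
    (h : (6 : 𝓞 K) ∉ v.asIdeal) :
    ((RtS (𝓞 K ⧸ v.asIdeal)).ncard : ℝ) / (Nv v : ℝ) ^ 2 ≤ 13 / 15 := by
  have hfin : Finite (𝓞 K ⧸ v.asIdeal) := Dv_fin v.ne_bot
  have h1 := card_root (𝓞 K ⧸ v.asIdeal)
  have h2 : Nat.card (𝓞 K ⧸ v.asIdeal) = Nv v := (Dv_card v.asIdeal).symm
  rw [h2] at h1
  have h5 := five_le K h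
  obtain ⟨r, hr⟩ : ∃ r : ℕ, r = (RtS (𝓞 K ⧸ v.asIdeal)).ncard := ⟨_, rfl⟩
  have h3 : 6 * r + Nv v * (Nv v - 1) ≤ 6 * Nv v ^ 2 := by
    rw [hr]
    exact h1
  rw [← hr]
  have h4 : ((6 * r + Nv v * (Nv v - 1) : ℕ) : ℝ) ≤ ((6 * Nv v ^ 2 : ℕ) : ℝ) := by
    exact_mod_cast h3
  rw [Nat.cast_add, Nat.cast_mul, Nat.cast_mul, Nat.cast_mul, Nat.cast_pow,
    Nat.cast_sub (by omega : 1 ≤ Nv v)] at h4
  push_cast at h4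
  have h6 : (5 : ℝ) ≤ (Nv v : ℝ) := by exact_mod_cast h5
  rw [div_le_iff₀ (by positivity)]
  nlinarith [h4, h6]

theorem root_count {ε : ℝ} (hε : 0 < ε) : ∃ r₁ : ℕ, ∀ Z : Finset (HeightOneSpectrum (𝓞 K)),
    r₁ ≤ Z.card → (∀ v ∈ Z, (6 : 𝓞 K) ∉ v.asIdeal) → ∃ X₀ : ℝ, 1 ≤ X₀ ∧ ∀ X : ℝ, X₀ ≤ X →
      ({p : 𝓞 K × 𝓞 K | p ∈ Bx K X ∧ ∀ v ∈ Z, ∃ t : 𝓞 K,
        t ^ 3 + p.1 * t + p.2 ∈ v.asIdeal}.ncard : ℝ) ≤ ε * X ^ (5 * Module.finrank ℚ K) := by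
  obtain ⟨C, hC1, hC⟩ := count_prod K
  have hC0 : 0 < C := by linarith
  obtain ⟨r₁, hr⟩ := exists_pow_lt_of_lt_one (div_pos hε hC0) (by norm_num : (13 / 15 : ℝ) < 1)
  refine ⟨r₁, fun Z hZ h6 => ?_⟩
  obtain ⟨X₀, hX1, hX⟩ := hC Z (fun v => RtS (𝓞 K ⧸ v.asIdeal))
  refine ⟨X₀, hX1, fun X hXX => ?_⟩
  have h1 := hX X hXX
  have he : {p : 𝓞 K × 𝓞 K | p ∈ Bx K X ∧ ∀ v ∈ Z, ∃ t : 𝓞 K,
      t ^ 3 + p.1 * t + p.2 ∈ v.asIdeal} =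
      {p : 𝓞 K × 𝓞 K | p ∈ Bx K X ∧ ∀ v ∈ Z, rs v.asIdeal p ∈ RtS (𝓞 K ⧸ v.asIdeal)} := by
    ext p
    exact and_congr_right fun _ => forall_congr' fun v => forall_congr' fun _ => rt_iff v p
  rw [he]
  refine h1.trans ?_
  have hX0 : 0 ≤ X ^ (5 * Module.finrank ℚ K) := pow_nonneg (by linarith) _
  refine mul_le_mul_of_nonneg_right ?_ hX0
  have h2 : ∏ v ∈ Z, ((RtS (𝓞 K ⧸ v.asIdeal)).ncard : ℝ) / (Nv v : ℝ) ^ 2 ≤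
      (13 / 15 : ℝ) ^ Z.card := by
    rw [← Finset.prod_const]
    exact Finset.prod_le_prod (fun v _ => by positivity) (fun v hv => rt_dens (h6 v hv))
  have h3 : (13 / 15 : ℝ) ^ Z.card ≤ (13 / 15 : ℝ) ^ r₁ :=
    pow_le_pow_of_le_one (by norm_num) (by norm_num) hZ
  have h4 : ∏ v ∈ Z, ((RtS (𝓞 K ⧸ v.asIdeal)).ncard : ℝ) / (Nv v : ℝ) ^ 2 ≤ ε / C :=
    h2.trans (h3.trans hr.le)
  calc C * ∏ v ∈ Z, ((RtS (𝓞 K ⧸ v.asIdeal)).ncard : ℝ) / (Nv v : ℝ) ^ 2 ≤ C * (ε / C) :=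
        mul_le_mul_of_nonneg_left h4 hC0.le
    _ = ε := by field_simp

end H36MT
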