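import Pool.Agent.H36.MT.Dg
import Pool.Agent.H36.PP.Tw

/-!
ROW Tw (project MP_78d38b_MT, about 170 lines): twisting factors congruent to one modulo `m`.

PROOF of exists_mod: `m' = m * Ideal.span {8} * ∏ v ∈ S, v.asIdeal`. Nonzero (`mul_ne_zero`, `Finset.prod_ne_zero_iff`). `m' ≤ m`. For `v ∈ S`:
`m' ≤ v.asIdeal` (`Finset.dvd_prod_of_mem`), and `m' ≤ span {8} * v`: an element `x ∈ m'` is `8 y` with `y ∈ v` (`Ideal.mem_span_singleton_mul`), so
`v x = v 8 * v y < v 8 ≤ v 4` (`v y < 1`, `v 8 ≠ 0`, `8 = 4 * 2`). If `m' ≤ v` for a prime `v` then `v` contains `m` or `8` (so `2`) or some `u ∈ S`, so `u = v`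
(`Ideal.IsPrime.mul_le`, `Ideal.IsPrime.prod_le`; a prime ideal containing the maximal ideal `u` is `u`).

PROOF of mem_of_pow: if `x : 𝓞 K` and `x ∈ v^k` for all `v` and `k > 0` with `m ≤ v^k` then `x ∈ m`: `m ∣ span {x}` because for every prime `v` the
multiplicity `k` of `v` in `m` is at most the one in `span {x}` (`x ≠ 0` w.l.o.g.; `UniqueFactorizationMonoid` / `Ideal.le_of_dvd`,
`Associates.count`, or `Ideal.iInf_...`: `m` is the infimum of the powers `v^k`, `IsDedekindDomain.inf_prime_pow_eq_prod`;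
`Ideal.prod_normalizedFactors_eq_self`; use any form).

PROOF of exists_twistS: `E = ∏ p ∈ J, D p` where `D p` is from `AuxR m q₀ p` (`h p`). `E` has valuation `exp (-1)` at `p ∈ J` (other factors 1, `p ≠ q₀`:
`AuxR.at_p`, `AuxR.at_q` show `p ≠ q₀`), `exp (J.card)` at `q₀`, `1` elsewhere, positive at real places, and `v (E - 1) ≤ exp (-k)` if `0 < k`, `m ≤ v^k`
(induction on `J`: `D E' - 1 = (D - 1) E' + (E' - 1)`, `v E' ≤ 1`). Choose `y : 𝓞 K` with `y - 1 ∈ m`, `y ∈ q₀^(J.card)` (Chinese remainder theorem: `m` and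
`q₀^(J.card)` are coprime as `q₀` is maximal and does not contain `m`: `1 = i + j`, `i ∈ m`, `j ∈ q₀^..`, `y = j`). `y ≠ 0`: otherwise `1 ∈ m`, but `m ≤ v` for a `v`
(`hmt : m ≠ ⊤`). `D = y^2 E` is integral at every `v` (at `q₀`: `exp (-2 card) * exp card ≤ 1`), so it is in `𝓞 K`
(`mem_integers_of_valuation_le_one`). `D - 1 ∈ m`: mem_of_pow, `v (y^2 E - 1) ≤ exp (-k)` as `y^2 E - 1 = (y^2 - 1) E + (E - 1)`. TwS: ne; odd: `ord_p D = 2 ord_p y + 1`;
even: for `v ∉ J`, `v ≠ q₀`: `ord_v D = 2 ord_v y`; loc: `m' = 1`, hypothesis `hS`; pos. (Compare `exists_twist` in `Pool/Agent/H36/PP/Tw.lean`.)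
-/

set_option autoImplicit false
set_option linter.unusedSectionVars false
open scoped Classical

open WithZero NumberField IsDedekindDomain H38RT
open H76PP H36PP

namespace H36MT

variable {K : Type} [Field K] [NumberField K]

private theorem Tw_eight : ¬ IsUnit (8 : 𝓞 K) := by
  intro h
  have h1 : IsUnit (algebraMap ℤ (𝓞 K) 8) := by
    rw [map_ofNat]
    exact h
  have hloc : IsLocalHom (algebraMap ℤ (𝓞 K)) := Algebra.IsIntegral.isLocalHom ℤ (𝓞 K)
  have h2 : IsUnit (8 : ℤ) := isUnit_of_map_unit _ _ h1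
  rw [Int.isUnit_iff] at h2
  omega

theorem exists_mod {m : Ideal (𝓞 K)} (hm : m ≠ ⊥) (S : Finset (HeightOneSpectrum (𝓞 K))) :
    ∃ m' : Ideal (𝓞 K), m' ≠ ⊥ ∧ m' ≠ ⊤ ∧ m' ≤ m ∧
      (∀ v ∈ S, ∀ x ∈ m', v.valuation K (x : K) < v.valuation K 4) ∧
      ∀ v : HeightOneSpectrum (𝓞 K), m' ≤ v.asIdeal → v ∈ S ∨ m ≤ v.asIdeal ∨
        (2 : 𝓞 K) ∈ v.asIdeal := by
  have h8 : (8 : 𝓞 K) ≠ 0 := by norm_num
  have hp : ∏ v ∈ S, v.asIdeal ≠ ⊥ := by
    rw [← Ideal.zero_eq_bot]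
    refine Finset.prod_ne_zero_iff.2 fun v _ => ?_
    rw [Ideal.zero_eq_bot]
    exact v.ne_bot
  refine ⟨m * Ideal.span {8} * ∏ v ∈ S, v.asIdeal, ?_, ?_, ?_, ?_, ?_⟩
  · rw [← Ideal.zero_eq_bot] at hm hp ⊢
    refine mul_ne_zero (mul_ne_zero hm ?_) hp
    rw [Ideal.zero_eq_bot, Ne, Ideal.span_singleton_eq_bot]
    exact h8
  · intro ht
    have h1 : (⊤ : Ideal (𝓞 K)) ≤ Ideal.span {8} := by
      rw [← ht]
      exact Ideal.mul_le_left.trans Ideal.mul_le_right
    have h2 := top_le_iff.1 h1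
    rw [Ideal.span_singleton_eq_top] at h2
    exact Tw_eight h2
  · exact Ideal.mul_le_left.trans Ideal.mul_le_left
  · intro v hv x hx
    have h1 : m * Ideal.span {8} * ∏ v ∈ S, v.asIdeal ≤ Ideal.span {8} * v.asIdeal :=
      Ideal.mul_mono Ideal.mul_le_right
        (Ideal.le_of_dvd (Finset.dvd_prod_of_mem (fun v : HeightOneSpectrum (𝓞 K) => v.asIdeal) hv))
    obtain ⟨y, hy, rfl⟩ := Ideal.mem_span_singleton_mul.1 (h1 hx)
    have h2 : v.valuation K (y : K) < 1 := (v.valuation_lt_one_iff_mem (K := K) y).2 hy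
    have h3 : v.valuation K (2 : K) ≤ 1 := by
      rw [← map_ofNat (algebraMap (𝓞 K) K) 2]
      exact v.valuation_le_one (K := K) (2 : 𝓞 K)
    have h4 : ((8 * y : 𝓞 K) : K) = 4 * (2 * (y : K)) := by
      have e1 : ((8 * y : 𝓞 K) : K) = algebraMap (𝓞 K) K 8 * (y : K) :=
        map_mul (algebraMap (𝓞 K) K) 8 y
      rw [e1, map_ofNat]
      ring
    have h5 : v.valuation K (4 : K) ≠ 0 := by
      rw [Valuation.ne_zero_iff]
      norm_num
    have h6 : v.valuation K (2 * (y : K)) < 1 := by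
      rw [map_mul]
      calc v.valuation K 2 * v.valuation K (y : K) ≤ 1 * v.valuation K (y : K) :=
            mul_le_mul' h3 le_rfl
        _ = v.valuation K (y : K) := one_mul _
        _ < 1 := h2
    rw [h4, map_mul]
    calc v.valuation K 4 * v.valuation K (2 * (y : K)) < v.valuation K 4 * 1 :=
          mul_lt_mul_of_pos_left h6 (zero_lt_iff.2 h5)
      _ = v.valuation K 4 := mul_one _
  · intro v hv
    have hvp := v.isPrime
    rcases hvp.mul_le.1 hv with h | h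
    · rcases hvp.mul_le.1 h with h | h
      · exact Or.inr (Or.inl h)
      · refine Or.inr (Or.inr ?_)
        have h1 : (8 : 𝓞 K) ∈ v.asIdeal := h (Ideal.mem_span_singleton_self 8)
        have h2 : (8 : 𝓞 K) = 2 ^ 3 := by norm_num
        rw [h2] at h1
        exact hvp.mem_of_pow_mem 3 h1
    · obtain ⟨u, hu, huv⟩ := (Ideal.IsPrime.prod_le hvp).1 h
      have h1 : u = v := by
        apply HeightOneSpectrum.ext
        exact u.isMaximal.eq_of_le hvp.ne_top huv
      exact Or.inl (h1 ▸ hu)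

theorem mem_of_pow {m : Ideal (𝓞 K)} (hm : m ≠ ⊥) {x : 𝓞 K}
    (h : ∀ (v : HeightOneSpectrum (𝓞 K)) (k : ℕ), 0 < k → m ≤ v.asIdeal ^ k →
      x ∈ v.asIdeal ^ k) : x ∈ m := by
  rw [← Ideal.span_singleton_le_iff_mem, ← Ideal.dvd_iff_le,
    UniqueFactorizationMonoid.dvd_iff_emultiplicity_le (by rwa [Ne, Ideal.zero_eq_bot])]
  intro p hp
  rw [emultiplicity_le_emultiplicity_iff]
  intro n hn
  rcases Nat.eq_zero_or_pos n with h0 | h0
  · rw [h0, pow_zero]
    exact one_dvd _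
  · have hp0 : p ≠ ⊥ := by
      have := hp.ne_zero
      rwa [Ne, Ideal.zero_eq_bot] at this
    have h1 := h ⟨p, Ideal.isPrime_of_prime hp, hp0⟩ n h0 (Ideal.dvd_iff_le.1 hn)
    rw [Ideal.dvd_iff_le, Ideal.span_singleton_le_iff_mem]
    exact h1

private theorem Tw_ind (v : HeightOneSpectrum (𝓞 K)) (k : ℕ) {ι : Type} (J : Finset ι)
    (d : ι → K) (h : ∀ i ∈ J, v.valuation K (d i - 1) ≤ exp (-(k : ℤ))) :
    v.valuation K (∏ i ∈ J, d i - 1) ≤ exp (-(k : ℤ)) := by
  have hk : (exp (-(k : ℤ)) : WithZero (Multiplicative ℤ)) ≤ 1 := by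
    rw [← exp_zero, exp_le_exp]
    omega
  induction J using Finset.induction_on with
  | empty => simp
  | insert a J ha ih =>
    rw [Finset.prod_insert ha]
    have h1 := h a (Finset.mem_insert_self a J)
    have h2 := ih (fun i hi => h i (Finset.mem_insert_of_mem hi))
    have h3 : v.valuation K (∏ i ∈ J, d i) ≤ 1 := by
      have e : ∏ i ∈ J, d i = (∏ i ∈ J, d i - 1) + 1 := by ring
      rw [e]
      refine (Valuation.map_add _ _ _).trans ?_
      rw [map_one]
      exact max_le (h2.trans hk) le_rfl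
    have e : d a * ∏ i ∈ J, d i - 1 = (d a - 1) * ∏ i ∈ J, d i + (∏ i ∈ J, d i - 1) := by ring
    rw [e]
    refine (Valuation.map_add _ _ _).trans (max_le ?_ h2)
    rw [map_mul]
    calc _ ≤ exp (-(k : ℤ)) * (1 : WithZero (Multiplicative ℤ)) := mul_le_mul' h1 h3
      _ = _ := mul_one _

private theorem Tw_mem (v : HeightOneSpectrum (𝓞 K)) (x : 𝓞 K) (n : ℕ) :
    v.valuation K (x : K) ≤ exp (-(n : ℤ)) ↔ x ∈ v.asIdeal ^ n := by
  have h1 : v.valuation K (algebraMap (𝓞 K) K x) = v.intValuation x :=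
    v.valuation_of_algebraMap x
  rw [← v.intValuation_le_pow_iff_mem, ← h1]

private theorem Tw_sub (y : 𝓞 K) : ((y - 1 : 𝓞 K) : K) = (y : K) - 1 := by
  have h : algebraMap (𝓞 K) K (y - 1) = algebraMap (𝓞 K) K y - 1 := by
    rw [map_sub, map_one]
  exact h

private theorem Tw_add (y : 𝓞 K) : ((y + 1 : 𝓞 K) : K) = (y : K) + 1 := by
  have h : algebraMap (𝓞 K) K (y + 1) = algebraMap (𝓞 K) K y + 1 := by
    rw [map_add, map_one]
  exact h

theorem exists_twistS {m : Ideal (𝓞 K)} (hm : m ≠ ⊥) (hmt : m ≠ ⊤)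
    {S : Finset (HeightOneSpectrum (𝓞 K))}
    (hS : ∀ v ∈ S, ∀ x ∈ m, v.valuation K (x : K) < v.valuation K 4)
    {q₀ : HeightOneSpectrum (𝓞 K)} (hq : ¬ m ≤ q₀.asIdeal)
    {J : Finset (HeightOneSpectrum (𝓞 K))} (hJ : ∀ p ∈ J, ∃ D : K, AuxR m q₀ p D) :
    ∃ D : 𝓞 K, D - 1 ∈ m ∧ TwS S q₀ J (D : K) := by
  have hex : ∀ p : HeightOneSpectrum (𝓞 K), ∃ D : K, p ∈ J → AuxR m q₀ p D := by
    intro p
    by_cases hp : p ∈ J
    · obtain ⟨D, hD⟩ := hJ p hp
      exact ⟨D, fun _ => hD⟩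
    · exact ⟨1, fun h => absurd h hp⟩
  choose d hd using hex
  obtain ⟨E, hE⟩ : ∃ E : K, E = ∏ p ∈ J, d p := ⟨_, rfl⟩
  have hE0 : E ≠ 0 := by
    rw [hE]
    exact Finset.prod_ne_zero_iff.2 fun p hp => (hd p hp).ne
  have hpq : ∀ p ∈ J, p ≠ q₀ := by
    intro p hp h0
    have h1 := (hd p hp).at_p
    have h2 := (hd p hp).at_q
    rw [← h0, h1, exp_inj] at h2
    omega
  have hv1 : ∀ v : HeightOneSpectrum (𝓞 K), v ∉ J → v ≠ q₀ → v.valuation K E = 1 := by
    intro v hv hq'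
    rw [hE, map_prod]
    exact Finset.prod_eq_one fun p hp => (hd p hp).oth v (fun h => hv (h ▸ hp)) hq'
  have hv2 : ∀ v ∈ J, v.valuation K E = exp (-1) := by
    intro v hv
    rw [hE, map_prod, Finset.prod_eq_single v]
    · exact (hd v hv).at_p
    · intro p hp hpv
      exact (hd p hp).oth v (Ne.symm hpv) (hpq v hv)
    · intro h
      exact absurd hv h
  have hv3 : q₀.valuation K E = exp (J.card : ℤ) := by
    rw [hE, map_prod, Finset.prod_congr rfl fun p hp => (hd p hp).at_q, Finset.prod_const,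
      ← exp_nsmul]
    simp
  have hcong : ∀ (v : HeightOneSpectrum (𝓞 K)) (k : ℕ), 0 < k → m ≤ v.asIdeal ^ k →
      v.valuation K (E - 1) ≤ exp (-(k : ℤ)) := by
    intro v k hk hmv
    rw [hE]
    exact Tw_ind v k J d fun p hp => (hd p hp).cong v k hk hmv
  -- the element `y`
  have hcop : IsCoprime m (q₀.asIdeal ^ J.card) := by
    refine IsCoprime.pow_right (Ideal.isCoprime_iff_sup_eq.2 ?_)
    refine q₀.isMaximal.out.2 _ (lt_of_le_of_ne le_sup_right fun h => hq ?_)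
    rw [h]
    exact le_sup_left
  obtain ⟨i, hi, y, hy, hiy⟩ := Ideal.isCoprime_iff_exists.1 hcop
  have hy1 : y - 1 ∈ m := by
    have h1 : y - 1 = -i := by
      rw [← hiy]
      ring
    rw [h1]
    exact m.neg_mem hi
  have hy0 : y ≠ 0 := by
    intro h0
    apply hmt
    rw [Ideal.eq_top_iff_one]
    rw [h0, add_zero] at hiy
    rw [← hiy]
    exact hi
  have hy0' : (y : K) ≠ 0 := fun h => hy0 (RingOfIntegers.coe_injective (by
    rw [map_zero]
    exact h))
  have hyv : ∀ v : HeightOneSpectrum (𝓞 K), v.valuation K (y : K) ≠ 0 := by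
    intro v
    rw [Valuation.ne_zero_iff]
    exact hy0'
  have hyle : ∀ v : HeightOneSpectrum (𝓞 K), v.valuation K (y : K) ≤ 1 := fun v =>
    v.valuation_le_one (K := K) y
  have hsq : ∀ v : HeightOneSpectrum (𝓞 K), v.valuation K (y : K) ^ 2 ≤ 1 := fun v =>
    pow_le_one' (hyle v) 2
  -- `D = y² E`
  have hint : ∀ v : HeightOneSpectrum (𝓞 K), v.valuation K ((y : K) ^ 2 * E) ≤ 1 := by
    intro v
    rw [map_mul, map_pow]
    by_cases hvJ : v ∈ J
    · rw [hv2 v hvJ]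
      have h1 : (exp (-1 : ℤ) : WithZero (Multiplicative ℤ)) ≤ 1 := by
        rw [← exp_zero, exp_le_exp]
        omega
      exact mul_le_one' (hsq v) h1
    · by_cases hvq : v = q₀
      · rw [hvq, hv3]
        have h1 : q₀.valuation K (y : K) ≤ exp (-(J.card : ℤ)) := (Tw_mem q₀ y J.card).2 hy
        have h2 : q₀.valuation K (y : K) ^ 2 ≤ exp (-(J.card : ℤ)) := by
          rw [pow_two]
          calc q₀.valuation K (y : K) * q₀.valuation K (y : K) ≤ exp (-(J.card : ℤ)) * 1 :=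
                mul_le_mul' h1 (hyle q₀)
            _ = _ := mul_one _
        calc q₀.valuation K (y : K) ^ 2 * exp (J.card : ℤ) ≤
              exp (-(J.card : ℤ)) * exp (J.card : ℤ) := mul_le_mul' h2 le_rfl
          _ = 1 := by
            rw [← exp_add, neg_add_cancel, exp_zero]
      · rw [hv1 v hvJ hvq, mul_one]
        exact hsq v
  obtain ⟨D, hD⟩ := HeightOneSpectrum.mem_integers_of_valuation_le_one (R := 𝓞 K) K _ hint
  have hDE : (D : K) = (y : K) ^ 2 * E := hD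
  have hDm : D - 1 ∈ m := by
    refine mem_of_pow hm fun v k hk hmv => ?_
    rw [← Tw_mem]
    have hk1 : (exp (-(k : ℤ)) : WithZero (Multiplicative ℤ)) ≤ 1 := by
      rw [← exp_zero, exp_le_exp]
      omega
    have h1 : v.valuation K ((y - 1 : 𝓞 K) : K) ≤ exp (-(k : ℤ)) := (Tw_mem v _ k).2 (hmv hy1)
    have h2 : v.valuation K ((y + 1 : 𝓞 K) : K) ≤ 1 := v.valuation_le_one (K := K) (y + 1)
    have h3 := hcong v k hk hmv
    have h4 : v.valuation K E ≤ 1 := by
      have e : E = (E - 1) + 1 := by ring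
      rw [e]
      refine (Valuation.map_add _ _ _).trans ?_
      rw [map_one]
      exact max_le (h3.trans hk1) le_rfl
    have e : ((D - 1 : 𝓞 K) : K) = ((y - 1 : 𝓞 K) : K) * ((y + 1 : 𝓞 K) : K) * E + (E - 1) := by
      have e1 : ((D - 1 : 𝓞 K) : K) = (D : K) - 1 := Tw_sub D
      have e2 : ((y - 1 : 𝓞 K) : K) = (y : K) - 1 := Tw_sub y
      have e3 : ((y + 1 : 𝓞 K) : K) = (y : K) + 1 := Tw_add y
      rw [e1, e2, e3, hDE]
      ring
    rw [e]
    refine (Valuation.map_add _ _ _).trans (max_le ?_ h3)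
    rw [map_mul, map_mul]
    calc v.valuation K ((y - 1 : 𝓞 K) : K) * v.valuation K ((y + 1 : 𝓞 K) : K) *
          v.valuation K E ≤ exp (-(k : ℤ)) * 1 * 1 := mul_le_mul' (mul_le_mul' h1 h2) h4
      _ = _ := by rw [mul_one, mul_one]
  refine ⟨D, hDm, ?_, ?_, ?_, ?_, ?_⟩
  · rw [hDE]
    exact mul_ne_zero (pow_ne_zero _ hy0') hE0
  · intro v hv
    rw [hDE, ord, map_mul, map_pow, hv2 v hv, log_mul (pow_ne_zero _ (hyv v)) (by simp),
      log_pow, log_exp]
    refine ⟨- log (v.valuation K (y : K)), ?_⟩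
    simp only [nsmul_eq_mul]
    push_cast
    ring
  · intro v _ hv hq'
    rw [hDE, ord, map_mul, map_pow, hv1 v hv hq', mul_one, log_pow]
    refine ⟨- log (v.valuation K (y : K)), ?_⟩
    simp only [nsmul_eq_mul]
    push_cast
    ring
  · intro v hv
    refine ⟨1, one_ne_zero, ?_⟩
    have h1 := hS v hv (D - 1) hDm
    have e : (D : K) * 1 ^ 2 - 1 = ((D - 1 : 𝓞 K) : K) := by
      rw [Tw_sub D, one_pow, mul_one]
    rw [e]
    exact h1
  · intro s
    rw [hDE, map_mul, map_pow, hE, map_prod]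
    have h1 : s (y : K) ≠ 0 := by
      rw [Ne, map_eq_zero]
      exact hy0'
    exact mul_pos (by positivity) (Finset.prod_pos fun p hp => (hd p hp).pos s)

end H36MT
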