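import Mathlib

/-!
ROW Ct (project MP_78d38b_MT, about 90 lines, Mathlib only): a Chernoff bound.

PROOF. `w = 2/3`. For `U` with `U.card < N`: `1 ≤ (3/2)^N * (2/3)^(U.card)` (`(2/3)^(U.card) ≥ (2/3)^N`). So the sum is at most
`(3/2)^N * ∑ U ∈ Z.powerset, (∏ i ∈ U, (2/3 * a i)) * ∏ i ∈ Z \ U, b i` (all terms are `≥ 0`; `Finset.prod_mul_distrib`, `Finset.prod_const`;
`Finset.sum_le_sum_of_subset_of_nonneg` for the filter) `= (3/2)^N * ∏ i ∈ Z, (2/3 * a i + b i)` (`Finset.prod_add`)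
`≤ (3/2)^N * (13/15)^(3 N)` (`2/3 a + b ≤ 1 - a/3 ≤ 13/15`, `Finset.prod_le_pow_card`) `= (6591/6750)^N`, which tends to zero
(`exists_pow_lt_of_lt_one`, and it decreases in `N`: `pow_le_pow_of_le_one`).
-/

set_option autoImplicit false

namespace H36MT

theorem chernoff {ε : ℝ} (hε : 0 < ε) : ∃ N₁ : ℕ, ∀ (ι : Type) [DecidableEq ι] (Z : Finset ι)
    (a b : ι → ℝ) (N : ℕ), N₁ ≤ N → Z.card = 3 * N → (∀ i ∈ Z, 2 / 5 ≤ a i) →
    (∀ i ∈ Z, 0 ≤ b i) → (∀ i ∈ Z, a i + b i ≤ 1) →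
    ∑ U ∈ Z.powerset.filter (fun U => U.card < N), (∏ i ∈ U, a i) * ∏ i ∈ Z \ U, b i ≤ ε := by
  obtain ⟨N₁, hN₁⟩ := exists_pow_lt_of_lt_one hε (show (6591 / 6750 : ℝ) < 1 by norm_num)
  refine ⟨N₁, fun ι _ Z a b N hN hZ ha hb hab => ?_⟩
  have hterm : ∀ U ∈ Z.powerset, 0 ≤ (∏ i ∈ U, a i) * ∏ i ∈ Z \ U, b i := by
    intro U hU
    rw [Finset.mem_powerset] at hU
    refine mul_nonneg (Finset.prod_nonneg fun i hi => ?_) (Finset.prod_nonneg fun i hi => ?_)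
    · linarith [ha i (hU hi)]
    · exact hb i (Finset.mem_sdiff.1 hi).1
  calc ∑ U ∈ Z.powerset.filter (fun U => U.card < N), (∏ i ∈ U, a i) * ∏ i ∈ Z \ U, b i
      ≤ ∑ U ∈ Z.powerset.filter (fun U => U.card < N),
          (3 / 2 : ℝ) ^ N * ((∏ i ∈ U, (2 / 3 * a i)) * ∏ i ∈ Z \ U, b i) := by
        refine Finset.sum_le_sum fun U hU => ?_
        rw [Finset.mem_filter] at hU
        have h1 : (1 : ℝ) ≤ (3 / 2 : ℝ) ^ N * (2 / 3 : ℝ) ^ U.card := by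
          have h2 : (2 / 3 : ℝ) ^ N ≤ (2 / 3 : ℝ) ^ U.card :=
            pow_le_pow_of_le_one (by norm_num) (by norm_num) hU.2.le
          have h3 : (3 / 2 : ℝ) ^ N * (2 / 3 : ℝ) ^ N = 1 := by
            rw [← mul_pow]
            norm_num
          rw [← h3]
          exact mul_le_mul_of_nonneg_left h2 (by positivity)
        rw [Finset.prod_mul_distrib, Finset.prod_const]
        calc (∏ i ∈ U, a i) * ∏ i ∈ Z \ U, b i = 1 * ((∏ i ∈ U, a i) * ∏ i ∈ Z \ U, b i) := (one_mul _).symm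
          _ ≤ ((3 / 2 : ℝ) ^ N * (2 / 3 : ℝ) ^ U.card) * ((∏ i ∈ U, a i) * ∏ i ∈ Z \ U, b i) :=
              mul_le_mul_of_nonneg_right h1 (hterm U hU.1)
          _ = (3 / 2 : ℝ) ^ N * ((2 / 3 : ℝ) ^ U.card * (∏ i ∈ U, a i) * ∏ i ∈ Z \ U, b i) := by ring
    _ ≤ ∑ U ∈ Z.powerset, (3 / 2 : ℝ) ^ N * ((∏ i ∈ U, (2 / 3 * a i)) * ∏ i ∈ Z \ U, b i) := by
        refine Finset.sum_le_sum_of_subset_of_nonneg (Finset.filter_subset _ _) fun U hU _ => ?_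
        rw [Finset.prod_mul_distrib, Finset.prod_const, mul_assoc]
        exact mul_nonneg (by positivity) (mul_nonneg (by positivity) (hterm U hU))
    _ = (3 / 2 : ℝ) ^ N * ∏ i ∈ Z, (2 / 3 * a i + b i) := by
        rw [Finset.prod_add, Finset.mul_sum]
    _ ≤ (3 / 2 : ℝ) ^ N * (13 / 15 : ℝ) ^ (3 * N) := by
        refine mul_le_mul_of_nonneg_left ?_ (by positivity)
        rw [← hZ, ← Finset.prod_const]
        refine Finset.prod_le_prod (fun i hi => ?_) fun i hi => ?_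
        · linarith [ha i hi, hb i hi]
        · linarith [ha i hi, hab i hi]
    _ = (6591 / 6750 : ℝ) ^ N := by
        rw [pow_mul, ← mul_pow]
        norm_num
    _ ≤ (6591 / 6750 : ℝ) ^ N₁ := pow_le_pow_of_le_one (by norm_num) (by norm_num) hN
    _ ≤ ε := hN₁.le

end H36MT
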