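import Pool.Agent.H36.MT.Cu
import Pool.Agent.H36.MT.Ct
import Pool.Agent.H36.PP.Dv
import Pool.Agent.H36.PP.Sm
import Pool.Agent.H36.PP.Nb

/-!
ROW Ty (project MP_78d38b_MT, about 140 lines): most pairs are of type T at a third of the primes of a large set. Use only the
STATEMENTS `count_prod` (Cu), `chernoff` (Ct), `Dv_Pt`, `Dv_card` (`H36PP`, Dv), `card_SqT` (`H36PP`, Lt), `five_le` (`H36PP`, Sm).

PROOF. (1) `a v = (SqT (𝓞 K ⧸ v)).ncard / (Nv v)^2`, `b v = ((SqT (𝓞 K ⧸ v))ᶜ).ncard / (Nv v)^2`. `a v + b v = 1` (`Set.ncard_add_ncard_compl`,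
`Nat.card (k × k) = q^2`, `q = Nv v = Nat.card (𝓞 K ⧸ v)`). For `6 ∉ v`: `q (q - 1) ≤ 2 #SqT` (`card_SqT`, `6 ≠ 0` in the quotient), `q ≥ 5`, so
`a v ≥ (1/2)(1 - 1/q) ≥ 2/5`.
(2) `C ≥ 1` from `count_prod`, `N₁` from `chernoff` for `ε / C`. Let `Z`, `N` be given. For `U ⊆ Z` put `S_U v = if v ∈ U then SqT else SqTᶜ`, `X_U` from
`count_prod Z S_U`; `X₀ = 1 + ∑ U ∈ Z.powerset, |X_U|` (or a maximum). The set is contained in the union over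
`U ∈ Z.powerset.filter (fun U => U.card < N)` of `{p ∈ Bx K X | ∀ v ∈ Z, rs v p ∈ S_U v}`: take `U = Z.filter (fun v => p ∈ Pt v)` (`Dv_Pt`). So
(`Set.ncard_le_ncard` in a finite set, `Finset.set_ncard_biUnion_le`, `Bx_finite` of `Pool/Agent/H36/PP/Nb.lean`) the number is at most
`∑ U, C * (∏ v ∈ Z, (S_U v).ncard / (Nv v)^2) * X^(5n)`, and `∏ v ∈ Z, .. = (∏ v ∈ U, a v) * ∏ v ∈ Z \ U, b v` (`Finset.prod_ite` /
`Finset.prod_sdiff`). By `chernoff` the sum is `≤ C * (ε / C) * X^(5n)`.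
-/

set_option autoImplicit false
set_option linter.unusedSectionVars false
open scoped Classical

open NumberField IsDedekindDomain
open H76PP H36PP

namespace H36MT

variable (K : Type) [Field K] [NumberField K]

private theorem Ty_ab (v : HeightOneSpectrum (𝓞 K)) (h6 : (6 : 𝓞 K) ∉ v.asIdeal) :
    (2 / 5 : ℝ) ≤ ((SqT (𝓞 K ⧸ v.asIdeal)).ncard : ℝ) / (Nv v : ℝ) ^ 2 ∧
    ((SqT (𝓞 K ⧸ v.asIdeal)).ncard : ℝ) / (Nv v : ℝ) ^ 2 +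
      (((SqT (𝓞 K ⧸ v.asIdeal))ᶜ).ncard : ℝ) / (Nv v : ℝ) ^ 2 ≤ 1 := by
  have hfin : Finite (𝓞 K ⧸ v.asIdeal) := Dv_fin v.ne_bot
  have hcard : Nat.card (𝓞 K ⧸ v.asIdeal) = Nv v := (Dv_card v.asIdeal).symm
  have h5 : 5 ≤ Nv v := five_le K h6
  have h5' : (5 : ℝ) ≤ (Nv v : ℝ) := by exact_mod_cast h5
  have hq2 : (0 : ℝ) < (Nv v : ℝ) ^ 2 := by positivity
  have h60 : (6 : 𝓞 K ⧸ v.asIdeal) ≠ 0 := by
    intro h0
    apply h6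
    rw [← Ideal.Quotient.eq_zero_iff_mem, map_ofNat]
    exact h0
  have h1 := card_SqT (𝓞 K ⧸ v.asIdeal) h60
  rw [hcard] at h1
  have h2 : (Nv v : ℝ) * ((Nv v : ℝ) - 1) ≤ 2 * ((SqT (𝓞 K ⧸ v.asIdeal)).ncard : ℝ) := by
    have h3 : ((Nv v * (Nv v - 1) : ℕ) : ℝ) ≤ ((2 * (SqT (𝓞 K ⧸ v.asIdeal)).ncard : ℕ) : ℝ) := by
      exact_mod_cast h1
    rw [Nat.cast_mul, Nat.cast_mul, Nat.cast_sub (by omega)] at h3
    exact_mod_cast h3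
  refine ⟨?_, ?_⟩
  · rw [le_div_iff₀ hq2]
    nlinarith
  · have h3 := Set.ncard_add_ncard_compl (SqT (𝓞 K ⧸ v.asIdeal))
    rw [Nat.card_prod, hcard] at h3
    have h4 : ((SqT (𝓞 K ⧸ v.asIdeal)).ncard : ℝ) + (((SqT (𝓞 K ⧸ v.asIdeal))ᶜ).ncard : ℝ) =
        (Nv v : ℝ) ^ 2 := by
      rw [sq]
      exact_mod_cast h3
    rw [← add_div, h4, div_self hq2.ne']

theorem type_count {ε : ℝ} (hε : 0 < ε) : ∃ N₁ : ℕ, ∀ (Z : Finset (HeightOneSpectrum (𝓞 K)))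
    (N : ℕ), N₁ ≤ N → Z.card = 3 * N → (∀ v ∈ Z, (6 : 𝓞 K) ∉ v.asIdeal) →
    ∃ X₀ : ℝ, 1 ≤ X₀ ∧ ∀ X : ℝ, X₀ ≤ X →
      ({p : 𝓞 K × 𝓞 K | p ∈ Bx K X ∧ (Z.filter (fun v => p ∈ Pt v)).card < N}.ncard : ℝ) ≤
        ε * X ^ (5 * Module.finrank ℚ K) := by
  obtain ⟨C, hC1, hC⟩ := count_prod K
  have hC0 : 0 < C := by linarith
  obtain ⟨N₁, hN₁⟩ := chernoff (div_pos hε hC0)
  refine ⟨N₁, fun Z N hN hZ h6 => ?_⟩
  obtain ⟨a, ha⟩ : ∃ a : HeightOneSpectrum (𝓞 K) → ℝ, a = fun (v : HeightOneSpectrum (𝓞 K)) =>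
    ((SqT (𝓞 K ⧸ v.asIdeal)).ncard : ℝ) / (Nv v : ℝ) ^ 2 := ⟨_, rfl⟩
  obtain ⟨b, hb⟩ : ∃ b : HeightOneSpectrum (𝓞 K) → ℝ, b = fun (v : HeightOneSpectrum (𝓞 K)) =>
    (((SqT (𝓞 K ⧸ v.asIdeal))ᶜ).ncard : ℝ) / (Nv v : ℝ) ^ 2 := ⟨_, rfl⟩
  obtain ⟨SU, hSU⟩ : ∃ SU : Finset (HeightOneSpectrum (𝓞 K)) → ∀ v : HeightOneSpectrum (𝓞 K),
    Set ((𝓞 K ⧸ v.asIdeal) × (𝓞 K ⧸ v.asIdeal)), SU = fun U (v : HeightOneSpectrum (𝓞 K)) =>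
      if v ∈ U then SqT (𝓞 K ⧸ v.asIdeal) else (SqT (𝓞 K ⧸ v.asIdeal))ᶜ := ⟨_, rfl⟩
  choose X₁ hX1 hX using fun U => hC Z (SU U)
  refine ⟨1 + ∑ U ∈ Z.powerset, |X₁ U|, ?_, fun X hXX => ?_⟩
  · have : 0 ≤ ∑ U ∈ Z.powerset, |X₁ U| := Finset.sum_nonneg fun _ _ => abs_nonneg _
    linarith
  have hX0 : 0 ≤ X := by
    have : 0 ≤ ∑ U ∈ Z.powerset, |X₁ U| := Finset.sum_nonneg fun _ _ => abs_nonneg _
    linarith
  have hsub : {p : 𝓞 K × 𝓞 K | p ∈ Bx K X ∧ (Z.filter (fun v => p ∈ Pt v)).card < N} ⊆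
      ⋃ U ∈ Z.powerset.filter (fun U => U.card < N),
        {p : 𝓞 K × 𝓞 K | p ∈ Bx K X ∧ ∀ v ∈ Z, rs v.asIdeal p ∈ SU U v} := by
    rintro p ⟨hp, hc⟩
    rw [Set.mem_iUnion₂]
    refine ⟨Z.filter (fun v => p ∈ Pt v), ?_, hp, fun v hv => ?_⟩
    · rw [Finset.mem_filter, Finset.mem_powerset]
      exact ⟨Finset.filter_subset _ _, hc⟩
    · rw [hSU]
      show rs v.asIdeal p ∈ if v ∈ Z.filter (fun v => p ∈ Pt v) then SqT (𝓞 K ⧸ v.asIdeal)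
        else (SqT (𝓞 K ⧸ v.asIdeal))ᶜ
      by_cases hpv : p ∈ Pt v
      · rw [if_pos (Finset.mem_filter.2 ⟨hv, hpv⟩)]
        exact (Dv_Pt v p).1 hpv
      · have hnot : v ∉ Z.filter (fun v => p ∈ Pt v) := fun h => hpv (Finset.mem_filter.1 h).2
        rw [if_neg hnot]
        exact fun h => hpv ((Dv_Pt v p).2 h)
  have hfin : (⋃ U ∈ Z.powerset.filter (fun U => U.card < N),
        {p : 𝓞 K × 𝓞 K | p ∈ Bx K X ∧ ∀ v ∈ Z, rs v.asIdeal p ∈ SU U v}).Finite := by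
    refine ((H36PP.bx_finite K (X ^ 2)).prod (H36PP.bx_finite K (X ^ 3))).subset ?_
    intro p hp
    rw [Set.mem_iUnion₂] at hp
    obtain ⟨U, _, hp'⟩ := hp
    exact ⟨hp'.1.1, hp'.1.2⟩
  have h1 := (Set.ncard_le_ncard hsub hfin).trans (Finset.set_ncard_biUnion_le _ _)
  have h2 : ({p : 𝓞 K × 𝓞 K | p ∈ Bx K X ∧
      (Z.filter (fun v => p ∈ Pt v)).card < N}.ncard : ℝ) ≤
      ∑ U ∈ Z.powerset.filter (fun U => U.card < N),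
        ({p : 𝓞 K × 𝓞 K | p ∈ Bx K X ∧ ∀ v ∈ Z, rs v.asIdeal p ∈ SU U v}.ncard : ℝ) := by
    exact_mod_cast h1
  have h3 : ∀ U ∈ Z.powerset.filter (fun U => U.card < N),
      ({p : 𝓞 K × 𝓞 K | p ∈ Bx K X ∧ ∀ v ∈ Z, rs v.asIdeal p ∈ SU U v}.ncard : ℝ) ≤
      C * X ^ (5 * Module.finrank ℚ K) * ((∏ i ∈ U, a i) * ∏ i ∈ Z \ U, b i) := by
    intro U hU
    have hUZ : U ⊆ Z := Finset.mem_powerset.1 (Finset.mem_filter.1 hU).1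
    have h4 : X₁ U ≤ X := by
      have h5 : |X₁ U| ≤ ∑ U ∈ Z.powerset, |X₁ U| :=
        Finset.single_le_sum (f := fun U => |X₁ U|) (fun _ _ => abs_nonneg _)
          (Finset.mem_filter.1 hU).1
      have h6 := le_abs_self (X₁ U)
      linarith
    have h5 := hX U X h4
    refine h5.trans (le_of_eq ?_)
    have h6 : ∏ v ∈ Z, ((SU U v).ncard : ℝ) / (Nv v : ℝ) ^ 2 =
        (∏ i ∈ U, a i) * ∏ i ∈ Z \ U, b i := by
      rw [← Finset.prod_sdiff hUZ, mul_comm]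
      congr 1
      · refine Finset.prod_congr rfl fun v hv => ?_
        rw [hSU, ha]
        simp only [hv, if_true]
      · refine Finset.prod_congr rfl fun v hv => ?_
        rw [hSU, hb]
        simp only [(Finset.mem_sdiff.1 hv).2, if_false]
    rw [h6]
    ring
  refine (h2.trans (Finset.sum_le_sum h3)).trans ?_
  rw [← Finset.mul_sum]
  have h4 := hN₁ (HeightOneSpectrum (𝓞 K)) Z a b N hN hZ
    (fun v hv => by rw [ha]; exact (Ty_ab K v (h6 v hv)).1)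
    (fun v hv => by rw [hb]; positivity)
    (fun v hv => by rw [ha, hb]; exact (Ty_ab K v (h6 v hv)).2)
  have h5 : 0 ≤ C * X ^ (5 * Module.finrank ℚ K) := by positivity
  refine (mul_le_mul_of_nonneg_left h4 h5).trans (le_of_eq ?_)
  field_simp

end H36MT
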