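import Pool.Agent.H36.MT.Av
import Pool.Agent.H36.MT.Ax
import Pool.Agent.H36.MT.Pw
import Pool.Agent.H36.MT.Rt
import Pool.Agent.H36.MT.Ty
import Pool.Agent.H36.MT.Tw
import Pool.Agent.H36.MT.Zc
import Pool.Agent.H36.PP.Tl
import Pool.Agent.H76.PP.Ya

/-!
Assembly, part 2 (project MP_78d38b_MT, no row): the choice of the parameters and the count.
-/

set_option autoImplicit false
set_option linter.unusedSectionVars false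
open scoped Classical

open WithZero NumberField IsDedekindDomain H38RT
open H76PP H36PP

namespace H36MT

theorem ratio9 {q : ℕ} (hq : 9 ≤ q) : (1 + 1 / (q : ℝ)) ^ 2 / 4 ≤ 0.31 := by
  have h1 : (9 : ℝ) ≤ q := by exact_mod_cast hq
  have h2 : 1 / (q : ℝ) ≤ 1 / 9 := one_div_le_one_div_of_le (by norm_num) h1
  have h3 : 0 ≤ 1 / (q : ℝ) := by positivity
  nlinarith

theorem prod9 {K : Type} [Field K] [NumberField K]
    {T : Finset (HeightOneSpectrum (𝓞 K))} (hT : ∀ v ∈ T, 9 ≤ Nv v) :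
    (∏ v ∈ T, ((1 + 1 / (Nv v : ℝ)) ^ 2 / 4)) ≤ 0.31 ^ T.card := by
  rw [← Finset.prod_const]
  exact Finset.prod_le_prod (fun v _ => by positivity) fun v hv => ratio9 (hT v hv)

theorem main_count (K : Type) [Field K] [NumberField K] {m : Ideal (𝓞 K)} (hm : m ≠ ⊥) {ε : ℝ}
    (hε : 0 < ε) :
    ∃ (S : Finset (HeightOneSpectrum (𝓞 K))) (e : ℕ) (Z₁ Z₂ : Finset (HeightOneSpectrum (𝓞 K)))
      (m' : Ideal (𝓞 K)) (X₀ : ℝ),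
      (∀ v : HeightOneSpectrum (𝓞 K), (6 : 𝓞 K) ∈ v.asIdeal → v ∈ S) ∧ m' ≠ ⊥ ∧ m' ≠ ⊤ ∧ m' ≤ m ∧
      (∀ v ∈ S, ∀ x ∈ m', v.valuation K (x : K) < v.valuation K 4) ∧
      (∀ q ∈ Z₁, q ∉ S ∧ q ∉ Z₂ ∧ ¬ m' ≤ q.asIdeal) ∧ (∀ p ∈ Z₂, p ∉ S) ∧
      (∀ q ∈ Z₁, ∀ p ∈ Z₂, ∃ D : K, AuxR m' q p D) ∧
      ∀ X : ℝ, X₀ ≤ X →
        ({p : 𝓞 K × 𝓞 K | p ∈ Bx K X ∧ ¬ ∃ q ∈ Z₁, ∃ T ⊆ Z₂, FamS S e q T p.1 p.2 ∧
          ¬ BadS S T p.1 p.2}.ncard : ℝ) ≤ ε * X ^ (5 * Module.finrank ℚ K) := by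
  obtain ⟨δ, hδ⟩ : ∃ δ : ℝ, δ = ε / 6 := ⟨_, rfl⟩
  have hδ0 : 0 < δ := by rw [hδ]; positivity
  obtain ⟨CU, hCU, hU⟩ := coset_upper K
  obtain ⟨M₀, X₁, h1⟩ := tail_bound K (le_trans zero_le_one hCU) hU hδ0
  -- the set `S`
  obtain ⟨S, hS⟩ : ∃ S : Finset (HeightOneSpectrum (𝓞 K)), ∀ v, v ∈ S ↔
      ((6 : 𝓞 K) ∈ v.asIdeal ∨ ¬ M₀ < Nv v) := by
    have hf1 : {v : HeightOneSpectrum (𝓞 K) | ¬ (M₀ + 1) ≤ Nv v}.Finite := fin_norm K (M₀ + 1)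
    have hf2 : {v : HeightOneSpectrum (𝓞 K) | (6 : 𝓞 K) ∈ v.asIdeal}.Finite := by
      refine (nv_finite K (Ideal.absNorm (Ideal.span {(6 : 𝓞 K)}) : ℝ)).subset fun v hv => ?_
      have h6 : (6 : 𝓞 K) ≠ 0 := by norm_num
      have h7 : v.asIdeal ∣ Ideal.span {(6 : 𝓞 K)} :=
        Ideal.dvd_span_singleton.2 hv
      have h8 : Ideal.absNorm v.asIdeal ∣ Ideal.absNorm (Ideal.span {(6 : 𝓞 K)}) :=
        map_dvd Ideal.absNorm h7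
      have h9 : 0 < Ideal.absNorm (Ideal.span {(6 : 𝓞 K)}) := by
        refine Nat.pos_of_ne_zero ?_
        rw [Ne, Ideal.absNorm_eq_zero_iff, Ideal.span_singleton_eq_bot]
        exact h6
      exact_mod_cast Nat.le_of_dvd h9 h8
    refine ⟨(hf2.union hf1).toFinset, fun v => ?_⟩
    rw [Set.Finite.mem_toFinset, Set.mem_union]
    change (6 : 𝓞 K) ∈ v.asIdeal ∨ ¬ (M₀ + 1) ≤ Nv v ↔ _
    rw [Nat.succ_le_iff]
  obtain ⟨e, X₂, hX₂, h2⟩ := pow_count (K := K) S hδ0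
  obtain ⟨C₄, N₀, hC₄, h4⟩ := bad_countS K (H36PP.Bx_finite K) S (e + 1) (by omega)
  obtain ⟨m', hm'0, hm't, hm'm, hm'S, -⟩ := exists_mod hm S
  obtain ⟨Z, hZinf, hZ, hZr⟩ := aux_set K hm'0
  have hSm : ∀ v ∈ S, m' ≤ v.asIdeal := by
    intro v hv x hx
    have h5 := hm'S v hv x hx
    have h6 : v.valuation K (4 : K) ≤ 1 := by
      rw [← map_ofNat (algebraMap (𝓞 K) K) 4]
      exact v.valuation_le_one (K := K) (4 : 𝓞 K)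
    exact (v.valuation_lt_one_iff_mem (K := K) x).1 (h5.trans_le h6)
  have hZS : ∀ v ∈ Z, v ∉ S := fun v hv hvS => (hZ v hv).1 (hSm v hvS)
  obtain ⟨r₁, h7⟩ := root_count (K := K) hδ0
  obtain ⟨Z₁, hZ₁, hZ₁c⟩ := exists_T hZinf 0 (r₁ + 1)
  obtain ⟨X₃, hX₃, h3⟩ := h7 Z₁ (by omega) (fun v hv => (hZ v (hZ₁ v hv).1).2)
  obtain ⟨k, N₁, hk⟩ := params (C := C₄ * ((r₁ + 1 : ℕ) : ℝ)) (ε := δ) (by positivity) hδ0
  obtain ⟨N₂, hN₂⟩ := type_count (K := K) hδ0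
  obtain ⟨N, hN⟩ : ∃ N, N = max N₁ N₂ := ⟨_, rfl⟩
  have hinf' : (Z \ (Z₁ : Set (HeightOneSpectrum (𝓞 K)))).Infinite := hZinf.diff Z₁.finite_toSet
  obtain ⟨Z₂, hZ₂, hZ₂c⟩ := exists_T hinf' (max N₀ 9) (3 * N)
  obtain ⟨X₄, hX₄, h5⟩ := hN₂ Z₂ N (by rw [hN]; exact le_max_right _ _) hZ₂c
    (fun v hv => (hZ v (hZ₂ v hv).1.1).2)
  obtain ⟨hk0, hk1⟩ := hk N (by rw [hN]; exact le_max_left _ _)
  -- the first moments
  have h6 : ∀ (q : HeightOneSpectrum (𝓞 K)) (T : Finset (HeightOneSpectrum (𝓞 K))), ∃ X₀ : ℝ,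
      T ⊆ Z₂ → ∀ X : ℝ, X₀ ≤ X →
        ({p : 𝓞 K × 𝓞 K | p ∈ Bx K X ∧ FamS S (e + 1) q T p.1 p.2 ∧ BadS S T p.1 p.2}.ncard : ℝ) ≤
          C₄ * (∏ v ∈ T, ((1 + 1 / (Nv v : ℝ)) ^ 2 / 4)) * X ^ (5 * Module.finrank ℚ K) := by
    intro q T
    by_cases hT : T ⊆ Z₂
    · obtain ⟨X₀, hX₀⟩ := h4 q T (fun v hv => ⟨(le_max_left _ _).trans (hZ₂ v (hT hv)).2,
        (hZ v (hZ₂ v (hT hv)).1.1).2, hZS v (hZ₂ v (hT hv)).1.1⟩)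
      exact ⟨X₀, fun _ => hX₀⟩
    · exact ⟨0, fun h => absurd h hT⟩
  choose Xb hXb using h6
  obtain ⟨X₅, hX₅⟩ : ∃ X₅ : ℝ, X₅ = ∑ q ∈ Z₁, ∑ T ∈ Z₂.powerset, |Xb q T| := ⟨_, rfl⟩
  have hX₅' : ∀ q ∈ Z₁, ∀ T ⊆ Z₂, Xb q T ≤ X₅ := by
    intro q hq T hT
    have e1 : |Xb q T| ≤ ∑ T ∈ Z₂.powerset, |Xb q T| :=
      Finset.single_le_sum (f := fun T => |Xb q T|) (fun _ _ => abs_nonneg _)
        (Finset.mem_powerset.2 hT)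
    have e2 : ∑ T ∈ Z₂.powerset, |Xb q T| ≤ ∑ q ∈ Z₁, ∑ T ∈ Z₂.powerset, |Xb q T| :=
      Finset.single_le_sum (f := fun q => ∑ T ∈ Z₂.powerset, |Xb q T|)
        (fun _ _ => Finset.sum_nonneg fun _ _ => abs_nonneg _) hq
    rw [hX₅]
    exact (le_abs_self _).trans (e1.trans e2)
  obtain ⟨X₆, hX₆, h8⟩ := zero_count (K := K) hδ0
  refine ⟨S, e + 1, Z₁, Z₂, m', max (max (max X₁ X₂) (max X₃ X₄)) (max X₅ X₆), ?_, hm'0, hm't, hm'm,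
    hm'S, ?_, ?_, ?_, ?_⟩
  · intro v hv
    exact (hS v).2 (Or.inl hv)
  · intro q hq
    refine ⟨hZS q (hZ₁ q hq).1, fun h => (hZ₂ q h).1.2 hq, (hZ q (hZ₁ q hq).1).1⟩
  · intro p hp
    exact hZS p (hZ₂ p hp).1.1
  · intro q hq p hp
    refine hZr q (hZ₁ q hq).1 p (hZ₂ p hp).1.1 ?_
    rintro rfl
    exact (hZ₂ p hp).1.2 hq
  intro X hX
  have hXX₁ : X₁ ≤ X := (le_max_left _ _).trans ((le_max_left _ _).trans ((le_max_left _ _).trans hX))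
  have hXX₂ : X₂ ≤ X := (le_max_right _ _).trans ((le_max_left _ _).trans ((le_max_left _ _).trans hX))
  have hXX₃ : X₃ ≤ X := (le_max_left _ _).trans ((le_max_right _ _).trans ((le_max_left _ _).trans hX))
  have hXX₄ : X₄ ≤ X := (le_max_right _ _).trans ((le_max_right _ _).trans ((le_max_left _ _).trans hX))
  have hXX₅ : X₅ ≤ X := (le_max_left _ _).trans ((le_max_right _ _).trans hX)
  have hXX₆ : X₆ ≤ X := (le_max_right _ _).trans ((le_max_right _ _).trans hX)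
  have hX0 : 0 ≤ X := by linarith
  obtain ⟨Y, hY⟩ : ∃ Y : ℝ, Y = X ^ (5 * Module.finrank ℚ K) := ⟨_, rfl⟩
  have hY0 : 0 ≤ Y := by rw [hY]; positivity
  have hfin : ∀ P : 𝓞 K × 𝓞 K → Prop, {p : 𝓞 K × 𝓞 K | p ∈ Bx K X ∧ P p}.Finite := fun P =>
    (H36PP.Bx_finite K X).subset fun p hp => hp.1
  have e1 := h1 X hXX₁
  have e2 := h2 X hXX₂
  have e3 := h3 X hXX₃
  have e5 := h5 X hXX₄
  have e8 := h8 X hXX₆
  rw [← hY] at e1 e2 e3 e5 e8 ⊢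
  -- the remaining pairs
  obtain ⟨P, hP⟩ : ∃ P : Finset (𝓞 K × 𝓞 K), ∀ p, p ∈ P ↔ (p ∈ Bx K X ∧
      ((∀ v : HeightOneSpectrum (𝓞 K), v ∉ S → dsc p.1 p.2 ∉ v.asIdeal ^ 2) ∧
      (∀ v ∈ S, dsc p.1 p.2 ∉ v.asIdeal ^ (e + 1)) ∧
      (∃ q ∈ Z₁, ∀ t : 𝓞 K, t ^ 3 + p.1 * t + p.2 ∉ q.asIdeal) ∧
      N ≤ (Z₂.filter (fun v => p ∈ Pt v)).card ∧
      ¬ ∃ q ∈ Z₁, ∃ T ⊆ Z₂, FamS S (e + 1) q T p.1 p.2 ∧ ¬ BadS S T p.1 p.2)) :=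
    ⟨(hfin _).toFinset, fun p => Set.Finite.mem_toFinset _⟩
  have hbadfin : ∀ (q : HeightOneSpectrum (𝓞 K)) (T : Finset (HeightOneSpectrum (𝓞 K))),
      {p : 𝓞 K × 𝓞 K | p ∈ Bx K X ∧ FamS S (e + 1) q T p.1 p.2 ∧ BadS S T p.1 p.2}.Finite :=
    fun q T => hfin _
  have hav := average Z₂ P (fun p => Z₂.filter (fun v => p ∈ Pt v))
    (fun T => Z₁.biUnion fun q => (hbadfin q T).toFinset) N k
    (((r₁ + 1 : ℕ) : ℝ) * (C₄ * 0.31 ^ k * Y)) (by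
      intro T hT hTk
      refine (Nat.cast_le.2 Finset.card_biUnion_le).trans ?_
      rw [Nat.cast_sum]
      refine (Finset.sum_le_card_nsmul Z₁ _ (C₄ * 0.31 ^ k * Y) fun q hq => ?_).trans ?_
      · have g1 := hXb q T hT X ((hX₅' q hq T hT).trans hXX₅)
        rw [← Set.ncard_eq_toFinset_card _ (hbadfin q T)]
        refine g1.trans ?_
        rw [← hY]
        refine mul_le_mul_of_nonneg_right (mul_le_mul_of_nonneg_left ?_ hC₄.le) hY0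
        rw [← hTk]
        exact prod9 fun v hv => (le_max_right _ _).trans (hZ₂ v (hT hv)).2
      · rw [hZ₁c, nsmul_eq_mul])
    (by
      intro p hp
      obtain ⟨hpB, hsq, hbd, ⟨q, hq, hqr⟩, hNc, hno⟩ := (hP p).1 hp
      refine ⟨Finset.filter_subset _ _, hNc, fun T hT hTk => ?_⟩
      have hTZ : T ⊆ Z₂ := hT.trans (Finset.filter_subset _ _)
      have hF : FamS S (e + 1) q T p.1 p.2 :=
        ⟨hqr, fun v hv => (Finset.mem_filter.1 (hT hv)).2, hsq, hbd⟩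
      rw [Finset.mem_biUnion]
      refine ⟨q, hq, ?_⟩
      rw [Set.Finite.mem_toFinset]
      refine ⟨hpB, hF, ?_⟩
      by_contra hB
      exact hno ⟨q, hq, T, hTZ, hF, hB⟩)
  rw [hZ₂c] at hav
  have ePc : (P.card : ℝ) ≤ δ * Y := by
    have hc0 : (0 : ℝ) < (N.choose k : ℝ) := by exact_mod_cast hk0
    have g2 : (N.choose k : ℝ) * (P.card : ℝ) ≤ (N.choose k : ℝ) * (δ * Y) := by
      refine hav.trans ?_
      calc ((3 * N).choose k : ℝ) * (((r₁ + 1 : ℕ) : ℝ) * (C₄ * 0.31 ^ k * Y))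
          = (C₄ * ((r₁ + 1 : ℕ) : ℝ) * 0.31 ^ k * ((3 * N).choose k : ℝ)) * Y := by ring
        _ ≤ (δ * (N.choose k : ℝ)) * Y := mul_le_mul_of_nonneg_right hk1 hY0
        _ = _ := by ring
    exact le_of_mul_le_mul_left g2 hc0
  -- the union bound
  have hsub : {p : 𝓞 K × 𝓞 K | p ∈ Bx K X ∧ ¬ ∃ q ∈ Z₁, ∃ T ⊆ Z₂, FamS S (e + 1) q T p.1 p.2 ∧
      ¬ BadS S T p.1 p.2} ⊆
      ((((Tail K M₀ X ∪ {p : 𝓞 K × 𝓞 K | p ∈ Bx K X ∧ ∃ v ∈ S, dsc p.1 p.2 ∈ v.asIdeal ^ e}) ∪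
        {p : 𝓞 K × 𝓞 K | p ∈ Bx K X ∧ ∀ v ∈ Z₁, ∃ t : 𝓞 K,
          t ^ 3 + p.1 * t + p.2 ∈ v.asIdeal}) ∪
        {p : 𝓞 K × 𝓞 K | p ∈ Bx K X ∧ (Z₂.filter (fun v => p ∈ Pt v)).card < N}) ∪
        {p : 𝓞 K × 𝓞 K | p ∈ Bx K X ∧ p.1 = 0}) ∪ (P : Set (𝓞 K × 𝓞 K)) := by
    rintro p ⟨hpB, hno⟩
    by_cases c1 : p ∈ Tail K M₀ X
    · exact Or.inl (Or.inl (Or.inl (Or.inl (Or.inl c1))))
    by_cases c2 : ∃ v ∈ S, dsc p.1 p.2 ∈ v.asIdeal ^ e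
    · exact Or.inl (Or.inl (Or.inl (Or.inl (Or.inr ⟨hpB, c2⟩))))
    by_cases c3 : ∀ v ∈ Z₁, ∃ t : 𝓞 K, t ^ 3 + p.1 * t + p.2 ∈ v.asIdeal
    · exact Or.inl (Or.inl (Or.inl (Or.inr ⟨hpB, c3⟩)))
    by_cases c4 : (Z₂.filter (fun v => p ∈ Pt v)).card < N
    · exact Or.inl (Or.inl (Or.inr ⟨hpB, c4⟩))
    by_cases c5 : p.1 = 0
    · exact Or.inl (Or.inr ⟨hpB, c5⟩)
    refine Or.inr ?_
    rw [Finset.mem_coe, hP]
    push Not at c2 c3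
    refine ⟨hpB, ?_, ?_, ?_, not_lt.1 c4, hno⟩
    · intro v hv hd
      have hv' : ¬ ((6 : 𝓞 K) ∈ v.asIdeal ∨ ¬ M₀ < Nv v) := fun h => hv ((hS v).2 h)
      rw [not_or, not_not] at hv'
      refine c1 ⟨hpB, c5, ?_, v, hv'.1, hv'.2, hd⟩
      intro h0
      obtain ⟨u, hu⟩ := Ya_exists_two K
      have hu6 : (6 : 𝓞 K) ∈ u.asIdeal := by
        have : (6 : 𝓞 K) = 3 * 2 := by norm_num
        rw [this]
        exact u.asIdeal.mul_mem_left _ hu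
      apply c2 u ((hS u).2 (Or.inl hu6))
      rw [h0]
      exact Submodule.zero_mem _
    · intro v hv hd
      exact c2 v hv (Ideal.pow_le_pow_right (Nat.le_succ e) hd)
    · exact c3
  have hfinT : (Tail K M₀ X).Finite := (H36PP.Bx_finite K X).subset fun p hp => hp.1
  have hfin1 := hfinT.union (hfin fun p => ∃ v ∈ S, dsc p.1 p.2 ∈ v.asIdeal ^ e)
  have hfin2 := hfin1.union (hfin fun p => ∀ v ∈ Z₁, ∃ t : 𝓞 K, t ^ 3 + p.1 * t + p.2 ∈ v.asIdeal)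
  have hfin3 := hfin2.union (hfin fun p => (Z₂.filter (fun v => p ∈ Pt v)).card < N)
  have hfin4 := hfin3.union (hfin fun p => p.1 = 0)
  have hfin5 := hfin4.union P.finite_toSet
  have g := Set.ncard_le_ncard hsub hfin5
  have g1 := g.trans (Set.ncard_union_le _ _)
  have g2 := g1.trans (Nat.add_le_add_right (Set.ncard_union_le _ _) _)
  have g3 := g2.trans (Nat.add_le_add_right (Nat.add_le_add_right (Set.ncard_union_le _ _) _) _)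
  have g4 := g3.trans (Nat.add_le_add_right (Nat.add_le_add_right (Nat.add_le_add_right
    (Set.ncard_union_le _ _) _) _) _)
  have g5 := g4.trans (Nat.add_le_add_right (Nat.add_le_add_right (Nat.add_le_add_right
    (Nat.add_le_add_right (Set.ncard_union_le _ _) _) _) _) _)
  rw [Set.ncard_coe_finset] at g5
  have g6 : ({p : 𝓞 K × 𝓞 K | p ∈ Bx K X ∧ ¬ ∃ q ∈ Z₁, ∃ T ⊆ Z₂, FamS S (e + 1) q T p.1 p.2 ∧
      ¬ BadS S T p.1 p.2}.ncard : ℝ) ≤ _ := Nat.cast_le.2 g5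
  push_cast at g6
  have hε' : ε * Y = δ * Y + δ * Y + δ * Y + δ * Y + δ * Y + δ * Y := by rw [hδ]; ring
  linarith

end H36MT
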