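import Pool.Agent.H36.MT.Dg
import Pool.Agent.H36.PP.Nb
import Pool.Agent.H76.PP.Ld
import Pool.Agent.H76.PP.Lb

/-!
ROW Cl (project MP_78d38b_MT): the number of pairs of the box in a residue class.
-/

set_option autoImplicit false
set_option linter.unusedSectionVars false
open scoped Classical

open WithZero NumberField IsDedekindDomain H38RT
open H76PP

namespace H36MT

theorem class_lower {K : Type} [Field K] [NumberField K] {m : Ideal (𝓞 K)} (hm : m ≠ ⊥) :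
    ∃ c X₀ : ℝ, 0 < c ∧ ∀ X : ℝ, X₀ ≤ X → ∀ a₀ b₀ : 𝓞 K,
      c * X ^ (5 * Module.finrank ℚ K) ≤
        ({p : 𝓞 K × 𝓞 K | p ∈ Bx K X ∧ p.1 - a₀ ∈ m ∧ p.2 - b₀ ∈ m}.ncard : ℝ) := by
  obtain ⟨c, hc, h⟩ := coset_lower K
  obtain ⟨T₀, hT⟩ := h m hm
  have hfin : Finite (𝓞 K ⧸ m) := Ideal.finiteQuotientOfFreeOfNeBot m hm
  have hN : (0 : ℝ) < (Ideal.absNorm m : ℝ) := by
    have h1 : Ideal.absNorm m ≠ 0 := Ideal.absNorm_eq_zero_iff.not.2 hm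
    exact_mod_cast Nat.pos_of_ne_zero h1
  refine ⟨c ^ 2 / (Ideal.absNorm m : ℝ) ^ 2, max 1 T₀, by positivity, fun X hX a₀ b₀ => ?_⟩
  have h1 : (1 : ℝ) ≤ X := le_trans (le_max_left _ _) hX
  have h2 : T₀ ≤ X := le_trans (le_max_right _ _) hX
  have hX2 : T₀ ≤ X ^ 2 := by nlinarith
  have hX3 : T₀ ≤ X ^ 3 := by
    have : X ≤ X ^ 3 := le_self_pow₀ h1 (by norm_num)
    linarith
  have ha := hT (X ^ 2) hX2 a₀
  have hb := hT (X ^ 3) hX3 b₀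
  have hset : {p : 𝓞 K × 𝓞 K | p ∈ Bx K X ∧ p.1 - a₀ ∈ m ∧ p.2 - b₀ ∈ m} =
      {a : 𝓞 K | a ∈ bx K (X ^ 2) ∧ a - a₀ ∈ m} ×ˢ {a : 𝓞 K | a ∈ bx K (X ^ 3) ∧ a - b₀ ∈ m} := by
    ext p
    constructor
    · rintro ⟨⟨h3, h4⟩, h5, h6⟩
      exact ⟨⟨h3, h5⟩, ⟨h4, h6⟩⟩
    · rintro ⟨⟨h3, h5⟩, ⟨h4, h6⟩⟩
      exact ⟨⟨h3, h4⟩, h5, h6⟩
  rw [hset, Set.ncard_prod]
  push_cast
  calc c ^ 2 / (Ideal.absNorm m : ℝ) ^ 2 * X ^ (5 * Module.finrank ℚ K)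
      = (c * ((X ^ 2) ^ (Module.finrank ℚ K) / (Ideal.absNorm m : ℝ))) *
        (c * ((X ^ 3) ^ (Module.finrank ℚ K) / (Ideal.absNorm m : ℝ))) := by
        rw [← pow_mul, ← pow_mul, show 5 * Module.finrank ℚ K = 2 * Module.finrank ℚ K +
          3 * Module.finrank ℚ K by ring, pow_add]
        field_simp
    _ ≤ _ := by
        apply mul_le_mul ha hb
        · have : (0 : ℝ) ≤ X := by linarith
          positivity
        · positivity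

end H36MT
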