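import Pool.Agent.H36.MT.Fe
import Pool.Agent.H76.PP.Yb

/-!
ROW Js (project MP_78d38b_MT, about 150 lines): few members of the family have the same `j`-invariant. MODIFICATION of `Fam.same_j` in
`Pool/Agent/H76/PP/Ya.lean` and of `exists_sub` in `Pool/Agent/H76/PP/Yb.lean` (read them first).

PROOF. Let `p = (A, B)`, `p' = (A', B')` be two members with `A^3 B'^2 = A'^3 B^2`. `B, B' ≠ 0` (otherwise `t = 0` is a root: `hF.irr 0`), `A, A' ≠ 0` (`0 < δ X^2 ≤ ‖s A‖` for some `s`). Put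
`t = B' A / (B A') : K`; then `t^2 = A'/A`, `t^3 = B'/B`, so `A' = t^2 A`, `B' = t^3 B`, `dsc' = t^6 dsc`. For `v ∉ S`: `dsc, dsc' ∉ v^2`, so `|6 ord_v t| ≤ 1`, so `v t = 1`. For `v ∈ S`:
`dsc, dsc' ∉ v^e`, so `|6 ord_v t| < e` and `v t ≤ exp e`. Let `r` be from `exists_r S e` (`Fe.lean`: `0 < r`, `(r : 𝓞 K) ∈ v^e` for `v ∈ S`): `v (r t) ≤ 1` for all `v`, so `r t ∈ 𝓞 K`
(`HeightOneSpectrum.mem_integers_of_valuation_le_one`). Conjugates: `‖s t‖^2 = ‖s A'‖ / ‖s A‖ ≤ X^2 / (δ X^2) = 1/δ`, so `r t ∈ bx K (r * √(1/δ))` which is finite (`H76PP.bx_finite`). `M` = its number of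
elements: for fixed `p` the map `p' ↦ r t` is injective. The choice of `G` (one member for every value of the relation) is as in `exists_sub`.
-/

set_option autoImplicit false
set_option linter.unusedSectionVars false
open scoped Classical

open WithZero NumberField IsDedekindDomain H38RT
open H76PP

namespace H36MT

private theorem Js_six {x : WithZero (Multiplicative ℤ)} {m k : ℤ} (hk : m < 6 * (k + 1))
    (h : x ^ 6 ≤ exp m) : x ≤ exp k := by
  by_cases h0 : x = 0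
  · rw [h0]
    exact zero_le
  · rw [← exp_log h0] at h ⊢
    rw [← exp_nsmul, exp_le_exp] at h
    rw [exp_le_exp]
    rw [nsmul_eq_mul] at h
    push_cast at h
    omega

private theorem Js_val {K : Type} [Field K] [NumberField K] {v : HeightOneSpectrum (𝓞 K)}
    {a : 𝓞 K} {n : ℕ} (h : a ∉ v.asIdeal ^ n) :
    exp (-((n : ℤ) - 1)) ≤ v.valuation K (a : K) := by
  by_contra hlt
  apply h
  have h8 : v.valuation K (a : K) ≤ exp (-(n : ℤ)) := by
    rw [not_le] at hlt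
    by_cases h0 : v.valuation K (a : K) = 0
    · rw [h0]
      exact zero_le
    · rw [← exp_log h0] at hlt ⊢
      rw [exp_lt_exp] at hlt
      rw [exp_le_exp]
      omega
  rw [HeightOneSpectrum.valuation_of_algebraMap] at h8
  exact (v.intValuation_le_pow_iff_mem a n).1 h8

private theorem Js_same {K : Type} [Field K] [NumberField K]
    {S : Finset (HeightOneSpectrum (𝓞 K))} {e : ℕ}
    {q₀ : HeightOneSpectrum (𝓞 K)} {T : Finset (HeightOneSpectrum (𝓞 K))}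
    {A B A' B' : 𝓞 K} (hF : FamS S e q₀ T A B) (_hF' : FamS S e q₀ T A' B')
    (hA0 : A ≠ 0) (hA0' : A' ≠ 0) (hB0 : B ≠ 0) (hB0' : B' ≠ 0)
    {r : ℕ} (hrS : ∀ v ∈ S, (r : 𝓞 K) ∈ v.asIdeal ^ e)
    (h : A ^ 3 * B' ^ 2 = A' ^ 3 * B ^ 2) :
    ∃ u : 𝓞 K, (r : 𝓞 K) ^ 2 * A' = u ^ 2 * A ∧ (r : 𝓞 K) ^ 3 * B' = u ^ 3 * B := by
  have hA : (A : K) ≠ 0 := RingOfIntegers.coe_ne_zero_iff.2 hA0
  have hA' : (A' : K) ≠ 0 := RingOfIntegers.coe_ne_zero_iff.2 hA0'
  have hB : (B : K) ≠ 0 := RingOfIntegers.coe_ne_zero_iff.2 hB0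
  have hB' : (B' : K) ≠ 0 := RingOfIntegers.coe_ne_zero_iff.2 hB0'
  have hK : (A : K) ^ 3 * (B' : K) ^ 2 = (A' : K) ^ 3 * (B : K) ^ 2 := by
    have h1 := congrArg (algebraMap (𝓞 K) K) h
    simpa only [map_mul, map_pow] using h1
  obtain ⟨t, ht⟩ : ∃ t : K, t = (B' : K) * (A : K) / ((B : K) * (A' : K)) := ⟨_, rfl⟩
  have e1 : (A' : K) = t ^ 2 * (A : K) := by
    rw [ht]
    field_simp
    linear_combination -hK
  have e2 : (B' : K) = t ^ 3 * (B : K) := by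
    have e3 : t ^ 3 * (B : K) = (t ^ 2 * (A : K)) * (t * (B : K) / (A : K)) := by
      field_simp
    rw [e3, ← e1, ht]
    field_simp
  have e4 : ((dsc A' B' : 𝓞 K) : K) = t ^ 6 * ((dsc A B : 𝓞 K) : K) := by
    have e5 : ((dsc A' B' : 𝓞 K) : K) = 4 * (A' : K) ^ 3 + 27 * (B' : K) ^ 2 := by
      simp only [dsc, map_add, map_mul, map_pow, map_ofNat]
    have e6 : ((dsc A B : 𝓞 K) : K) = 4 * (A : K) ^ 3 + 27 * (B : K) ^ 2 := by
      simp only [dsc, map_add, map_mul, map_pow, map_ofNat]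
    rw [e5, e6]
    rw [e1, e2]
    ring
  have hsix : ∀ (v : HeightOneSpectrum (𝓞 K)) (n : ℕ), dsc A B ∉ v.asIdeal ^ n →
      v.valuation K t ^ 6 ≤ exp ((n : ℤ) - 1) := by
    intro v n hn
    have h4 := congrArg (v.valuation K) e4
    rw [map_mul, map_pow] at h4
    have h5 : v.valuation K ((dsc A' B' : 𝓞 K) : K) ≤ 1 := v.valuation_le_one _
    have h7 := Js_val hn
    rw [h4] at h5
    have h10 : v.valuation K t ^ 6 * exp (-((n : ℤ) - 1)) ≤ 1 :=
      (mul_le_mul_right h7 _).trans h5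
    have h11 : v.valuation K t ^ 6 * exp (-((n : ℤ) - 1)) * exp ((n : ℤ) - 1) ≤
        1 * exp ((n : ℤ) - 1) := mul_le_mul_left h10 _
    rwa [mul_assoc, ← exp_add, neg_add_cancel, exp_zero, mul_one, one_mul] at h11
  have hint : ∀ v : HeightOneSpectrum (𝓞 K), v.valuation K ((r : K) * t) ≤ 1 := by
    intro v
    rw [map_mul]
    have hrK : ((r : 𝓞 K) : K) = (r : K) := map_natCast (algebraMap (𝓞 K) K) r
    by_cases hv : v ∈ S
    · have h1 : v.valuation K t ≤ exp (e : ℤ) :=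
        Js_six (by omega) (hsix v e (hF.bdd v hv))
      have h2 : v.valuation K (r : K) ≤ exp (-(e : ℤ)) := by
        rw [← hrK, HeightOneSpectrum.valuation_of_algebraMap]
        exact (v.intValuation_le_pow_iff_mem (r : 𝓞 K) e).2 (hrS v hv)
      calc v.valuation K (r : K) * v.valuation K t ≤ exp (-(e : ℤ)) * exp (e : ℤ) :=
            mul_le_mul' h2 h1
        _ = 1 := by rw [← exp_add, neg_add_cancel, exp_zero]
    · have h1 : v.valuation K t ≤ exp (0 : ℤ) :=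
        Js_six (m := ((2 : ℕ) : ℤ) - 1) (by norm_num) (hsix v 2 (hF.sqf v hv))
      rw [exp_zero] at h1
      have h2 : v.valuation K (r : K) ≤ 1 := by
        rw [← hrK]
        exact v.valuation_le_one _
      exact mul_le_one' h2 h1
  obtain ⟨u, hu⟩ := HeightOneSpectrum.mem_integers_of_valuation_le_one K ((r : K) * t) hint
  refine ⟨u, ?_, ?_⟩
  · apply RingOfIntegers.coe_injective
    rw [map_mul, map_mul, map_pow, map_pow, hu, map_natCast]
    change (r : K) ^ 2 * (A' : K) = ((r : K) * t) ^ 2 * (A : K)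
    rw [e1]
    ring
  · apply RingOfIntegers.coe_injective
    rw [map_mul, map_mul, map_pow, map_pow, hu, map_natCast]
    change (r : K) ^ 3 * (B' : K) = ((r : K) * t) ^ 3 * (B : K)
    rw [e2]
    ring

theorem exists_subS (K : Type) [Field K] [NumberField K] (S : Finset (HeightOneSpectrum (𝓞 K)))
    (e : ℕ) {δ : ℝ} (hδ : 0 < δ) :
    ∃ M : ℕ, ∀ (q₀ : HeightOneSpectrum (𝓞 K)) (T : Finset (HeightOneSpectrum (𝓞 K))) (X : ℝ),
      0 < X → ∀ P : Finset (𝓞 K × 𝓞 K), (∀ p ∈ P, p ∈ Bx K X ∧ FamS S e q₀ T p.1 p.2 ∧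
        ∀ s : K →+* ℂ, δ * X ^ 2 ≤ ‖s (p.1 : K)‖) → ∃ G ⊆ P, P.card ≤ M * G.card ∧
          ∀ p ∈ G, ∀ q ∈ G, p.1 ^ 3 * q.2 ^ 2 = q.1 ^ 3 * p.2 ^ 2 → p = q := by
  obtain ⟨r, hr0, hrS⟩ := exists_r S e
  refine ⟨(H76PP.bx_finite K (√((r : ℝ) ^ 2 / δ))).toFinset.card, fun q₀ T X hX P hP => ?_⟩
  have hneA : ∀ p ∈ P, p.1 ≠ 0 := by
    intro p hp h0
    obtain ⟨s⟩ : Nonempty (K →+* ℂ) := inferInstance
    have h1 := (hP p hp).2.2 s
    have h3 : (p.1 : K) = 0 := by rw [h0]; exact map_zero (algebraMap (𝓞 K) K)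
    rw [h3, map_zero, norm_zero] at h1
    have h2 : 0 < δ * X ^ 2 := by positivity
    linarith
  have hneB : ∀ p ∈ P, p.2 ≠ 0 := by
    intro p hp h0
    apply (hP p hp).2.1.irr 0
    rw [h0]
    have h1 : (0 : 𝓞 K) ^ 3 + p.1 * 0 + 0 = 0 := by ring
    rw [h1]
    exact Submodule.zero_mem _
  have hrne : (r : 𝓞 K) ≠ 0 := Nat.cast_ne_zero.2 hr0.ne'
  set φ : 𝓞 K × 𝓞 K → K := fun p => (p.1 : K) ^ 3 / (p.2 : K) ^ 2 with hφ
  have hφ1 : ∀ p ∈ P, ∀ q ∈ P, φ p = φ q ↔ p.1 ^ 3 * q.2 ^ 2 = q.1 ^ 3 * p.2 ^ 2 := by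
    intro p hp q hq
    have h1 : (p.2 : K) ≠ 0 := RingOfIntegers.coe_ne_zero_iff.2 (hneB p hp)
    have h2 : (q.2 : K) ≠ 0 := RingOfIntegers.coe_ne_zero_iff.2 (hneB q hq)
    rw [hφ]
    beta_reduce
    rw [div_eq_div_iff (pow_ne_zero 2 h1) (pow_ne_zero 2 h2)]
    constructor
    · intro h
      apply RingOfIntegers.coe_injective
      simp only [map_mul, map_pow]
      exact h
    · intro h
      have h3 := congrArg (algebraMap (𝓞 K) K) h
      simp only [map_mul, map_pow] at h3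
      exact h3
  have hfib : ∀ b ∈ P.image φ, (P.filter fun a => φ a = b).card ≤
      (H76PP.bx_finite K (√((r : ℝ) ^ 2 / δ))).toFinset.card := by
    intro b hb
    obtain ⟨p, hp, rfl⟩ := Finset.mem_image.1 hb
    have htw : ∀ q : 𝓞 K × 𝓞 K, ∃ t : 𝓞 K, q ∈ P → φ q = φ p →
        (r : 𝓞 K) ^ 2 * q.1 = t ^ 2 * p.1 ∧ (r : 𝓞 K) ^ 3 * q.2 = t ^ 3 * p.2 := by
      intro q
      by_cases hq : q ∈ P ∧ φ q = φ p
      · obtain ⟨t, ht⟩ := Js_same (hP p hp).2.1 (hP q hq.1).2.1 (hneA p hp) (hneA q hq.1)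
          (hneB p hp) (hneB q hq.1) hrS ((hφ1 p hp q hq.1).1 hq.2.symm)
        exact ⟨t, fun _ _ => ht⟩
      · exact ⟨0, fun h h' => absurd ⟨h, h'⟩ hq⟩
    choose t ht using htw
    refine Finset.card_le_card_of_injOn t ?_ ?_
    · intro q hq
      rw [Finset.mem_coe, Finset.mem_filter] at hq
      rw [Finset.mem_coe, Set.Finite.mem_toFinset]
      intro s
      obtain ⟨h1, -⟩ := ht q hq.1 hq.2
      have h2 : (r : ℂ) ^ 2 * s (q.1 : K) = s ((t q : 𝓞 K) : K) ^ 2 * s (p.1 : K) := by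
        have h3 := congrArg (algebraMap (𝓞 K) K) h1
        rw [map_mul, map_mul, map_pow, map_pow, map_natCast] at h3
        have h4 := congrArg s h3
        rw [map_mul, map_mul, map_pow, map_pow, map_natCast] at h4
        exact h4
      have h5 := (hP q hq.1).1.1 s
      have h6 := (hP p hp).2.2 s
      have h2' := congrArg norm h2
      rw [norm_mul, norm_mul, norm_pow, norm_pow, Complex.norm_natCast] at h2'
      obtain ⟨y, hy⟩ : ∃ y : ℝ, y = ‖s ((t q : 𝓞 K) : K)‖ := ⟨_, rfl⟩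
      rw [← hy] at h2' ⊢
      have hy0 : 0 ≤ y := by rw [hy]; exact norm_nonneg _
      have h7 : y ^ 2 * (δ * X ^ 2) ≤ (r : ℝ) ^ 2 * X ^ 2 := by
        calc y ^ 2 * (δ * X ^ 2) ≤ y ^ 2 * ‖s (p.1 : K)‖ :=
              mul_le_mul_of_nonneg_left h6 (by positivity)
          _ = (r : ℝ) ^ 2 * ‖s (q.1 : K)‖ := h2'.symm
          _ ≤ (r : ℝ) ^ 2 * X ^ 2 := mul_le_mul_of_nonneg_left h5 (by positivity)
      apply Real.le_sqrt_of_sq_le
      rw [le_div_iff₀ hδ]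
      have hX2 : 0 < X ^ 2 := by positivity
      by_contra hcon
      rw [not_le] at hcon
      nlinarith
    · intro q hq q' hq' h
      rw [Finset.mem_coe, Finset.mem_filter] at hq hq'
      obtain ⟨h1, h2⟩ := ht q hq.1 hq.2
      obtain ⟨h3, h4⟩ := ht q' hq'.1 hq'.2
      rw [h] at h1 h2
      exact Prod.ext (mul_left_cancel₀ (pow_ne_zero 2 hrne) (h1.trans h3.symm))
        (mul_left_cancel₀ (pow_ne_zero 3 hrne) (h2.trans h4.symm))
  have hcard := Finset.card_le_mul_card_image P _ hfib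
  have hsurj : Set.SurjOn φ (P : Set (𝓞 K × 𝓞 K)) ((P.image φ : Finset K) : Set K) := by
    intro b hb
    rw [Finset.mem_coe, Finset.mem_image] at hb
    obtain ⟨p, hp, hpb⟩ := hb
    exact ⟨p, hp, hpb⟩
  obtain ⟨G, hGS, hGinj, hGim⟩ :=
    Finset.exists_subset_injOn_image_eq_of_surjOn (P : Set (𝓞 K × 𝓞 K)) (P.image φ) hsurj
  have hGS' : G ⊆ P := fun p hp => by exact_mod_cast hGS (Finset.mem_coe.2 hp)
  refine ⟨G, hGS', ?_, ?_⟩
  · rw [← hGim, Finset.card_image_of_injOn hGinj] at hcard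
    exact hcard
  · intro p hp q hq h
    exact hGinj (Finset.mem_coe.2 hp) (Finset.mem_coe.2 hq) ((hφ1 p (hGS' hp) q (hGS' hq)).2 h)

end H36MT
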