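import Pool.Agent.H76.PP.Df1
import Pool.Agent.H76.PP.E0

/-!
Definitions for the project MP_78d38b_MT (no row). The paper proof is /team-store/H36_78d38b_MT.md, it is a
modification of `Pool/Agent/H76/PP/NOTE.md`.
-/

set_option autoImplicit false
set_option linter.unusedSectionVars false
open scoped Classical

open WithZero NumberField IsDedekindDomain H38RT
open H38T1 (SC sc scu rep eo la si Pri OddP tp unif)
open H76PP

namespace H36MT

variable {K : Type} [Field K] [NumberField K]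

/-- The coordinates with respect to `1, θ, θ^2` of the integers of `L = K(θ)` are integral at `v`. -/
def LB {L : Type} [Field L] [NumberField L] [Algebra K L] {A B : K} {θ : L} (h : Cub K L A B θ)
    (v : HeightOneSpectrum (𝓞 K)) : Prop :=
  ∀ (x : 𝓞 L) (i : Fin 3), v.valuation K (h.co i (x : L)) ≤ 1

/-- The family of pairs `(A, B)`: as `H76PP.Fam`, but at the primes of the finite set `S` we only ask
that `4 A^3 + 27 B^2` is not divisible by `v ^ e`. -/
structure FamS (S : Finset (HeightOneSpectrum (𝓞 K))) (e : ℕ) (q₀ : HeightOneSpectrum (𝓞 K))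
    (T : Finset (HeightOneSpectrum (𝓞 K))) (A B : 𝓞 K) : Prop where
  irr : ∀ t : 𝓞 K, t ^ 3 + A * t + B ∉ q₀.asIdeal
  typ : ∀ v ∈ T, ∃ t : 𝓞 K, t ^ 3 + A * t + B ∈ v.asIdeal ∧
    ∀ s : 𝓞 K, -3 * t ^ 2 - 4 * A - s ^ 2 ∉ v.asIdeal
  sqf : ∀ v : HeightOneSpectrum (𝓞 K), v ∉ S → dsc A B ∉ v.asIdeal ^ 2
  bdd : ∀ v ∈ S, dsc A B ∉ v.asIdeal ^ e

/-- There is a nontrivial class of `L`, `L = K[x] / (x^3 + A x + B)`, of square norm, with even
valuations outside `S` and trivial at the primes above `T`. -/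
def BadS (S T : Finset (HeightOneSpectrum (𝓞 K))) (A B : 𝓞 K) : Prop :=
  ∃ (L : Type) (_ : Field L) (_ : NumberField L) (_ : Algebra K L) (θ : L) (c : SC L),
    Cub K L (A : K) (B : K) θ ∧ c ≠ 0 ∧ scm (Algebra.norm K : L →* K) c = 0 ∧
    (∀ w : HeightOneSpectrum (𝓞 L), dn K w ∉ S → eo w c = 0) ∧
    ∀ w : HeightOneSpectrum (𝓞 L), dn K w ∈ T → la w c = 0

/-- `D` is a twisting factor for the set `J` of auxiliary primes, a local square at the primes of `S`
and at the real places. -/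
structure TwS (S : Finset (HeightOneSpectrum (𝓞 K))) (q₀ : HeightOneSpectrum (𝓞 K))
    (J : Finset (HeightOneSpectrum (𝓞 K))) (D : K) : Prop where
  ne : D ≠ 0
  odd : ∀ v ∈ J, Odd (ord (v.valuation K) D)
  even : ∀ v : HeightOneSpectrum (𝓞 K), v ∉ S → v ∉ J → v ≠ q₀ → Even (ord (v.valuation K) D)
  loc : ∀ v ∈ S, ∃ m : K, m ≠ 0 ∧ v.valuation K (D * m ^ 2 - 1) < v.valuation K 4
  pos : ∀ s : K →+* ℝ, 0 < s D

/-- The classes of square norm with even valuations outside `P` which satisfy the local conditions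
at `P` and at the real places are trivial. -/
def RelTriv (K L : Type) [Field K] [NumberField K] [Field L] [NumberField L] [Algebra K L]
    (P : Finset (HeightOneSpectrum (𝓞 K))) (a b : K) (θ : L) : Prop :=
  ∀ d : Fin 3 → K, ev θ d ≠ 0 → IsSquare (Algebra.norm K (ev θ d)) →
    (∀ w : HeightOneSpectrum (𝓞 L), dn K w ∉ P → eo w (sc (ev θ d)) = 0) →
    (∀ v ∈ P, LC (algebraMap K (v.adicCompletion K)) a b d) →
    (∀ s : K →+* ℝ, LC s a b d) → IsSquare (ev θ d)

theorem FamS.dsc_ne {S : Finset (HeightOneSpectrum (𝓞 K))} {e : ℕ} {q₀ : HeightOneSpectrum (𝓞 K)}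
    {T : Finset (HeightOneSpectrum (𝓞 K))} {A B : 𝓞 K} (hF : FamS S e q₀ T A B) :
    (4 * (A : K) ^ 3 + 27 * (B : K) ^ 2) ≠ 0 := by
  intro h
  have h1 : dsc A B = 0 := by
    apply RingOfIntegers.coe_injective
    rw [map_zero, ← h]
    unfold dsc
    simp only [map_add, map_mul, map_pow, map_ofNat]
  by_cases hq : q₀ ∈ S
  · apply hF.bdd q₀ hq
    rw [h1]
    exact Submodule.zero_mem _
  · apply hF.sqf q₀ hq
    rw [h1]
    exact Submodule.zero_mem _

end H36MT
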