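import Pool.Agent.H36.MT.Df
import Pool.Agent.H76.PP.Th

/-!
`D` is a local square at the places of `S` (project MP_78d38b_MT, no row, modification of `sq_two` in `Pool/Agent/H76/PP/Th.lean`).
-/

set_option autoImplicit false
set_option linter.unusedSectionVars false
open scoped Classical

open WithZero NumberField IsDedekindDomain H38RT
open H76PP

namespace H36MT

theorem sq_S {K : Type} [Field K] [NumberField K] {v : HeightOneSpectrum (𝓞 K)}
    {D m : K} (hm : m ≠ 0) (h : v.valuation K (D * m ^ 2 - 1) < v.valuation K 4) :
    ∃ r : v.adicCompletion K, algebraMap K (v.adicCompletion K) D = r ^ 2 := by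
  have hval : ∀ k : K, (Valued.v (algebraMap K (v.adicCompletion K) k) :
      WithZero (Multiplicative ℤ)) = v.valuation K k := fun k =>
    HeightOneSpectrum.valuedAdicCompletion_eq_valuation' v k
  have h20 : (2 : v.adicCompletion K) ≠ 0 := by
    have e : (2 : v.adicCompletion K) = algebraMap K (v.adicCompletion K) 2 := by
      rw [map_ofNat]
    rw [e, Ne, map_eq_zero]
    exact two_ne_zero
  have h4 : (Valued.v (algebraMap K (v.adicCompletion K) (D * m ^ 2 - 1)) :
      WithZero (Multiplicative ℤ)) < Valued.v (4 : v.adicCompletion K) := by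
    have e : (4 : v.adicCompletion K) = algebraMap K (v.adicCompletion K) 4 := by
      rw [map_ofNat]
    rw [e, hval, hval]
    exact h
  obtain ⟨t, ht⟩ := Pool.Agent.H10.isSquare_one_add h20 h4
  have e3 : 1 + algebraMap K (v.adicCompletion K) (D * m ^ 2 - 1) =
      algebraMap K (v.adicCompletion K) D * algebraMap K (v.adicCompletion K) m ^ 2 := by
    rw [map_sub, map_one, map_mul, map_pow]
    ring
  rw [e3] at ht
  have hm0 : algebraMap K (v.adicCompletion K) m ≠ 0 := by
    rw [Ne, map_eq_zero]
    exact hm
  refine ⟨t / algebraMap K (v.adicCompletion K) m, ?_⟩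
  rw [div_pow, eq_div_iff (pow_ne_zero 2 hm0), ht]
  ring

end H36MT
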