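import Mathlib

/-!
ROW Av (project MP_78d38b_MT, about 90 lines, Mathlib only): an averaging argument and a choice of parameters.

PROOF of average (double counting): `(N.choose k) * P.card ≤ ∑ p ∈ P, ((U p).powersetCard k).card` (`Finset.card_powersetCard`,
`Nat.choose_le_choose`, `N ≤ (U p).card`) `≤ ∑ p ∈ P, ((Z.powersetCard k).filter (fun T => p ∈ bad T)).card` (if `T ⊆ U p`, `T.card = k` then `T ⊆ Z` and
`p ∈ bad T`) `= ∑ T ∈ Z.powersetCard k, (P.filter (fun p => p ∈ bad T)).card` (`Finset.sum_card_bipartiteAbove_eq_sum_card_bipartiteBelow` or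
`Finset.sum_comm` for the indicator functions) `≤ ∑ T ∈ Z.powersetCard k, (bad T).card ≤ (Z.card.choose k) * M`.

PROOF of params: choose `k` with `C * (0.961)^k ≤ ε` (`exists_pow_lt_of_lt_one`). Let `N ≥ 31 k + 1`. `(3N).choose k ≤ 3.1^k * N.choose k`:
`k! * (3N).choose k = (3N).descFactorial k ≤ (3N)^k` (`Nat.descFactorial_le_pow`), `k! * N.choose k = N.descFactorial k ≥ (N + 1 - k)^k`
(`Nat.pow_sub_le_descFactorial`), and `3 N ≤ 3.1 (N + 1 - k)` as `N ≥ 31 k`. So
`C * 0.31^k * (3N).choose k ≤ C * (0.31 * 3.1)^k * N.choose k = C * 0.961^k * N.choose k ≤ ε * N.choose k`.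
-/

set_option autoImplicit false

namespace H36MT

theorem average {α ι : Type} [DecidableEq ι] [DecidableEq α] (Z : Finset ι) (P : Finset α)
    (U : α → Finset ι) (bad : Finset ι → Finset α) (N k : ℕ) (M : ℝ)
    (hM : ∀ T ⊆ Z, T.card = k → ((bad T).card : ℝ) ≤ M)
    (hP : ∀ p ∈ P, U p ⊆ Z ∧ N ≤ (U p).card ∧ ∀ T ⊆ U p, T.card = k → p ∈ bad T) :
    (N.choose k : ℝ) * (P.card : ℝ) ≤ (Z.card.choose k : ℝ) * M := by
  have h1 : N.choose k * P.card ≤ ∑ p ∈ P, ((Z.powersetCard k).filter (fun T => p ∈ bad T)).card := by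
    calc N.choose k * P.card = ∑ _p ∈ P, N.choose k := by
          rw [Finset.sum_const, smul_eq_mul, mul_comm]
      _ ≤ ∑ p ∈ P, ((Z.powersetCard k).filter (fun T => p ∈ bad T)).card := by
          refine Finset.sum_le_sum fun p hp => ?_
          obtain ⟨hU, hN, hb⟩ := hP p hp
          calc N.choose k ≤ (U p).card.choose k := Nat.choose_le_choose k hN
            _ = ((U p).powersetCard k).card := (Finset.card_powersetCard k (U p)).symm
            _ ≤ _ := by
                refine Finset.card_le_card fun T hT => ?_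
                rw [Finset.mem_powersetCard] at hT
                rw [Finset.mem_filter, Finset.mem_powersetCard]
                exact ⟨⟨hT.1.trans hU, hT.2⟩, hb T hT.1 hT.2⟩
  have h2 : ∑ p ∈ P, ((Z.powersetCard k).filter (fun T => p ∈ bad T)).card =
      ∑ T ∈ Z.powersetCard k, (P.filter (fun p => p ∈ bad T)).card := by
    simp only [Finset.card_filter]
    rw [Finset.sum_comm]
  have h3 : (∑ T ∈ Z.powersetCard k, ((P.filter (fun p => p ∈ bad T)).card : ℝ)) ≤
      ∑ _T ∈ Z.powersetCard k, M := by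
    refine Finset.sum_le_sum fun T hT => ?_
    rw [Finset.mem_powersetCard] at hT
    refine le_trans ?_ (hM T hT.1 hT.2)
    have : (P.filter (fun p => p ∈ bad T)) ⊆ bad T := fun p hp => (Finset.mem_filter.1 hp).2
    exact_mod_cast Finset.card_le_card this
  rw [Finset.sum_const, nsmul_eq_mul, Finset.card_powersetCard] at h3
  refine le_trans ?_ h3
  rw [h2] at h1
  exact_mod_cast h1

theorem params {C ε : ℝ} (hC : 0 < C) (hε : 0 < ε) : ∃ k N₁ : ℕ, ∀ N : ℕ, N₁ ≤ N →
    0 < N.choose k ∧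
    C * (0.31 : ℝ) ^ k * ((3 * N).choose k : ℝ) ≤ ε * (N.choose k : ℝ) := by
  obtain ⟨k, hk⟩ := exists_pow_lt_of_lt_one (div_pos hε hC) (by norm_num : (0.961 : ℝ) < 1)
  rw [lt_div_iff₀ hC] at hk
  refine ⟨k, 31 * k + 1, fun N hN => ⟨Nat.choose_pos (by omega), ?_⟩⟩
  have hf : (0 : ℝ) < (k.factorial : ℝ) := by exact_mod_cast Nat.factorial_pos k
  have h1 : (k.factorial : ℝ) * ((3 * N).choose k : ℝ) ≤ (3 * (N : ℝ)) ^ k := by
    have := Nat.descFactorial_le_pow (3 * N) k
    rw [Nat.descFactorial_eq_factorial_mul_choose] at this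
    exact_mod_cast this
  have h2 : ((N : ℝ) + 1 - k) ^ k ≤ (k.factorial : ℝ) * (N.choose k : ℝ) := by
    have := Nat.pow_sub_le_descFactorial N k
    rw [Nat.descFactorial_eq_factorial_mul_choose] at this
    have h3 : ((N + 1 - k : ℕ) : ℝ) = (N : ℝ) + 1 - k := by
      rw [Nat.cast_sub (by omega)]
      push_cast
      ring
    rw [← h3]
    exact_mod_cast this
  have hNk : (31 : ℝ) * k + 1 ≤ N := by exact_mod_cast hN
  have hk0 : (0 : ℝ) ≤ k := Nat.cast_nonneg k
  have h4 : (3 * (N : ℝ)) ^ k ≤ (3.1 * ((N : ℝ) + 1 - k)) ^ k := by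
    apply pow_le_pow_left₀ (by positivity)
    norm_num
    linarith
  have h5 : (k.factorial : ℝ) * ((3 * N).choose k : ℝ) ≤
      3.1 ^ k * ((k.factorial : ℝ) * (N.choose k : ℝ)) := by
    have h4' : (3 * (N : ℝ)) ^ k ≤ 3.1 ^ k * ((N : ℝ) + 1 - k) ^ k := by
      rw [← mul_pow]
      exact h4
    exact h1.trans (h4'.trans (mul_le_mul_of_nonneg_left h2 (by positivity)))
  have h6 : ((3 * N).choose k : ℝ) ≤ 3.1 ^ k * (N.choose k : ℝ) := by
    have h7 : (k.factorial : ℝ) * ((3 * N).choose k : ℝ) ≤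
        (k.factorial : ℝ) * (3.1 ^ k * (N.choose k : ℝ)) := by
      calc _ ≤ _ := h5
        _ = _ := by ring
    exact le_of_mul_le_mul_left h7 hf
  calc C * (0.31 : ℝ) ^ k * ((3 * N).choose k : ℝ)
      ≤ C * (0.31 : ℝ) ^ k * (3.1 ^ k * (N.choose k : ℝ)) :=
        mul_le_mul_of_nonneg_left h6 (by positivity)
    _ = (C * (0.31 * 3.1 : ℝ) ^ k) * (N.choose k : ℝ) := by
        rw [mul_pow]
        ring
    _ ≤ ε * (N.choose k : ℝ) := by
        refine mul_le_mul_of_nonneg_right ?_ (Nat.cast_nonneg _)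
        have e : (0.31 * 3.1 : ℝ) = 0.961 := by norm_num
        rw [e]
        linarith

end H36MT
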