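import Pool.Agent.H36.MT.Dg
import Pool.Agent.H76.PP.Lg

/-!
ROW Cu (project MP_78d38b_MT, about 110 lines): upper bound for the number of pairs in the box with given residues modulo the
primes of `T`. Use only the STATEMENTS `count_primes` (`Pool/Agent/H76/PP/Lg.lean`), `bx_finite` (Lb).

PROOF. `C` from `count_primes`, the constant is `4 C ^ 2`. Apply it with `ι = Fin 2`, `t = ![X^2, X^3]`,
`S' v = {y : Fin 2 → 𝓞 K ⧸ v.asIdeal | (y 0, y 1) ∈ S v}` (`(S' v).ncard = (S v).ncard`: the bijection `y ↦ (y 0, y 1)`; `≤` is enough,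
`Set.ncard_le_ncard_of_injOn`, `𝓞 K ⧸ v.asIdeal` is finite: `Ideal.finiteQuotientOfFreeOfNeBot`). The map `p ↦ ![p.1, p.2]` is injective from the given set
to the set of `count_primes` (which is finite: contained in the functions with values in the finite set `bx K (X^2) ∪ bx K (X^3)`,
`Set.Finite.pi`). `Q = ∏ v ∈ T, Nv v ≥ 1` (`Nv v ≠ 0`: `H36PP.Sm_pos` or `Ideal.absNorm_eq_zero_iff`), `X₀ = Q`: for `X ≥ Q`:
`X^(2n) ≥ X ≥ Q`, `X^(3n) ≥ Q` (`n = finrank ℚ K ≥ 1`), so `C (X^(2n)/Q + 1) ≤ 2 C X^(2n)/Q`, `C (X^(3n)/Q + 1) ≤ 2 C X^(3n)/Q`; the product is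
`4 C^2 X^(5n) / Q^2` and `(∏ #S v) / Q^2 = ∏ (#S v / (Nv v)^2)` (`Finset.prod_div_distrib`, `Finset.prod_pow`).
-/

set_option autoImplicit false
set_option linter.unusedSectionVars false
open scoped Classical

open NumberField IsDedekindDomain
open H76PP H36PP

namespace H36MT

variable (K : Type) [Field K] [NumberField K]

theorem count_prod : ∃ C : ℝ, 1 ≤ C ∧ ∀ (T : Finset (HeightOneSpectrum (𝓞 K)))
    (S : ∀ v : HeightOneSpectrum (𝓞 K), Set ((𝓞 K ⧸ v.asIdeal) × (𝓞 K ⧸ v.asIdeal))),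
    ∃ X₀ : ℝ, 1 ≤ X₀ ∧ ∀ X : ℝ, X₀ ≤ X →
      ({p : 𝓞 K × 𝓞 K | p ∈ Bx K X ∧ ∀ v ∈ T, rs v.asIdeal p ∈ S v}.ncard : ℝ) ≤
        C * (∏ v ∈ T, ((S v).ncard : ℝ) / (Nv v : ℝ) ^ 2) * X ^ (5 * Module.finrank ℚ K) := by
  obtain ⟨C, hC1, hC⟩ := count_primes K
  refine ⟨4 * C ^ 2, by nlinarith, fun T S => ?_⟩
  obtain ⟨Q, hQ⟩ : ∃ Q : ℝ, Q = ∏ v ∈ T, (Nv v : ℝ) := ⟨_, rfl⟩
  obtain ⟨n, hn⟩ : ∃ n : ℕ, n = Module.finrank ℚ K := ⟨_, rfl⟩
  have hn1 : 1 ≤ n := by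
    rw [hn]
    exact Module.finrank_pos
  have hNv : ∀ v : HeightOneSpectrum (𝓞 K), (1 : ℝ) ≤ (Nv v : ℝ) := fun v => by
    have h1 : Nv v ≠ 0 := by
      rw [Nv, Ne, Ideal.absNorm_eq_zero_iff]
      exact v.ne_bot
    exact_mod_cast Nat.one_le_iff_ne_zero.2 h1
  have hQ1 : 1 ≤ Q := by
    rw [hQ]
    have h1 := Finset.prod_le_prod (s := T) (f := fun _ => (1 : ℝ)) (g := fun v => (Nv v : ℝ))
      (fun _ _ => zero_le_one) (fun v _ => hNv v)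
    simpa using h1
  have hQ0 : 0 < Q := by linarith
  have hC0 : 0 < C := by linarith
  refine ⟨Q, hQ1, fun X hX => ?_⟩
  have hX1 : 1 ≤ X := hQ1.trans hX
  have hX0 : 0 < X := by linarith
  have hfin : ∀ v : HeightOneSpectrum (𝓞 K), Finite (𝓞 K ⧸ v.asIdeal) := fun v =>
    Ideal.finiteQuotientOfFreeOfNeBot v.asIdeal v.ne_bot
  have hS : ∀ v ∈ T, (({y : Fin 2 → 𝓞 K ⧸ v.asIdeal | (y 0, y 1) ∈ S v}.ncard : ℕ) : ℝ) ≤ ((S v).ncard : ℝ) := by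
    intro v _
    have := hfin v
    exact_mod_cast Set.ncard_le_ncard_of_injOn (fun y : Fin 2 → 𝓞 K ⧸ v.asIdeal => (y 0, y 1))
      (fun y hy => hy) (fun y _ y' _ h => by
        have h0 := congrArg Prod.fst h
        have h1 := congrArg Prod.snd h
        funext i
        fin_cases i
        · exact h0
        · exact h1) (Set.toFinite _)
  have hkey := hC (Fin 2) T (fun v => {y | (y 0, y 1) ∈ S v}) ![X ^ 2, X ^ 3] (by
    intro i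
    fin_cases i
    · show (0 : ℝ) ≤ X ^ 2
      positivity
    · show (0 : ℝ) ≤ X ^ 3
      positivity)
  rw [← hQ, ← hn, Fin.prod_univ_two] at hkey
  have hle : ({p : 𝓞 K × 𝓞 K | p ∈ Bx K X ∧ ∀ v ∈ T, rs v.asIdeal p ∈ S v}.ncard : ℝ) ≤
      ({x : Fin 2 → 𝓞 K | (∀ i, x i ∈ bx K ((![X ^ 2, X ^ 3] : Fin 2 → ℝ) i)) ∧
        ∀ v ∈ T, (fun i => Ideal.Quotient.mk v.asIdeal (x i)) ∈
          (fun v : HeightOneSpectrum (𝓞 K) => {y : Fin 2 → 𝓞 K ⧸ v.asIdeal | (y 0, y 1) ∈ S v}) v}.ncard : ℝ) := by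
    refine Nat.cast_le.2 (Set.ncard_le_ncard_of_injOn (fun p : 𝓞 K × 𝓞 K => (![p.1, p.2] : Fin 2 → 𝓞 K))
      ?_ ?_ ?_)
    · rintro p ⟨hp1, hp2⟩
      refine ⟨fun i => ?_, fun v hv => ?_⟩
      · fin_cases i
        · exact hp1.1
        · exact hp1.2
      · exact hp2 v hv
    · intro p _ p' _ h
      exact Prod.ext (congrFun h 0) (congrFun h 1)
    · exact (Set.Finite.pi' fun i => H76PP.bx_finite K ((![X ^ 2, X ^ 3] : Fin 2 → ℝ) i)).subset fun x hx => hx.1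
  have hb : ∀ a : ℕ, 1 ≤ a → C * ((X ^ a) ^ n / Q + 1) ≤ 2 * C * ((X ^ a) ^ n / Q) := by
    intro a ha
    have h1 : X ≤ (X ^ a) ^ n := by
      rw [← pow_mul]
      exact le_self_pow₀ hX1 (by positivity)
    have h2 : 1 ≤ (X ^ a) ^ n / Q := by
      rw [le_div_iff₀ hQ0, one_mul]
      exact hX.trans h1
    nlinarith
  have hS2 : (∏ v ∈ T, (({y : Fin 2 → 𝓞 K ⧸ v.asIdeal | (y 0, y 1) ∈ S v}.ncard : ℕ) : ℝ)) ≤
      ∏ v ∈ T, ((S v).ncard : ℝ) := Finset.prod_le_prod (fun v _ => Nat.cast_nonneg _) hS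
  have hP : 0 ≤ ∏ v ∈ T, ((S v).ncard : ℝ) := Finset.prod_nonneg fun v _ => Nat.cast_nonneg _
  have h2 : (C * ((X ^ 2) ^ n / Q + 1)) * (C * ((X ^ 3) ^ n / Q + 1)) ≤
      (2 * C * ((X ^ 2) ^ n / Q)) * (2 * C * ((X ^ 3) ^ n / Q)) := by
    apply mul_le_mul (hb 2 (by norm_num)) (hb 3 (by norm_num)) <;> positivity
  have h3 : (∏ v ∈ T, ((S v).ncard : ℝ) / (Nv v : ℝ) ^ 2) = (∏ v ∈ T, ((S v).ncard : ℝ)) / Q ^ 2 := by
    rw [Finset.prod_div_distrib, Finset.prod_pow, hQ]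
  rw [h3, ← hn]
  calc _ ≤ _ := hle
    _ ≤ _ := hkey
    _ ≤ (∏ v ∈ T, ((S v).ncard : ℝ)) * ((2 * C * ((X ^ 2) ^ n / Q)) * (2 * C * ((X ^ 3) ^ n / Q))) :=
        mul_le_mul hS2 h2 (by
          show 0 ≤ (C * ((X ^ 2) ^ n / Q + 1)) * (C * ((X ^ 3) ^ n / Q + 1))
          positivity) hP
    _ = _ := by
        have h4 : (X ^ 2) ^ n * (X ^ 3) ^ n = X ^ (5 * n) := by
          rw [← pow_mul, ← pow_mul, ← pow_add]
          congr 1
          ring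
        rw [← h4]
        field_simp
        ring

end H36MT
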