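import Pool.Agent.H36.MT.Df
import Pool.Agent.H76.PP.Ea

/-!
Integrality of the coordinates of the integers of `L` (project MP_78d38b_MT, no row, proved by modification of
`Pool/Agent/H76/PP/Ea.lean`).
-/

set_option autoImplicit false
set_option linter.unusedSectionVars false
open scoped Classical

open WithZero NumberField IsDedekindDomain H38RT
open H76PP

namespace H36MT

variable {K : Type} [Field K] [NumberField K]

/-- `dsc A B * c^2` is integral for every coordinate `c` of an integer. -/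
theorem key {L : Type} [Field L] [NumberField L] [Algebra K L] {A B : 𝓞 K} {θ : L}
    (h : Cub K L (A : K) (B : K) θ) (x : 𝓞 L) (i : Fin 3) :
    ∃ E : 𝓞 K, (E : K) = -(h.co i (x : L) ^ 2 * ((dsc A B : 𝓞 K) : K)) := by
  obtain ⟨t, ht⟩ := theta_int h
  obtain ⟨s, hs⟩ := Ea_tr (K := K) (x * x)
  obtain ⟨t0, ht0⟩ := Ea_tr (K := K) x
  obtain ⟨t1, ht1⟩ := Ea_tr (K := K) (x * t)
  obtain ⟨t2, ht2⟩ := Ea_tr (K := K) (x * (t * t))
  have e1 : ((x * x : 𝓞 L) : L) = (x : L) * (x : L) := by push_cast; rfl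
  have e2 : ((x * t : 𝓞 L) : L) = (x : L) * θ := by rw [← ht]; push_cast; rfl
  have e3 : ((x * (t * t) : 𝓞 L) : L) = (x : L) * θ ^ 2 := by
    rw [← ht, sq]
    push_cast
    rfl
  rw [e1, h.trace, (h.co_mul _ _).1, (h.co_mul _ _).2.2] at hs
  rw [h.trace] at ht0
  rw [e2, h.trace, (h.co_mul _ _).1, (h.co_mul _ _).2.2, h.co_theta.1, h.co_theta.2.1,
    h.co_theta.2.2] at ht1
  rw [e3, h.trace, (h.co_mul _ _).1, (h.co_mul _ _).2.2, h.co_theta_sq.1, h.co_theta_sq.2.1,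
    h.co_theta_sq.2.2] at ht2
  obtain ⟨a, ha⟩ : ∃ a, a = algebraMap (𝓞 K) K A := ⟨_, rfl⟩
  obtain ⟨b, hb⟩ : ∃ b, b = algebraMap (𝓞 K) K B := ⟨_, rfl⟩
  obtain ⟨c0, hc0⟩ : ∃ c0, c0 = h.co 0 (x : L) := ⟨_, rfl⟩
  obtain ⟨c1, hc1⟩ : ∃ c1, c1 = h.co 1 (x : L) := ⟨_, rfl⟩
  obtain ⟨c2, hc2⟩ : ∃ c2, c2 = h.co 2 (x : L) := ⟨_, rfl⟩
  have hs' : algebraMap (𝓞 K) K s = 3 * (c0 * c0 - b * (c1 * c2 + c2 * c1)) -
      2 * a * (c0 * c2 + c1 * c1 + c2 * c0 - a * (c2 * c2)) := by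
    rw [hc0, hc1, hc2, ha, hb]
    exact hs
  have ht0' : algebraMap (𝓞 K) K t0 = 3 * c0 - 2 * a * c2 := by
    rw [hc0, hc2, ha]
    exact ht0
  have ht1' : algebraMap (𝓞 K) K t1 = 3 * (c0 * 0 - b * (c1 * 0 + c2 * 1)) -
      2 * a * (c0 * 0 + c1 * 1 + c2 * 0 - a * (c2 * 0)) := by
    rw [hc0, hc1, hc2, ha, hb]
    exact ht1
  have ht2' : algebraMap (𝓞 K) K t2 = 3 * (c0 * 0 - b * (c1 * 1 + c2 * 0)) -
      2 * a * (c0 * 1 + c1 * 0 + c2 * 0 - a * (c2 * 1)) := by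
    rw [hc0, hc1, hc2, ha, hb]
    exact ht2
  have hd : ((dsc A B : 𝓞 K) : K) = 4 * a ^ 3 + 27 * b ^ 2 := by
    rw [ha, hb]
    exact Ea_cast A B
  have key0 : ∃ E : 𝓞 K, (E : K) = -(h.co 0 (x : L) ^ 2 * ((dsc A B : 𝓞 K) : K)) := by
    refine ⟨s * ((-2 * A) * (2 * A ^ 2) - 9 * B ^ 2) - t1 * (t1 * (2 * A ^ 2) + 3 * B * t2) +
        t2 * (t1 * (-3 * B) + 2 * A * t2), ?_⟩
    rw [hd, ← hc0]
    show algebraMap (𝓞 K) K _ = _
    simp only [map_add, map_mul, map_sub, map_pow, map_neg, map_ofNat, hs', ht1', ht2', ← ha, ← hb]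
    ring
  have key1 : ∃ E : 𝓞 K, (E : K) = -(h.co 1 (x : L) ^ 2 * ((dsc A B : 𝓞 K) : K)) := by
    refine ⟨3 * (s * (2 * A ^ 2) - t2 * t2) - t0 * (t0 * (2 * A ^ 2) + 2 * A * t2) +
        (-2 * A) * (t0 * t2 + 2 * A * s), ?_⟩
    rw [hd, ← hc1]
    show algebraMap (𝓞 K) K _ = _
    simp only [map_add, map_mul, map_sub, map_pow, map_neg, map_ofNat, hs', ht0', ht2', ← ha, ← hb]
    ring
  have key2 : ∃ E : 𝓞 K, (E : K) = -(h.co 2 (x : L) ^ 2 * ((dsc A B : 𝓞 K) : K)) := by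
    refine ⟨3 * (-2 * A * s - t1 * t1) + t0 * (2 * A * t0), ?_⟩
    rw [hd, ← hc2]
    show algebraMap (𝓞 K) K _ = _
    simp only [map_add, map_mul, map_sub, map_pow, map_neg, map_ofNat, hs', ht0', ht1', ← ha, ← hb]
    ring
  fin_cases i
  · exact key0
  · exact key1
  · exact key2

theorem lb_of {L : Type} [Field L] [NumberField L] [Algebra K L] {A B : 𝓞 K} {θ : L}
    (h : Cub K L (A : K) (B : K) θ) {v : HeightOneSpectrum (𝓞 K)}
    (hd : dsc A B ∉ v.asIdeal ^ 2) : LB h v := by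
  intro x i
  obtain ⟨E, hE⟩ := key h x i
  exact Ea_val hd hE

/-- If `c^2 * d` is integral, `d ∉ v ^ e` and `r ∈ v ^ e` then `r c` is integral at `v`. -/
theorem val_mul {v : HeightOneSpectrum (𝓞 K)} {c : K} {d E r : 𝓞 K} {e : ℕ}
    (hd : d ∉ v.asIdeal ^ e) (hr : r ∈ v.asIdeal ^ e) (hE : (E : K) = -(c ^ 2 * (d : K))) :
    v.valuation K ((r : K) * c) ≤ 1 := by
  have h2 := mt (v.intValuation_le_pow_iff_mem d e).1 hd
  rw [not_le] at h2
  have h3 : v.valuation K (d : K) = v.intValuation d := v.valuation_of_algebraMap d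
  have h0 : v.valuation K (d : K) ≠ 0 := fun h0 => by
    rw [← h3, h0] at h2
    exact absurd h2 not_lt_zero
  have h1 : v.valuation K (r : K) ≤ v.valuation K (d : K) := by
    have h5 := (v.intValuation_le_pow_iff_mem r e).2 hr
    have h6 : v.valuation K (r : K) = v.intValuation r := v.valuation_of_algebraMap r
    rw [h6, h3]
    exact h5.trans h2.le
  have h4 : v.valuation K (E : K) ≤ 1 := v.valuation_le_one E
  rw [hE, Valuation.map_neg, map_mul, map_pow] at h4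
  have h7 : v.valuation K (r : K) ≤ 1 := v.valuation_le_one r
  have h8 : v.valuation K ((r : K) * c) ^ 2 ≤ 1 := by
    rw [map_mul, mul_pow]
    calc v.valuation K (r : K) ^ 2 * v.valuation K c ^ 2
        = v.valuation K (r : K) * (v.valuation K c ^ 2 * v.valuation K (r : K)) := by
          rw [sq (v.valuation K (r : K)), mul_assoc, mul_comm (v.valuation K (r : K))
            (v.valuation K c ^ 2)]
      _ ≤ 1 * (v.valuation K c ^ 2 * v.valuation K (d : K)) :=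
          mul_le_mul' h7 (mul_le_mul' le_rfl h1)
      _ = v.valuation K c ^ 2 * v.valuation K (d : K) := one_mul _
      _ ≤ 1 := h4
  exact (pow_le_one_iff two_ne_zero).1 h8

/-- `r x` has integral coordinates if `r` is divisible by `v ^ e` for all `v ∈ S`. -/
theorem int_mul {L : Type} [Field L] [NumberField L] [Algebra K L] {A B : 𝓞 K} {θ : L}
    (h : Cub K L (A : K) (B : K) θ) {S : Finset (HeightOneSpectrum (𝓞 K))} {e : ℕ}
    (hs : ∀ v : HeightOneSpectrum (𝓞 K), v ∉ S → dsc A B ∉ v.asIdeal ^ 2)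
    (hb : ∀ v ∈ S, dsc A B ∉ v.asIdeal ^ e) {r : 𝓞 K} (hr : ∀ v ∈ S, r ∈ v.asIdeal ^ e) (x : 𝓞 L) :
    ∃ c : Fin 3 → 𝓞 K, ∀ i, (r : K) * h.co i (x : L) = (c i : K) := by
  have hval : ∀ i, ∃ c : 𝓞 K, (r : K) * h.co i (x : L) = (c : K) := by
    intro i
    obtain ⟨E, hE⟩ := key h x i
    obtain ⟨c, hc⟩ := HeightOneSpectrum.mem_integers_of_valuation_le_one K
      ((r : K) * h.co i (x : L)) fun v => by
        by_cases hv : v ∈ S
        · exact val_mul (hb v hv) (hr v hv) hE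
        · rw [map_mul]
          exact mul_le_one' (v.valuation_le_one r) (Ea_val (hs v hv) hE)
    exact ⟨c, hc.symm⟩
  choose c hc using hval
  exact ⟨c, hc⟩

end H36MT
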