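import Pool.Agent.H36.MT.Ea

/-!
ROW Fa (project MP_78d38b_MT, about 170 lines): denominators prime to `v` and the place of `L` attached to a root of the cubic
modulo `v`. MODIFICATION of `Pool/Agent/H76/PP/Fa.lean` (read it first): there all coordinates of integers of `L` are integral
(`int_coord`), here only integral at `v` (`hl : LB h v`).

PROOF of LB.den: `v.valuation K (h.co i y) ≤ 1`, so (`HeightOneSpectrum.exists_primeCompl_mul_eq_of_integer`, see `Tf_approx` in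
`Pool/Agent/H76/PP/Tf.lean`) `h.co i y * d i = n i` with `d i ∉ v`, `n i : 𝓞 K`; `m = d 0 * d 1 * d 2 ∉ v` (`v` prime),
`c i = n i * (product of the two other d)`.

PROOF of exists_placeL: `k = 𝓞 K ⧸ v.asIdeal` is a field. For every `x : 𝓞 L` choose by LB.den `m x ∉ v`, `c x : Fin 3 → 𝓞 K` with
`(m x : K) * h.co i x = c x i`. Put `χ x = (mk (c x 0 + c x 1 * t + c x 2 * t ^ 2)) / mk (m x)` (`mk (m x) ≠ 0`).
KEY (well defined): if `n ∉ v`, `d : Fin 3 → 𝓞 K` and `(n : K) * h.co i x = d i` for all `i`, then `χ x = mk (d 0 + d 1 t + d 2 t^2) / mk n`: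
`n * c x i = m x * d i` in `𝓞 K` (both are `n m co`), apply `mk`, `div_eq_div_iff`.
Additive: for `x + y` take `n = m x * m y`, `d i = m y * c x i + m x * c y i`. Multiplicative: for `x * y` take `n = m x * m y` and `d` = the
product of `c x`, `c y` by the formula `Cub.co_mul` (`d 0 = c x 0 * c y 0 - B (c x 1 * c y 2 + c x 2 * c y 1)`, ...), and
`d 0 + d 1 t + d 2 t^2 = (c x 0 + c x 1 t + c x 2 t^2)(c y 0 + ..) - (..) (t^3 + A t + B)` exactly as in the old file. `χ 1 = 1`, `χ (algebraMap a) = mk a`: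
`n = 1`, `d = ![a, 0, 0]` (`Cub.co_mk'`). The last clause: `n = 1`. The place `w` is the kernel of `χ` (a prime ideal because
`k` is a domain, nonzero because it contains `v`), `dn K w = v`: as in the old file.
-/

set_option autoImplicit false
set_option linter.unusedSectionVars false
open scoped Classical

open WithZero NumberField IsDedekindDomain H38RT
open H76PP

namespace H36MT

variable {K : Type} [Field K] [NumberField K]

theorem LB.den {L : Type} [Field L] [NumberField L] [Algebra K L] {A B : K} {θ : L}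
    {h : Cub K L A B θ} {v : HeightOneSpectrum (𝓞 K)} (hl : LB h v) (y : 𝓞 L) :
    ∃ m : 𝓞 K, m ∉ v.asIdeal ∧ ∃ c : Fin 3 → 𝓞 K, ∀ i, (m : K) * h.co i (y : L) = (c i : K) := by
  have h1 : ∀ i : Fin 3, ∃ n d : 𝓞 K, d ∉ v.asIdeal ∧ h.co i (y : L) * (d : K) = (n : K) := by
    intro i
    obtain ⟨n, ⟨d, hd⟩, hnd⟩ := v.exists_primeCompl_mul_eq_of_integer _ (hl y i)
    exact ⟨n, d, hd, hnd⟩
  choose n d hd hnd using h1
  have km : ∀ x y : 𝓞 K, ((x * y : 𝓞 K) : K) = (x : K) * (y : K) := fun _ _ => rfl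
  refine ⟨d 0 * d 1 * d 2, ?_, ![n 0 * (d 1 * d 2), n 1 * (d 0 * d 2), n 2 * (d 0 * d 1)], ?_⟩
  · intro hm
    rcases v.isPrime.mem_or_mem hm with hm | hm
    · rcases v.isPrime.mem_or_mem hm with hm | hm
      · exact hd 0 hm
      · exact hd 1 hm
    · exact hd 2 hm
  · intro i
    fin_cases i
    · change ((d 0 * d 1 * d 2 : 𝓞 K) : K) * h.co 0 (y : L) = ((n 0 * (d 1 * d 2) : 𝓞 K) : K)
      rw [km, km, km, km, ← hnd 0]
      ring
    · change ((d 0 * d 1 * d 2 : 𝓞 K) : K) * h.co 1 (y : L) = ((n 1 * (d 0 * d 2) : 𝓞 K) : K)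
      rw [km, km, km, km, ← hnd 1]
      ring
    · change ((d 0 * d 1 * d 2 : 𝓞 K) : K) * h.co 2 (y : L) = ((n 2 * (d 0 * d 1) : 𝓞 K) : K)
      rw [km, km, km, km, ← hnd 2]
      ring

theorem Fa_den {L : Type} [Field L] [NumberField L] [Algebra K L] {A B : K} {θ : L}
    {h : Cub K L A B θ} {v : HeightOneSpectrum (𝓞 K)} (hl : LB h v) (y : 𝓞 L) :
    ∃ m m' : 𝓞 K, Ideal.Quotient.mk v.asIdeal m * Ideal.Quotient.mk v.asIdeal m' = 1 ∧
      ∃ c : Fin 3 → 𝓞 K, ∀ i, (m : K) * h.co i (y : L) = (c i : K) := by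
  obtain ⟨m, hm, c, hc⟩ := hl.den y
  have hmax : v.asIdeal.IsMaximal := v.isMaximal
  have hd0 : Ideal.Quotient.mk v.asIdeal m ≠ 0 := fun h =>
    hm (Ideal.Quotient.eq_zero_iff_mem.1 h)
  obtain ⟨q, hq⟩ := Ideal.Quotient.exists_inv hd0
  obtain ⟨m', rfl⟩ := Ideal.Quotient.mk_surjective q
  exact ⟨m, m', hq, c, hc⟩

/-- two presentations give the same value -/
theorem Fa_key {L : Type} [Field L] [NumberField L] [Algebra K L] {A B : K} {θ : L}
    (h : Cub K L A B θ) (v : HeightOneSpectrum (𝓞 K)) (t : 𝓞 K) (x : 𝓞 L) {m m' n n' : 𝓞 K}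
    {c d : Fin 3 → 𝓞 K} (hm : Ideal.Quotient.mk v.asIdeal m * Ideal.Quotient.mk v.asIdeal m' = 1)
    (hc : ∀ i, (m : K) * h.co i (x : L) = (c i : K))
    (hn : Ideal.Quotient.mk v.asIdeal n * Ideal.Quotient.mk v.asIdeal n' = 1)
    (hd : ∀ i, (n : K) * h.co i (x : L) = (d i : K)) :
    Ideal.Quotient.mk v.asIdeal (c 0 + c 1 * t + c 2 * t ^ 2) * Ideal.Quotient.mk v.asIdeal m' =
      Ideal.Quotient.mk v.asIdeal (d 0 + d 1 * t + d 2 * t ^ 2) * Ideal.Quotient.mk v.asIdeal n' := by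
  have h1 : ∀ i, n * c i = m * d i := by
    intro i
    apply RingOfIntegers.ext
    change (n : K) * (c i : K) = (m : K) * (d i : K)
    rw [← hc i, ← hd i]
    ring
  have h2 : n * (c 0 + c 1 * t + c 2 * t ^ 2) = m * (d 0 + d 1 * t + d 2 * t ^ 2) := by
    linear_combination h1 0 + t * h1 1 + t ^ 2 * h1 2
  have h3 := congrArg (Ideal.Quotient.mk v.asIdeal) h2
  rw [map_mul, map_mul] at h3
  linear_combination Ideal.Quotient.mk v.asIdeal m' * Ideal.Quotient.mk v.asIdeal n' * h3 -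
    Ideal.Quotient.mk v.asIdeal (c 0 + c 1 * t + c 2 * t ^ 2) * Ideal.Quotient.mk v.asIdeal m' * hn +
    Ideal.Quotient.mk v.asIdeal (d 0 + d 1 * t + d 2 * t ^ 2) * Ideal.Quotient.mk v.asIdeal n' * hm

theorem exists_placeL {L : Type} [Field L] [NumberField L] [Algebra K L] {A B : 𝓞 K} {θ : L}
    (h : Cub K L (A : K) (B : K) θ) {v : HeightOneSpectrum (𝓞 K)} (hl : LB h v) {t : 𝓞 K}
    (ht : t ^ 3 + A * t + B ∈ v.asIdeal) :
    ∃ (w : HeightOneSpectrum (𝓞 L)) (χ : 𝓞 L →+* 𝓞 K ⧸ v.asIdeal), dn K w = v ∧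
      (∀ x : 𝓞 L, χ x = 0 ↔ x ∈ w.asIdeal) ∧
      (∀ a : 𝓞 K, χ (algebraMap (𝓞 K) (𝓞 L) a) = Ideal.Quotient.mk v.asIdeal a) ∧
      ∀ (x : 𝓞 L) (c : Fin 3 → 𝓞 K), (∀ i, h.co i (x : L) = (c i : K)) →
        χ x = Ideal.Quotient.mk v.asIdeal (c 0 + c 1 * t + c 2 * t ^ 2) := by
  have ka : ∀ x y : 𝓞 K, ((x + y : 𝓞 K) : K) = (x : K) + (y : K) := fun _ _ => rfl
  have ks : ∀ x y : 𝓞 K, ((x - y : 𝓞 K) : K) = (x : K) - (y : K) := fun _ _ => rfl
  have km : ∀ x y : 𝓞 K, ((x * y : 𝓞 K) : K) = (x : K) * (y : K) := fun _ _ => rfl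
  have k1 : ((1 : 𝓞 K) : K) = 1 := rfl
  have la : ∀ x y : 𝓞 L, ((x + y : 𝓞 L) : L) = (x : L) + (y : L) := fun _ _ => rfl
  have lm : ∀ x y : 𝓞 L, ((x * y : 𝓞 L) : L) = (x : L) * (y : L) := fun _ _ => rfl
  have kz : ((0 : 𝓞 K) : K) = 0 := rfl
  choose m m' hm c hc using fun x : 𝓞 L => Fa_den (h := h) hl x
  have hval : ∀ (x : 𝓞 L) {n n' : 𝓞 K} {d : Fin 3 → 𝓞 K},
      Ideal.Quotient.mk v.asIdeal n * Ideal.Quotient.mk v.asIdeal n' = 1 →
      (∀ i, (n : K) * h.co i (x : L) = (d i : K)) →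
      Ideal.Quotient.mk v.asIdeal (c x 0 + c x 1 * t + c x 2 * t ^ 2) *
        Ideal.Quotient.mk v.asIdeal (m' x) =
      Ideal.Quotient.mk v.asIdeal (d 0 + d 1 * t + d 2 * t ^ 2) * Ideal.Quotient.mk v.asIdeal n' :=
    fun x _ _ _ hn hd => Fa_key h v t x (hm x) (hc x) hn hd
  have h11 : Ideal.Quotient.mk v.asIdeal 1 * Ideal.Quotient.mk v.asIdeal 1 = 1 := by
    rw [map_one, mul_one]
  have hmm : ∀ x y : 𝓞 L, Ideal.Quotient.mk v.asIdeal (m x * m y) *
      Ideal.Quotient.mk v.asIdeal (m' x * m' y) = 1 := by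
    intro x y
    rw [map_mul, map_mul]
    linear_combination Ideal.Quotient.mk v.asIdeal (m y) * Ideal.Quotient.mk v.asIdeal (m' y) * hm x +
      hm y
  have halg : ∀ a : 𝓞 K, ∀ i, ((1 : 𝓞 K) : K) * h.co i ((algebraMap (𝓞 K) (𝓞 L) a : 𝓞 L) : L) =
      ((![a, 0, 0] : Fin 3 → 𝓞 K) i : K) := by
    intro a
    have e1 : ((algebraMap (𝓞 K) (𝓞 L) a : 𝓞 L) : L) = algebraMap K L (a : K) := rfl
    obtain ⟨b0, b1, b2⟩ := h.co_mk' (a : K) 0 0
    have hx : algebraMap K L (a : K) + algebraMap K L 0 * θ + algebraMap K L 0 * θ ^ 2 =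
        algebraMap K L (a : K) := by simp
    rw [hx] at b0 b1 b2
    intro i
    rw [e1, k1, one_mul]
    fin_cases i
    · exact b0
    · exact b1
    · exact b2
  have hv : ∀ a : 𝓞 K, (![a, 0, 0] : Fin 3 → 𝓞 K) 0 + (![a, 0, 0] : Fin 3 → 𝓞 K) 1 * t +
      (![a, 0, 0] : Fin 3 → 𝓞 K) 2 * t ^ 2 = a := by
    intro a
    have e0 : (![a, 0, 0] : Fin 3 → 𝓞 K) 0 = a := rfl
    have e1 : (![a, 0, 0] : Fin 3 → 𝓞 K) 1 = 0 := rfl
    have e2 : (![a, 0, 0] : Fin 3 → 𝓞 K) 2 = 0 := rfl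
    rw [e0, e1, e2, zero_mul, zero_mul, add_zero, add_zero]
  obtain ⟨χ, hχ⟩ : ∃ χ : 𝓞 L →+* 𝓞 K ⧸ v.asIdeal, ∀ x, χ x =
      Ideal.Quotient.mk v.asIdeal (c x 0 + c x 1 * t + c x 2 * t ^ 2) *
        Ideal.Quotient.mk v.asIdeal (m' x) := by
    refine ⟨RingHom.mk' ⟨⟨fun x =>
        Ideal.Quotient.mk v.asIdeal (c x 0 + c x 1 * t + c x 2 * t ^ 2) *
        Ideal.Quotient.mk v.asIdeal (m' x), ?_⟩, ?_⟩ ?_,
        fun x => rfl⟩
    · have e := halg 1
      rw [map_one (algebraMap (𝓞 K) (𝓞 L))] at e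
      rw [hval 1 h11 e, map_one, mul_one, hv, map_one]
    · intro x y
      have e := hval (x * y) (n := m x * m y) (n' := m' x * m' y)
        (d := ![c x 0 * c y 0 - B * (c x 1 * c y 2 + c x 2 * c y 1),
          c x 0 * c y 1 + c x 1 * c y 0 - A * (c x 1 * c y 2 + c x 2 * c y 1) - B * (c x 2 * c y 2),
          c x 0 * c y 2 + c x 1 * c y 1 + c x 2 * c y 0 - A * (c x 2 * c y 2)]) (hmm x y) ?_
      · show Ideal.Quotient.mk v.asIdeal (c (x * y) 0 + c (x * y) 1 * t + c (x * y) 2 * t ^ 2) *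
          Ideal.Quotient.mk v.asIdeal (m' (x * y)) =
          (Ideal.Quotient.mk v.asIdeal (c x 0 + c x 1 * t + c x 2 * t ^ 2) *
            Ideal.Quotient.mk v.asIdeal (m' x)) *
          (Ideal.Quotient.mk v.asIdeal (c y 0 + c y 1 * t + c y 2 * t ^ 2) *
            Ideal.Quotient.mk v.asIdeal (m' y))
        rw [e]
        change Ideal.Quotient.mk v.asIdeal ((c x 0 * c y 0 - B * (c x 1 * c y 2 + c x 2 * c y 1)) +
          (c x 0 * c y 1 + c x 1 * c y 0 - A * (c x 1 * c y 2 + c x 2 * c y 1) -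
            B * (c x 2 * c y 2)) * t +
          (c x 0 * c y 2 + c x 1 * c y 1 + c x 2 * c y 0 - A * (c x 2 * c y 2)) * t ^ 2) *
          Ideal.Quotient.mk v.asIdeal (m' x * m' y) = _
        have e2 : Ideal.Quotient.mk v.asIdeal
            ((c x 0 * c y 0 - B * (c x 1 * c y 2 + c x 2 * c y 1)) +
          (c x 0 * c y 1 + c x 1 * c y 0 - A * (c x 1 * c y 2 + c x 2 * c y 1) -
            B * (c x 2 * c y 2)) * t +
          (c x 0 * c y 2 + c x 1 * c y 1 + c x 2 * c y 0 - A * (c x 2 * c y 2)) * t ^ 2) =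
          Ideal.Quotient.mk v.asIdeal ((c x 0 + c x 1 * t + c x 2 * t ^ 2) *
            (c y 0 + c y 1 * t + c y 2 * t ^ 2)) := by
          rw [Ideal.Quotient.eq]
          have e : c x 0 * c y 0 - B * (c x 1 * c y 2 + c x 2 * c y 1) +
              (c x 0 * c y 1 + c x 1 * c y 0 - A * (c x 1 * c y 2 + c x 2 * c y 1) -
                B * (c x 2 * c y 2)) * t +
              (c x 0 * c y 2 + c x 1 * c y 1 + c x 2 * c y 0 - A * (c x 2 * c y 2)) * t ^ 2 -
              (c x 0 + c x 1 * t + c x 2 * t ^ 2) * (c y 0 + c y 1 * t + c y 2 * t ^ 2) =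
              (-((c x 1 * c y 2 + c x 2 * c y 1) + c x 2 * c y 2 * t)) * (t ^ 3 + A * t + B) := by
            ring
          rw [e]
          exact Ideal.mul_mem_left _ _ ht
        rw [e2, map_mul, map_mul]
        ring
      · have e0 := (h.co_mul (x : L) (y : L)).1
        have e1 := (h.co_mul (x : L) (y : L)).2.1
        have e2 := (h.co_mul (x : L) (y : L)).2.2
        intro i
        rw [lm, km]
        fin_cases i
        · change (m x : K) * (m y : K) * h.co 0 ((x : L) * (y : L)) =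
            ((c x 0 * c y 0 - B * (c x 1 * c y 2 + c x 2 * c y 1) : 𝓞 K) : K)
          rw [e0]
          simp only [ks, km, ka, ← hc]
          ring
        · change (m x : K) * (m y : K) * h.co 1 ((x : L) * (y : L)) =
            ((c x 0 * c y 1 + c x 1 * c y 0 - A * (c x 1 * c y 2 + c x 2 * c y 1) -
              B * (c x 2 * c y 2) : 𝓞 K) : K)
          rw [e1]
          simp only [ks, km, ka, ← hc]
          ring
        · change (m x : K) * (m y : K) * h.co 2 ((x : L) * (y : L)) =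
            ((c x 0 * c y 2 + c x 1 * c y 1 + c x 2 * c y 0 - A * (c x 2 * c y 2) : 𝓞 K) : K)
          rw [e2]
          simp only [ks, km, ka, ← hc]
          ring
    · intro x y
      have e := hval (x + y) (n := m x * m y) (n' := m' x * m' y)
        (d := fun i => m y * c x i + m x * c y i) (hmm x y) ?_
      · show Ideal.Quotient.mk v.asIdeal (c (x + y) 0 + c (x + y) 1 * t + c (x + y) 2 * t ^ 2) *
          Ideal.Quotient.mk v.asIdeal (m' (x + y)) =
          Ideal.Quotient.mk v.asIdeal (c x 0 + c x 1 * t + c x 2 * t ^ 2) *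
            Ideal.Quotient.mk v.asIdeal (m' x) +
          Ideal.Quotient.mk v.asIdeal (c y 0 + c y 1 * t + c y 2 * t ^ 2) *
            Ideal.Quotient.mk v.asIdeal (m' y)
        rw [e]
        have e2 : (m y * c x 0 + m x * c y 0) + (m y * c x 1 + m x * c y 1) * t +
            (m y * c x 2 + m x * c y 2) * t ^ 2 = m y * (c x 0 + c x 1 * t + c x 2 * t ^ 2) +
            m x * (c y 0 + c y 1 * t + c y 2 * t ^ 2) := by ring
        rw [e2, map_add, map_mul, map_mul, map_mul]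
        linear_combination Ideal.Quotient.mk v.asIdeal (c x 0 + c x 1 * t + c x 2 * t ^ 2) *
            Ideal.Quotient.mk v.asIdeal (m' x) * hm y +
          Ideal.Quotient.mk v.asIdeal (c y 0 + c y 1 * t + c y 2 * t ^ 2) *
            Ideal.Quotient.mk v.asIdeal (m' y) * hm x
      · intro i
        rw [la, map_add, km]
        simp only [ka, km, ← hc]
        ring
  have hχa : ∀ a : 𝓞 K, χ (algebraMap (𝓞 K) (𝓞 L) a) = Ideal.Quotient.mk v.asIdeal a := by
    intro a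
    rw [hχ, hval _ h11 (halg a), map_one, mul_one, hv]
  have hpr : (RingHom.ker χ).IsPrime := RingHom.ker_isPrime χ
  have hne : RingHom.ker χ ≠ ⊥ := by
    intro hbot
    obtain ⟨a, ha, ha0⟩ := Submodule.exists_mem_ne_zero_of_ne_bot v.ne_bot
    have h1 : algebraMap (𝓞 K) (𝓞 L) a ∈ RingHom.ker χ := by
      rw [RingHom.mem_ker, hχa]
      exact Ideal.Quotient.eq_zero_iff_mem.2 ha
    rw [hbot, Ideal.mem_bot] at h1
    exact ha0 ((map_eq_zero_iff _ (FaithfulSMul.algebraMap_injective (𝓞 K) (𝓞 L))).1 h1)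
  refine ⟨⟨RingHom.ker χ, hpr, hne⟩, χ, ?_, fun x => RingHom.mem_ker.symm, hχa, ?_⟩
  · apply HeightOneSpectrum.ext
    ext a
    show algebraMap (𝓞 K) (𝓞 L) a ∈ RingHom.ker χ ↔ a ∈ v.asIdeal
    rw [RingHom.mem_ker, hχa, Ideal.Quotient.eq_zero_iff_mem]
  · intro x d hd
    rw [hχ, hval x h11 (d := d) (fun i => by rw [k1, one_mul]; exact hd i), map_one, mul_one]

end H36MT
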