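import Pool.Agent.H36.MT.Fa
import Pool.Agent.H76.PP.Fd

/-!
The residue condition at `v ∈ T` (project MP_78d38b_MT, no row; modification of `Pool/Agent/H76/PP/Fd.lean`): the ideal `I` is
replaced by the property `Prs` of the three vectors.
-/

set_option autoImplicit false
set_option linter.unusedSectionVars false
open scoped Classical

open WithZero NumberField IsDedekindDomain H38RT
open scoped Matrix
open H38T1 (SC sc scu rep eo la si Pri OddP tp unif)
open H76PP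

namespace H36MT

/-- The products `e i * e j` are divisible by `δ` and the quotients have integral coordinates. -/
def Prs {K : Type} [Field K] [NumberField K] {A B : K} {L : Type} [Field L]
    [NumberField L] [Algebra K L] {θ : L} (h : Cub K L A B θ) (δ : 𝓞 L) (e : Fin 3 → 𝓞 L) :
    Prop :=
  ∀ i j, ∃ (y : 𝓞 L) (c : Fin 3 → 𝓞 K), e i * e j = δ * y ∧ ∀ k, h.co k (y : L) = (c k : K)

variable {K : Type} [Field K] [NumberField K] {A B : K} {L : Type} [Field L]
    [NumberField L] [Algebra K L] {θ : L}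

theorem Prs_row {h : Cub K L A B θ} {δ : 𝓞 L} {e : Fin 3 → 𝓞 L} (hp : Prs h δ e)
    (c : Fin 3 → 𝓞 K) : ∃ (y : Fin 3 → 𝓞 L) (yc : Fin 3 → Fin 3 → 𝓞 K),
      (∀ j, (∑ i, algebraMap (𝓞 K) (𝓞 L) (c i) * e i) * e j = δ * y j) ∧
      ∀ j k, h.co k (y j : L) = (yc j k : K) := by
  choose y yc hy hyc using hp
  refine ⟨fun j => ∑ i, algebraMap (𝓞 K) (𝓞 L) (c i) * y i j, fun j k => ∑ i, c i * yc i j k,
    fun j => ?_, fun j k => ?_⟩
  · rw [Finset.sum_mul, Finset.mul_sum]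
    refine Finset.sum_congr rfl fun i _ => ?_
    rw [mul_assoc, hy]
    ring
  · have h1 : ((∑ i, algebraMap (𝓞 K) (𝓞 L) (c i) * y i j : 𝓞 L) : L) =
        ∑ i, (c i : K) • (y i j : L) := by
      change algebraMap (𝓞 L) L (∑ i, algebraMap (𝓞 K) (𝓞 L) (c i) * y i j) = _
      rw [map_sum]
      refine Finset.sum_congr rfl fun i _ => ?_
      rw [map_mul, Algebra.smul_def]
      rfl
    rw [h1, map_sum]
    change _ = algebraMap (𝓞 K) K (∑ i, c i * yc i j k)
    rw [map_sum]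
    refine Finset.sum_congr rfl fun i _ => ?_
    rw [map_smul, smul_eq_mul, hyc, map_mul]

theorem Prs_quad {h : Cub K L A B θ} {δ : 𝓞 L} {e : Fin 3 → 𝓞 L} (hp : Prs h δ e)
    (c : Fin 3 → 𝓞 K) : ∃ (z : 𝓞 L) (zc : Fin 3 → 𝓞 K),
      (∑ i, algebraMap (𝓞 K) (𝓞 L) (c i) * e i) ^ 2 = δ * z ∧ ∀ k, h.co k (z : L) = (zc k : K) := by
  obtain ⟨y, yc, hy, hyc⟩ := Prs_row hp c
  refine ⟨∑ j, algebraMap (𝓞 K) (𝓞 L) (c j) * y j, fun k => ∑ j, c j * yc j k, ?_, fun k => ?_⟩
  · rw [sq, Finset.mul_sum, Finset.mul_sum]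
    refine Finset.sum_congr rfl fun j _ => ?_
    rw [← mul_assoc, mul_comm _ (algebraMap (𝓞 K) (𝓞 L) (c j)), mul_assoc, hy]
    ring
  · have h1 : ((∑ j, algebraMap (𝓞 K) (𝓞 L) (c j) * y j : 𝓞 L) : L) =
        ∑ j, (c j : K) • (y j : L) := by
      change algebraMap (𝓞 L) L (∑ j, algebraMap (𝓞 K) (𝓞 L) (c j) * y j) = _
      rw [map_sum]
      refine Finset.sum_congr rfl fun i _ => ?_
      rw [map_mul, Algebra.smul_def]
      rfl
    rw [h1, map_sum]
    change _ = algebraMap (𝓞 K) K (∑ j, c j * yc j k)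
    rw [map_sum]
    refine Finset.sum_congr rfl fun i _ => ?_
    rw [map_smul, smul_eq_mul, hyc, map_mul]

theorem Fd_mainS {K : Type} [Field K] [NumberField K] {A B : 𝓞 K} {L : Type} [Field L]
    [NumberField L] [Algebra K L] {θ : L} (h : Cub K L (A : K) (B : K) θ) {δ : 𝓞 L} (hδ : δ ≠ 0)
    {e : Fin 3 → 𝓞 L} (hpr : Prs h δ e)
    (hli : LinearIndependent K (fun i => (e i : L))) {M N : Matrix (Fin 3) (Fin 3) (𝓞 K)}
    (hM : ∀ i j, (M i j : K) = Mx h (fun i => (e i : L)) (δ : L)⁻¹ i j)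
    (hN : ∀ i j, (N i j : K) = Nx h (fun i => (e i : L)) (δ : L)⁻¹ i j)
    (hchar : ∀ x : 𝓞 K, (x • M - N).det = M.det * (x ^ 3 + A * x + B))
    {v : HeightOneSpectrum (𝓞 K)} (h6 : (6 : 𝓞 K) ∉ v.asIdeal) (hdet : M.det ∉ v.asIdeal)
    {t : 𝓞 K} (ht : t ^ 3 + A * t + B ∈ v.asIdeal)
    (hts : ∀ s : 𝓞 K, -3 * t ^ 2 - 4 * A - s ^ 2 ∉ v.asIdeal)
    {k : Type} [Field k] (π : 𝓞 K →+* k) (hπ : ∀ x, π x = 0 ↔ x ∈ v.asIdeal)
    (hs : Function.Surjective π) {w : HeightOneSpectrum (𝓞 L)} (hw : OddP w)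
    (hlw : la w (sc (δ : L)) = 0) (χ : 𝓞 L →+* k) (hχ0 : ∀ x, x ∈ w.asIdeal → χ x = 0)
    (hχ : ∀ (x : 𝓞 L) (c : Fin 3 → 𝓞 K), (∀ i, h.co i (x : L) = (c i : K)) →
        χ x = π (c 0 + c 1 * t + c 2 * t ^ 2)) : Rs (M.map π) (N.map π) := by
  have hvp := v.isPrime
  have hp2 : (2 : k) ≠ 0 := by
    intro h2
    apply h6
    rw [← hπ, show (6 : 𝓞 K) = 2 * 3 by norm_num, map_mul, map_ofNat, h2, zero_mul]
  have hp3 : (3 : k) ≠ 0 := by
    intro h2
    apply h6
    rw [← hπ, show (6 : 𝓞 K) = 2 * 3 by norm_num, map_mul, map_ofNat π 3, h2, mul_zero]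
  have hsq : ¬ IsSquare (-3 * (π t) ^ 2 - 4 * π A) := by
    rintro ⟨r, hr⟩
    obtain ⟨s, rfl⟩ := hs r
    apply hts s
    rw [← hπ, map_sub, map_sub, map_mul, map_mul, map_pow, map_pow, map_neg, map_ofNat, map_ofNat,
      hr]
    ring
  have h3t : 3 * (π t) ^ 2 + π A ≠ 0 := by
    intro h0
    apply hsq
    refine ⟨3 * π t, ?_⟩
    linear_combination -4 * h0
  have hmd : ∀ P : Matrix (Fin 3) (Fin 3) (𝓞 K), (P.map π).det = π P.det := fun P =>
    (RingHom.map_det π P).symm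
  have hchar' : ∀ x : k, (x • M.map π - N.map π).det =
      (M.map π).det * (x ^ 3 + π A * x + π B) := by
    intro x
    obtain ⟨x, rfl⟩ := hs x
    have h1 : π x • M.map π - N.map π = (x • M - N).map π := by
      ext i j
      simp
    rw [h1, hmd, hmd, hchar, map_mul, map_add, map_add, map_mul, map_pow]
  have hsing : (π t • M.map π - N.map π).det = 0 := by
    rw [hchar']
    have h1 := (hπ _).2 ht
    rw [map_add, map_add, map_mul, map_pow] at h1
    rw [h1, mul_zero]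
  obtain ⟨eb, heb0, heb⟩ := Matrix.exists_mulVec_eq_zero_iff.2 hsing
  choose c hc using fun i => hs (eb i)
  have hceb : π ∘ c = eb := funext hc
  have hNM : (N.map π).mulVec eb = π t • (M.map π).mulVec eb := by
    rw [Matrix.sub_mulVec, Matrix.smul_mulVec, sub_eq_zero] at heb
    exact heb.symm
  have hMs : M.IsSymm := by
    ext i j
    rw [Matrix.transpose_apply, hM, hM]
    exact (Mx_symm h _ _).apply i j
  have hNs : N.IsSymm := by
    ext i j
    rw [Matrix.transpose_apply, hN, hN]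
    exact (Nx_symm h _ _).apply i j
  have hMs' : (M.map π).IsSymm := by
    ext i j
    rw [Matrix.transpose_apply, Matrix.map_apply, Matrix.map_apply, hMs.apply]
  have hNs' : (N.map π).IsSymm := by
    ext i j
    rw [Matrix.transpose_apply, Matrix.map_apply, Matrix.map_apply, hNs.apply]
  have hdet' : (M.map π).det ≠ 0 := by
    rw [hmd]
    exact fun h1 => hdet ((hπ _).1 h1)
  obtain ⟨S, hS⟩ := Fd_four hp2 hp3
  have hne := eig_ne S hS hMs' hNs' hdet' hchar' heb0 hNM h3t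
  refine ⟨π A, π B, π t, eb, heb0, hchar', hNM, hsq, hne, ?_⟩
  -- the integers E, z, y
  have hδL : (δ : L) ≠ 0 := fun h0 => hδ (RingOfIntegers.ext (by
    rw [h0]
    exact (map_zero (algebraMap (𝓞 L) L)).symm))
  obtain ⟨E, hE⟩ : ∃ E : 𝓞 L, E = ∑ i, algebraMap (𝓞 K) (𝓞 L) (c i) * e i := ⟨_, rfl⟩
  have hEL : (E : L) = ∑ i, (c i : K) • (e i : L) := by
    rw [hE]
    change algebraMap (𝓞 L) L (∑ i, algebraMap (𝓞 K) (𝓞 L) (c i) * e i) = _
    rw [map_sum]
    refine Finset.sum_congr rfl fun i _ => ?_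
    rw [map_mul, Algebra.smul_def]
    rfl
  obtain ⟨y, yc, hy, hyc⟩ := Prs_row hpr c
  obtain ⟨z, zc, hz, hzc⟩ := Prs_quad hpr c
  rw [← hE] at hz
  simp only [← hE] at hy
  have hzL : (z : L) = (E : L) * (E : L) * (δ : L)⁻¹ := by
    have h1 := congrArg (algebraMap (𝓞 L) L) hz
    rw [map_pow, map_mul] at h1
    rw [← pow_two, eq_mul_inv_iff_mul_eq₀ hδL, mul_comm]
    exact h1.symm
  have hyL : ∀ j, (y j : L) = (E : L) * (e j : L) * (δ : L)⁻¹ := by
    intro j
    have h1 := congrArg (algebraMap (𝓞 L) L) (hy j)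
    rw [map_mul, map_mul] at h1
    rw [eq_mul_inv_iff_mul_eq₀ hδL, mul_comm]
    exact h1.symm
  have hMx : Mx h (fun i => (e i : L)) (δ : L)⁻¹ = M.map (algebraMap (𝓞 K) K) := by
    ext i j
    exact (hM i j).symm
  have hNx : Nx h (fun i => (e i : L)) (δ : L)⁻¹ = N.map (algebraMap (𝓞 K) K) := by
    ext i j
    exact (hN i j).symm
  -- the last coordinate of z
  have hz2 : c ⬝ᵥ M.mulVec c = zc 2 := by
    apply RingOfIntegers.ext
    have h1 := Mx_quad h (fun i => (e i : L)) (δ : L)⁻¹ (fun i => (c i : K))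
    rw [← hEL, ← hzL, hzc, hMx] at h1
    rw [← h1]
    have h2 := RingHom.map_dotProduct (algebraMap (𝓞 K) K) c (M.mulVec c)
    refine h2.trans ?_
    have h3 : (algebraMap (𝓞 K) K ∘ M.mulVec c) =
        (M.map (algebraMap (𝓞 K) K)).mulVec (algebraMap (𝓞 K) K ∘ c) :=
      funext fun i => RingHom.map_mulVec (algebraMap (𝓞 K) K) M c i
    rw [h3]
    rfl
  have hz2' : eb ⬝ᵥ (M.map π).mulVec eb = π (zc 2) := by
    rw [← hz2, ← hceb]
    refine ((RingHom.map_dotProduct π c (M.mulVec c)).trans ?_).symm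
    congr 1
    funext i
    exact RingHom.map_mulVec π M c i
  -- the vector r
  have hr : ∀ j, (N.mulVec c - t • M.mulVec c) j ∈ v.asIdeal := by
    intro j
    rw [← hπ, Pi.sub_apply, Pi.smul_apply, smul_eq_mul, map_sub, map_mul, RingHom.map_mulVec,
      RingHom.map_mulVec, hceb, hNM]
    simp
  have hg : ∀ j, (M.adjugate.mulVec (N.mulVec c - t • M.mulVec c)) j ∈ v.asIdeal := by
    intro j
    rw [Matrix.mulVec, dotProduct]
    exact v.asIdeal.sum_mem fun i _ => v.asIdeal.mul_mem_left _ (hr i)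
  have hlin := Fd_lin h hli (δ : L)⁻¹ (fun i => (c i : K)) (t : K)
  rw [hMx, hNx] at hlin
  have hcoef : ∀ j, ((M.map (algebraMap (𝓞 K) K)).adjugate.mulVec
      ((N.map (algebraMap (𝓞 K) K)).mulVec (fun i => (c i : K)) -
        (t : K) • (M.map (algebraMap (𝓞 K) K)).mulVec (fun i => (c i : K)))) j =
      ((M.adjugate.mulVec (N.mulVec c - t • M.mulVec c)) j : K) := by
    intro j
    have h1 : (M.map (algebraMap (𝓞 K) K)).adjugate = M.adjugate.map (algebraMap (𝓞 K) K) :=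
      (RingHom.map_adjugate (algebraMap (𝓞 K) K) M).symm
    have h2 : (N.map (algebraMap (𝓞 K) K)).mulVec (fun i => (c i : K)) -
        (t : K) • (M.map (algebraMap (𝓞 K) K)).mulVec (fun i => (c i : K)) =
        algebraMap (𝓞 K) K ∘ (N.mulVec c - t • M.mulVec c) := by
      funext i
      have e1 := RingHom.map_mulVec (algebraMap (𝓞 K) K) M c i
      have e2 := RingHom.map_mulVec (algebraMap (𝓞 K) K) N c i
      rw [Function.comp_apply, Pi.sub_apply, Pi.sub_apply, Pi.smul_apply, Pi.smul_apply, map_sub,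
        smul_eq_mul, smul_eq_mul, map_mul, e1, e2]
      rfl
    rw [h1, h2]
    exact (RingHom.map_mulVec (algebraMap (𝓞 K) K) M.adjugate _ j).symm
  have hmdK : (M.map (algebraMap (𝓞 K) K)).det = (M.det : K) :=
    (RingHom.map_det (algebraMap (𝓞 K) K) M).symm
  rw [hmdK, ← hEL] at hlin
  simp only [hcoef] at hlin
  have hlin2 : (M.det : K) • ((θ - algebraMap K L (t : K)) * (z : L)) =
      ∑ j, ((M.adjugate.mulVec (N.mulVec c - t • M.mulVec c)) j : K) • (y j : L) := by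
    rw [Algebra.smul_def, hzL]
    calc algebraMap K L (M.det : K) * ((θ - algebraMap K L (t : K)) * ((E : L) * (E : L) * (δ : L)⁻¹))
        = (algebraMap K L (M.det : K) * ((θ - algebraMap K L (t : K)) * (E : L))) *
          ((E : L) * (δ : L)⁻¹) := by ring
      _ = _ := by
        rw [hlin, Finset.sum_mul]
        refine Finset.sum_congr rfl fun j _ => ?_
        rw [hyL, smul_mul_assoc]
        congr 1
        ring
  have hco : ∀ i, (M.det : K) * h.co i ((θ - algebraMap K L (t : K)) * (z : L)) =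
      ∑ j, ((M.adjugate.mulVec (N.mulVec c - t • M.mulVec c)) j : K) * (yc j i : K) := by
    intro i
    have h1 := congrArg (h.co i) hlin2
    rw [map_smul, map_sum, smul_eq_mul] at h1
    rw [h1]
    refine Finset.sum_congr rfl fun j _ => ?_
    rw [map_smul, smul_eq_mul, hyc]
  have hmem : ∀ (i : Fin 3) (q : 𝓞 K),
      h.co i ((θ - algebraMap K L (t : K)) * (z : L)) = (q : K) → q ∈ v.asIdeal := by
    intro i q hq
    have h1 := hco i
    rw [hq] at h1
    have h2 : M.det * q = ∑ j, (M.adjugate.mulVec (N.mulVec c - t • M.mulVec c)) j * yc j i := by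
      apply RingOfIntegers.coe_injective
      rw [map_mul, map_sum]
      simp only [map_mul]
      exact h1
    have h3 : M.det * q ∈ v.asIdeal := by
      rw [h2]
      exact v.asIdeal.sum_mem fun j _ => v.asIdeal.mul_mem_right _ (hg j)
    exact (hvp.mem_or_mem h3).resolve_left hdet
  obtain ⟨t0, t1, t2⟩ := h.co_theta
  obtain ⟨m0, m1, m2⟩ := h.co_mul θ (z : L)
  have hsplit : (θ - algebraMap K L (t : K)) * (z : L) = θ * (z : L) - (t : K) • (z : L) := by
    rw [Algebra.smul_def]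
    ring
  have hq1 : zc 0 - A * zc 2 - t * zc 1 ∈ v.asIdeal := by
    apply hmem 1
    rw [hsplit, map_sub, map_smul, m1, t0, t1, t2, hzc, hzc, hzc, smul_eq_mul]
    simp only [map_sub, map_mul]
    ring
  have hq2 : zc 1 - t * zc 2 ∈ v.asIdeal := by
    apply hmem 2
    rw [hsplit, map_sub, map_smul, m2, t0, t1, t2, hzc, hzc, hzc, smul_eq_mul]
    simp only [map_sub, map_mul]
    ring
  have hχz := hχ z zc hzc
  have k1 := (hπ _).2 hq1
  have k2 := (hπ _).2 hq2
  rw [map_sub, map_sub, map_mul, map_mul] at k1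
  rw [map_sub, map_mul] at k2
  rw [map_add, map_add, map_mul, map_mul, map_pow] at hχz
  have hfin : (eb ⬝ᵥ (M.map π).mulVec eb) * (3 * (π t) ^ 2 + π A) = χ z := by
    rw [hχz, hz2']
    linear_combination -k1 - 2 * π t * k2
  rw [hfin]
  by_cases hzw : z ∈ w.asIdeal
  · rw [hχ0 z hzw]
    exact ⟨0, (mul_zero 0).symm⟩
  · exact isSquare_res hw χ hχ0 hδ hzw (hz.trans (mul_comm _ _)) hlw

theorem res_condS {K : Type} [Field K] [NumberField K] {A B : 𝓞 K} {L : Type} [Field L]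
    [NumberField L] [Algebra K L] {θ : L} (h : Cub K L (A : K) (B : K) θ) {δ : 𝓞 L} (hδ : δ ≠ 0)
    {e : Fin 3 → 𝓞 L} (hpr : Prs h δ e)
    (hli : LinearIndependent K (fun i => (e i : L))) {M N : Matrix (Fin 3) (Fin 3) (𝓞 K)}
    (hM : ∀ i j, (M i j : K) = Mx h (fun i => (e i : L)) (δ : L)⁻¹ i j)
    (hN : ∀ i j, (N i j : K) = Nx h (fun i => (e i : L)) (δ : L)⁻¹ i j)
    (hchar : ∀ x : 𝓞 K, (x • M - N).det = M.det * (x ^ 3 + A * x + B))
    {v : HeightOneSpectrum (𝓞 K)} (hd : dsc A B ∉ v.asIdeal ^ 2) (h6 : (6 : 𝓞 K) ∉ v.asIdeal)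
    (htyp : ∃ t : 𝓞 K, t ^ 3 + A * t + B ∈ v.asIdeal ∧
      ∀ s : 𝓞 K, -3 * t ^ 2 - 4 * A - s ^ 2 ∉ v.asIdeal)
    (hla : ∀ w : HeightOneSpectrum (𝓞 L), dn K w = v → la w (sc (δ : L)) = 0)
    (hdet : M.det ∉ v.asIdeal) : Rs (rd v M) (rd v N) := by
  obtain ⟨t, ht, hts⟩ := htyp
  obtain ⟨w, χ, hdn, hχ0, -, hχ⟩ := exists_placeL h (lb_of h hd) ht
  have hw : OddP w := by
    have h2 : (2 : 𝓞 L) ∉ w.asIdeal := by
      intro h2
      have h3 : (2 : 𝓞 K) ∈ v.asIdeal := by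
        rw [← hdn]
        change algebraMap (𝓞 K) (𝓞 L) 2 ∈ w.asIdeal
        rw [map_ofNat]
        exact h2
      apply h6
      rw [show (6 : 𝓞 K) = 3 * 2 by norm_num]
      exact v.asIdeal.mul_mem_left _ h3
    have h3 := (HeightOneSpectrum.valuation_eq_one_iff_notMem (K := L) w (r := (2 : 𝓞 L))).2 h2
    unfold H38T1.OddP
    have h4 : algebraMap (𝓞 L) L 2 = 2 := map_ofNat _ 2
    rw [h4] at h3
    exact h3
  exact Fd_mainS h hδ hpr hli hM hN hchar h6 hdet ht hts (Ideal.Quotient.mk v.asIdeal)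
    (fun x => Ideal.Quotient.eq_zero_iff_mem) Ideal.Quotient.mk_surjective hw (hla w hdn) χ
    (fun x hx => (hχ0 x).2 hx) hχ

end H36MT
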