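import Pool.Agent.H36.MT.Tc
import Pool.Agent.H36.MT.Td
import Pool.Agent.H76.PP.Tg

/-!
The classes at `v ∈ J` (project MP_78d38b_MT, no row, proved by modification of `Pool/Agent/H76/PP/Tg.lean`).
-/

set_option autoImplicit false
set_option linter.unusedSectionVars false
open scoped Classical

open WithZero NumberField IsDedekindDomain H38RT
open H38T1 (SC sc scu rep eo la si Pri OddP tp unif)
open H76PP

namespace H36MT

variable {K L : Type} [Field K] [NumberField K] [Field L] [NumberField L] [Algebra K L]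

theorem at_JS {S : Finset (HeightOneSpectrum (𝓞 K))} {e : ℕ} {q₀ : HeightOneSpectrum (𝓞 K)}
    {T J : Finset (HeightOneSpectrum (𝓞 K))}
    {A B : 𝓞 K} (hF : FamS S e q₀ T A B) {θ : L} (h : Cub K L (A : K) (B : K) θ) {D : K}
    (hD : TwS S q₀ J D) {d : Fin 3 → K} (hd : ev (algebraMap K L D * θ) d ≠ 0)
    {v : HeightOneSpectrum (𝓞 K)} (hv : v ∈ J) (hvS : v ∉ S) (h6 : (6 : 𝓞 K) ∉ v.asIdeal)
    {w₁ w₂ : HeightOneSpectrum (𝓞 L)} (h2 : Two K θ v w₁ w₂)
    (hLC : LC (algebraMap K (v.adicCompletion K)) (D ^ 2 * A) (D ^ 3 * B) d) :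
    eo w₁ (sc (ev (algebraMap K L D * θ) d)) = 0 ∧
    (eo w₂ (sc (ev (algebraMap K L D * θ) d)) = 0 →
      la w₁ (sc (ev (algebraMap K L D * θ) d)) = 0 ∧
      la w₂ (sc (ev (algebraMap K L D * θ) d)) = 0) := by
  have h' := Tg_twist h hD.ne
  obtain ⟨x', y, z, hy, hz, h1, hw⟩ := LC_approx h' hd v hLC
  obtain ⟨δ, hδ⟩ : ∃ δ, δ = ev (algebraMap K L D * θ) d := ⟨_, rfl⟩
  rw [← hδ] at hd hw ⊢
  obtain ⟨x, hx'⟩ : ∃ x, x' = D * x := ⟨x' / D, by rw [mul_div_cancel₀ _ hD.ne]⟩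
  rw [hx'] at h1 hw
  have hDne := hD.ne
  have hD' : algebraMap K L D ≠ 0 := (map_ne_zero _).2 hDne
  have e1 : (D * x) ^ 3 + D ^ 2 * (A : K) * (D * x) + D ^ 3 * (B : K) =
      D ^ 3 * (x ^ 3 + (A : K) * x + (B : K)) := by ring
  rw [e1] at h1
  have e2 : δ * (algebraMap K L (D * x) - algebraMap K L D * θ) =
      δ * (algebraMap K L D * (algebraMap K L x - θ)) := by
    rw [map_mul]
    ring
  rw [e2] at hw
  have hoddv : OddP v := by
    by_contra hno
    rw [H38T1.not_oddP] at hno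
    apply h6
    have h3 : (2 : 𝓞 K) ∈ v.asIdeal := by
      rw [← HeightOneSpectrum.valuation_lt_one_iff_mem (K := K)]
      have h4 : (algebraMap (𝓞 K) K) 2 = 2 := map_ofNat (algebraMap (𝓞 K) K) 2
      change v.valuation K (algebraMap (𝓞 K) K 2) < 1
      rw [h4]
      exact hno
    have h5 : (6 : 𝓞 K) = 3 * 2 := by norm_num
    rw [h5]
    exact v.asIdeal.mul_mem_left _ h3
  have hodd1 : OddP w₁ := by
    rw [oddP_dn (K := K), h2.dn1]
    exact hoddv
  have hodd2 : OddP w₂ := by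
    rw [oddP_dn (K := K), h2.dn2]
    exact hoddv
  obtain ⟨f, hf⟩ : ∃ f, f = x ^ 3 + (A : K) * x + (B : K) := ⟨_, rfl⟩
  have r0 := Tg_rel h1 hy
  rw [← hf] at r0
  obtain ⟨n0, r0⟩ := r0
  have hf0 : f ≠ 0 := right_ne_zero_of_mul n0
  have hDDD : ord (v.valuation K) (D ^ 3) = 3 * ord (v.valuation K) D := by
    have h3 : D ^ 3 = D * D * D := by ring
    rw [h3, ord_mul (mul_ne_zero hDne hDne) hDne, ord_mul hDne hDne]
    ring
  rw [ord_mul (pow_ne_zero 3 hDne) hf0, hDDD] at r0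
  obtain ⟨n1, r1⟩ := Tg_rel (hw w₁ h2.dn1) hz
  obtain ⟨n2, r2⟩ := Tg_rel (hw w₂ h2.dn2) hz
  have hxt : algebraMap K L x - θ ≠ 0 := right_ne_zero_of_mul (right_ne_zero_of_mul n1)
  rw [ord_mul hd (mul_ne_zero hD' hxt), ord_mul hD' hxt, h2.ord1 D hDne] at r1
  rw [ord_mul hd (mul_ne_zero hD' hxt), ord_mul hD' hxt, h2.ord2 D hDne] at r2
  have hodd := hD.odd v hv
  rw [H38T1.eo_sc hd, H38T1.eo_sc hd, Tg_even, Tg_even]
  rcases le_or_gt (v.valuation K x) 1 with hx | hx
  · have g1 := h2.unit2 x hx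
    have g2 : ord (w₂.valuation L) (algebraMap K L x - θ) = 0 := by
      unfold ord
      rw [g1, WithZero.log_one, neg_zero]
    rw [g2] at r2
    obtain ⟨w', g3, g4, g5⟩ := ord_subL h (hF.sqf v hvS) hx (by rw [← hf]; exact hf0)
    rw [← hf] at g4
    have g6 : w' = w₁ := by
      rcases h2.only w' g3 with h3 | h3
      · exact h3
      · exfalso
        rw [h3, g2] at g4
        rw [← g4] at r0
        obtain ⟨m, hm⟩ := hodd
        omega
    rw [g6] at g4
    rw [g4] at r1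
    obtain ⟨m, hm⟩ := hodd
    constructor
    · rw [Int.even_iff]
      omega
    · intro h3
      exfalso
      obtain ⟨m', hm'⟩ := h3
      omega
  · have hx1 : 1 < (dn K w₁).valuation K x := by rw [h2.dn1]; exact hx
    have hx2 : 1 < (dn K w₂).valuation K x := by rw [h2.dn2]; exact hx
    have hx0 : x ≠ 0 := by
      rintro rfl
      rw [map_zero] at hx
      exact absurd hx (not_lt.2 zero_le_one)
    obtain ⟨b1, -, -, b4⟩ := ord_sub_big h hx1
    obtain ⟨b1', -, -, -⟩ := ord_sub_big h hx2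
    rw [h2.dn1, ← hf] at b4
    have o1 : ord (w₁.valuation L) (algebraMap K L x - θ) = ord (v.valuation K) x := by
      rw [← h2.ord1 x hx0]
      unfold ord
      rw [b1]
    have o2 : ord (w₂.valuation L) (algebraMap K L x - θ) = ord (v.valuation K) x := by
      rw [← h2.ord2 x hx0]
      unfold ord
      rw [b1']
    have of : ord (v.valuation K) f = 3 * ord (v.valuation K) x := by
      have h3 : ord (v.valuation K) f = ord (v.valuation K) (x * x * x) := by
        unfold ord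
        rw [b4, map_mul, map_mul, pow_succ, pow_two]
      rw [h3, ord_mul (mul_ne_zero hx0 hx0) hx0, ord_mul hx0 hx0]
      ring
    rw [of] at r0
    rw [o1] at r1
    rw [o2] at r2
    obtain ⟨m, hm⟩ := hodd
    refine ⟨?_, fun _ => ⟨?_, ?_⟩⟩
    · rw [Int.even_iff]
      omega
    · refine Tg_big h hDne hy hz hodd1 hx1 ?_ (hw w₁ h2.dn1)
      rw [h2.dn1]
      exact h1
    · refine Tg_big h hDne hy hz hodd2 hx2 ?_ (hw w₂ h2.dn2)
      rw [h2.dn2]
      exact h1

end H36MT
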